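import Pool.Agent.N398.Upk

set_option autoImplicit false

namespace Pool.Agent.N398

open Pool.Agent.Helper745.FSub

/-- interior rim vertices -/
abbrev In (n : ℕ) : Type := ↥(Finset.Ioo 0 n)

/-- the rim of the bipyramid -/
def rim (n j : ℕ) : W (Option (In n)) :=
  if h : j ∈ Finset.Ioo 0 n then Sum.inr (some ⟨j, h⟩) else
    if j = 0 then Sum.inl 1 else Sum.inl 2

/-- the apex which is a corner -/
def pp (n : ℕ) : W (Option (In n)) := Sum.inl 0

/-- the inner apex -/
def qq (n : ℕ) : W (Option (In n)) := Sum.inr none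

def bR (n : ℕ) (x y : W (Option (In n))) : Prop :=
  (∃ j ≤ n, x = pp n ∧ y = rim n j) ∨ (∃ j ≤ n, x = qq n ∧ y = rim n j) ∨
    (∃ j < n, x = rim n j ∧ y = rim n (j + 1)) ∨ (x = rim n 0 ∧ y = rim n n)

/-- the bipyramid -/
def bB (n : ℕ) : Bas (Option (In n)) (Option (Bool × Fin n)) where
  adj := fun x y => bR n x y ∨ bR n y x
  face := fun m => match m with
    | none => ![qq n, rim n n, rim n 0]
    | some (b, j) => ![if b = true then qq n else pp n, rim n j.val, rim n (j.val + 1)]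

variable {n : ℕ}

theorem rim_in {j : ℕ} (h1 : 0 < j) (h2 : j < n) :
    rim n j = Sum.inr (some ⟨j, Finset.mem_Ioo.2 ⟨h1, h2⟩⟩) := by
  unfold rim
  rw [dif_pos]

theorem rim_zero : rim n 0 = Sum.inl 1 := by
  unfold rim
  rw [dif_neg (by simp), if_pos rfl]

theorem rim_n (hn : 0 < n) : rim n n = Sum.inl 2 := by
  unfold rim
  rw [dif_neg (by simp), if_neg hn.ne']

theorem rim_inj (hn : 0 < n) {i j : ℕ} (hi : i ≤ n) (hj : j ≤ n) (h : rim n i = rim n j) :
    i = j := by
  rcases Nat.eq_zero_or_pos i with rfl | hi0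
  · rw [rim_zero] at h
    rcases Nat.eq_zero_or_pos j with rfl | hj0
    · rfl
    · rcases hj.eq_or_lt with rfl | hjn
      · rw [rim_n hj0] at h
        simp at h
      · rw [rim_in hj0 hjn] at h
        simp at h
  · rcases hi.eq_or_lt with rfl | hin
    · rw [rim_n hi0] at h
      rcases Nat.eq_zero_or_pos j with rfl | hj0
      · rw [rim_zero] at h
        simp at h
      · rcases hj.eq_or_lt with rfl | hjn
        · rfl
        · rw [rim_in hj0 hjn] at h
          simp at h
    · rw [rim_in hi0 hin] at h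
      rcases Nat.eq_zero_or_pos j with rfl | hj0
      · rw [rim_zero] at h
        simp at h
      · rcases hj.eq_or_lt with rfl | hjn
        · rw [rim_n hj0] at h
          simp at h
        · rw [rim_in hj0 hjn] at h
          simpa using h

theorem pp_ne_rim (j : ℕ) : pp n ≠ rim n j := by
  unfold pp rim
  split_ifs <;> simp

theorem qq_ne_rim (j : ℕ) : qq n ≠ rim n j := by
  unfold qq rim
  split_ifs <;> simp

theorem pp_ne_qq : pp n ≠ qq n := by
  unfold pp qq
  simp

theorem bcas (hn : 0 < n) (x : W (Option (In n))) : x = pp n ∨ x = qq n ∨ ∃ j ≤ n, x = rim n j := by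
  rcases x with c | (_ | ⟨j, hj⟩)
  · fin_cases c
    · exact Or.inl rfl
    · exact Or.inr (Or.inr ⟨0, Nat.zero_le _, rim_zero.symm⟩)
    · exact Or.inr (Or.inr ⟨n, le_refl _, (rim_n hn).symm⟩)
  · exact Or.inr (Or.inl rfl)
  · have h := Finset.mem_Ioo.1 hj
    exact Or.inr (Or.inr ⟨j, h.2.le, (rim_in h.1 h.2).symm⟩)

/-- rim points -/
noncomputable def uu (s : ℝ) : Pt := ((1 - s) ^ 2, s ^ 2)

theorem o_uuu (s t w : ℝ) : ori (uu s) (uu t) (uu w) = 2 * (t - s) * (w - s) * (t - w) := by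
  unfold ori uu
  ring

theorem o_puu (s t : ℝ) : ori (0, 0) (uu s) (uu t) = (t - s) * (s * (1 - t) + t * (1 - s)) := by
  unfold ori uu
  simp only
  ring

theorem o_quu (s t : ℝ) : ori (3 / 8, 3 / 8) (uu s) (uu t) =
    (t - s) * (s + t - 2 * s * t - 3 / 4) := by
  unfold ori uu
  simp only
  ring

theorem o_uup (s t : ℝ) : ori (uu s) (uu t) (0, 0) = (t - s) * (s * (1 - t) + t * (1 - s)) := by
  unfold ori uu
  simp only
  ring

theorem o_uuq (s t : ℝ) : ori (uu s) (uu t) (3 / 8, 3 / 8) =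
    (t - s) * (s + t - 2 * s * t - 3 / 4) := by
  unfold ori uu
  simp only
  ring

theorem o_sw (a b c : Pt) : ori b a c = - ori a b c := by unfold ori; ring

theorem o_1 (a b : Pt) : ori a b a = 0 := by unfold ori; ring

theorem o_2 (a b : Pt) : ori a b b = 0 := by unfold ori; ring

/-- parameters of the rim points -/
structure Par (r : ℕ) (s : ℕ → ℝ) : Prop where
  mono : ∀ i j, i < j → s i < s j
  s0 : s 0 = 0
  sr : s r = 1 / 2
  sn : s (2 * r) = 1
  rp : 0 < r

theorem Par.le {r : ℕ} {s : ℕ → ℝ} (h : Par r s) {i j : ℕ} (hij : i ≤ j) : s i ≤ s j := by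
  rcases hij.eq_or_lt with rfl | hij
  · exact le_refl _
  · exact (h.mono _ _ hij).le

theorem Par.n0 {r : ℕ} {s : ℕ → ℝ} (h : Par r s) (i : ℕ) : 0 ≤ s i := by
  rw [← h.s0]; exact h.le (Nat.zero_le _)

theorem Par.n1 {r : ℕ} {s : ℕ → ℝ} (h : Par r s) {i : ℕ} (hi : i ≤ 2 * r) : s i ≤ 1 := by
  rw [← h.sn]; exact h.le hi

theorem Par.p0 {r : ℕ} {s : ℕ → ℝ} (h : Par r s) {i : ℕ} (hi : 0 < i) : 0 < s i := by
  have := h.mono 0 i hi
  rwa [h.s0] at this

theorem Par.p1 {r : ℕ} {s : ℕ → ℝ} (h : Par r s) {i : ℕ} (hi : i < 2 * r) : s i < 1 := by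
  have := h.mono _ _ hi
  rwa [h.sn] at this

/-- `p` on the left of rim chords -/
theorem Par.pl {r : ℕ} {s : ℕ → ℝ} (h : Par r s) {i j : ℕ} (hij : i < j) (hj : j ≤ 2 * r) :
    0 < (s j - s i) * (s i * (1 - s j) + s j * (1 - s i)) := by
  apply mul_pos (by linarith [h.mono i j hij])
  have h1 := mul_nonneg (h.n0 i) (by linarith [h.n1 hj] : 0 ≤ 1 - s j)
  have h2 := mul_pos (h.p0 (by omega : 0 < j)) (by linarith [h.p1 (by omega : i < 2 * r)] :
    0 < 1 - s i)
  linarith

/-- `q` on the right of rim chords within a half -/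
theorem Par.ql {r : ℕ} {s : ℕ → ℝ} (h : Par r s) {i j : ℕ} (hij : i < j)
    (hh : j ≤ r ∨ r ≤ i) : (s j - s i) * (s i + s j - 2 * s i * s j - 3 / 4) < 0 := by
  apply mul_neg_of_pos_of_neg (by linarith [h.mono i j hij])
  have key : 0 ≤ (1 - 2 * s i) * (1 - 2 * s j) := by
    rcases hh with hh | hh
    · have h1 := h.le hh
      have h2 := h.le (hij.le.trans hh)
      rw [h.sr] at h1 h2
      exact mul_nonneg (by linarith) (by linarith)
    · have h1 := h.le hh
      have h2 := h.le (hh.trans hij.le)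
      rw [h.sr] at h1 h2
      exact mul_nonneg_of_nonpos_of_nonpos (by linarith) (by linarith)
  nlinarith

/-- rim points on the right of a rim edge -/
theorem Par.rl {r : ℕ} {s : ℕ → ℝ} (h : Par r s) {k j : ℕ} (h1 : j ≠ k) (h2 : j ≠ k + 1) :
    2 * (s (k + 1) - s k) * (s j - s k) * (s (k + 1) - s j) < 0 := by
  have h3 := h.mono k (k + 1) (by omega)
  rcases Nat.lt_or_ge j k with h4 | h4
  · have h5 := h.mono j k h4
    have : 0 < 2 * (s (k + 1) - s k) * (s k - s j) * (s (k + 1) - s j) := by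
      apply mul_pos (mul_pos (by linarith) (by linarith)) (by linarith)
    linarith
  · have h5 := h.mono (k + 1) j (by omega)
    have : 0 < 2 * (s (k + 1) - s k) * (s j - s k) * (s j - s (k + 1)) := by
      apply mul_pos (mul_pos (by linarith) (by linarith)) (by linarith)
    linarith

section seg

variable {x y a b c d : Pt}

theorem sg_le {p : Pt} (ha : ori x y a ≤ 0) (hb : ori x y b ≤ 0) (hp : p ∈ segment ℝ a b) :
    ori x y p ≤ 0 := by
  obtain ⟨α, β, hα, hβ, hab, rfl⟩ := hp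
  rw [ori_comb _ _ _ _ hab]
  have h1 := mul_nonpos_of_nonneg_of_nonpos hα ha
  have h2 := mul_nonpos_of_nonneg_of_nonpos hβ hb
  linarith

theorem sg_lt {p : Pt} (ha : ori x y a < 0) (hb : ori x y b < 0) (hp : p ∈ segment ℝ a b) :
    ori x y p < 0 := by
  obtain ⟨α, β, hα, hβ, hab, rfl⟩ := hp
  rw [ori_comb _ _ _ _ hab]
  rcases hα.eq_or_lt with h | h
  · have : β = 1 := by linarith
    subst this
    rw [← h]
    linarith
  · have h1 := mul_neg_of_pos_of_neg h ha
    have h2 := mul_nonpos_of_nonneg_of_nonpos hβ hb.le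
    linarith

theorem sg_eq {p : Pt} (ha : ori x y a < 0) (hb : ori x y b ≤ 0) (hp : p ∈ segment ℝ a b)
    (h0 : 0 ≤ ori x y p) : p = b := by
  obtain ⟨α, β, hα, hβ, hab, rfl⟩ := hp
  rw [ori_comb _ _ _ _ hab] at h0
  rcases hα.eq_or_lt with h | h
  · have : β = 1 := by linarith
    subst this
    rw [← h, zero_smul, one_smul, zero_add]
  · exfalso
    have h1 := mul_neg_of_pos_of_neg h ha
    have h2 := mul_nonpos_of_nonneg_of_nonpos hβ hb
    linarith

theorem sg_ge {p : Pt} (ha : 0 ≤ ori x y a) (hb : 0 ≤ ori x y b) (hp : p ∈ segment ℝ a b) :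
    0 ≤ ori x y p := by
  have h1 := sg_le (x := y) (y := x) (by rw [o_sw]; linarith) (by rw [o_sw]; linarith) hp
  rw [o_sw] at h1
  linarith

theorem sg_gt {p : Pt} (ha : 0 < ori x y a) (hb : 0 < ori x y b) (hp : p ∈ segment ℝ a b) :
    0 < ori x y p := by
  have h1 := sg_lt (x := y) (y := x) (by rw [o_sw]; linarith) (by rw [o_sw]; linarith) hp
  rw [o_sw] at h1
  linarith

theorem sg_eq' {p : Pt} (ha : 0 < ori x y a) (hb : 0 ≤ ori x y b) (hp : p ∈ segment ℝ a b)
    (h0 : ori x y p ≤ 0) : p = b := by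
  refine sg_eq (x := y) (y := x) (by rw [o_sw]; linarith) (by rw [o_sw]; linarith) hp ?_
  rw [o_sw]
  linarith

/-- the value of a linear form at a point of an open triangle -/
theorem tri_val {p : Pt} (h : inT a b c p) : ∃ α β γ : ℝ, 0 < α ∧ 0 < β ∧ 0 < γ ∧ ∀ x y : Pt,
    ori x y p = α * ori x y a + β * ori x y b + γ * ori x y c := by
  have hs : ori a b p + ori b c p + ori c a p = ori a b c := tri_split_sum a b c p
  have key : ori a b c ≠ 0 := by
    rcases h with ⟨h1, h2, h3⟩ | ⟨h1, h2, h3⟩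
    · have : 0 < ori a b c := by linarith
      exact this.ne'
    · have : ori a b c < 0 := by linarith
      exact this.ne
  refine ⟨ori b c p / ori a b c, ori c a p / ori a b c, ori a b p / ori a b c, ?_, ?_, ?_, ?_⟩
  · rcases h with ⟨h1, h2, h3⟩ | ⟨h1, h2, h3⟩
    · exact div_pos h2 (by linarith)
    · exact div_pos_of_neg_of_neg h2 (by linarith)
  · rcases h with ⟨h1, h2, h3⟩ | ⟨h1, h2, h3⟩
    · exact div_pos h3 (by linarith)
    · exact div_pos_of_neg_of_neg h3 (by linarith)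
  · rcases h with ⟨h1, h2, h3⟩ | ⟨h1, h2, h3⟩
    · exact div_pos h1 (by linarith)
    · exact div_pos_of_neg_of_neg h1 (by linarith)
  · intro x y
    field_simp
    unfold ori
    ring

theorem tri_ge {p : Pt} (h : inT a b c p) (ha : 0 ≤ ori x y a) (hb : 0 ≤ ori x y b)
    (hc : 0 ≤ ori x y c) (hs : 0 < ori x y a ∨ 0 < ori x y b ∨ 0 < ori x y c) :
    0 < ori x y p := by
  obtain ⟨α, β, γ, h1, h2, h3, h4⟩ := tri_val h
  rw [h4]
  have k1 := mul_nonneg h1.le ha
  have k2 := mul_nonneg h2.le hb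
  have k3 := mul_nonneg h3.le hc
  rcases hs with hs | hs | hs
  · have := mul_pos h1 hs; linarith
  · have := mul_pos h2 hs; linarith
  · have := mul_pos h3 hs; linarith

theorem tri_le {p : Pt} (h : inT a b c p) (ha : ori x y a ≤ 0) (hb : ori x y b ≤ 0)
    (hc : ori x y c ≤ 0) (hs : ori x y a < 0 ∨ ori x y b < 0 ∨ ori x y c < 0) :
    ori x y p < 0 := by
  have := tri_ge (x := y) (y := x) h (by rw [o_sw]; linarith) (by rw [o_sw]; linarith)
    (by rw [o_sw]; linarith) (by
      rcases hs with hs | hs | hs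
      · left; rw [o_sw]; linarith
      · right; left; rw [o_sw]; linarith
      · right; right; rw [o_sw]; linarith)
  rw [o_sw] at this
  linarith

end seg

end Pool.Agent.N398
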