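import Pool.Agent.N398.Bia

set_option autoImplicit false

namespace Pool.Agent.N398

open Pool.Agent.Helper745.FSub

section pts

variable {r : ℕ} {s : ℕ → ℝ} (h : Par r s)

include h

theorem Rp {k : ℕ} (hk : k < 2 * r) : 0 < ori (uu (s k)) (uu (s (k + 1))) (0, 0) := by
  rw [o_uup]
  exact h.pl (by omega) (by omega)

theorem Rq (k : ℕ) : ori (uu (s k)) (uu (s (k + 1))) (3 / 8, 3 / 8) < 0 := by
  rw [o_uuq]
  exact h.ql (by omega) (by omega)

theorem Ru {k j : ℕ} (h1 : j ≠ k) (h2 : j ≠ k + 1) :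
    ori (uu (s k)) (uu (s (k + 1))) (uu (s j)) < 0 := by
  rw [o_uuu]
  exact h.rl h1 h2

theorem Rle (k j : ℕ) : ori (uu (s k)) (uu (s (k + 1))) (uu (s j)) ≤ 0 := by
  by_cases h1 : j = k
  · subst h1
    rw [o_1]
  by_cases h2 : j = k + 1
  · subst h2
    rw [o_2]
  exact (Ru h h1 h2).le

theorem Pu {j k : ℕ} (hjk : j < k) (hk : k ≤ 2 * r) : 0 < ori (0, 0) (uu (s j)) (uu (s k)) := by
  rw [o_puu]
  exact h.pl hjk hk

theorem Pu' {j k : ℕ} (hjk : k < j) (hj : j ≤ 2 * r) : ori (0, 0) (uu (s j)) (uu (s k)) < 0 := by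
  have h1 := Pu h hjk hj
  have e : ori (0, 0) (uu (s j)) (uu (s k)) = - ori (0, 0) (uu (s k)) (uu (s j)) := by
    unfold ori; ring
  linarith

theorem Qu {i j : ℕ} (hij : i < j) (hh : j ≤ r ∨ r ≤ i) :
    ori (3 / 8, 3 / 8) (uu (s i)) (uu (s j)) < 0 := by
  rw [o_quu]
  exact h.ql hij hh

theorem Qu' {i j : ℕ} (hij : j < i) (hh : i ≤ r ∨ r ≤ j) :
    0 < ori (3 / 8, 3 / 8) (uu (s i)) (uu (s j)) := by
  have h1 := Qu h hij hh
  have e : ori (3 / 8, 3 / 8) (uu (s i)) (uu (s j)) = - ori (3 / 8, 3 / 8) (uu (s j)) (uu (s i)) := by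
    unfold ori; ring
  linarith

theorem Hu {j : ℕ} (h0 : 0 < j) (hn : j < 2 * r) :
    0 < ori (uu (s 0)) (uu (s (2 * r))) (uu (s j)) := by
  rw [o_uuu, h.s0, h.sn]
  have h1 := h.p0 h0
  have h2 := h.p1 hn
  have := mul_pos h1 (by linarith : 0 < 1 - s j)
  nlinarith

theorem Hp : 0 < ori (uu (s 0)) (uu (s (2 * r))) (0, 0) := by
  rw [o_uup, h.s0, h.sn]
  norm_num

theorem Hq : 0 < ori (uu (s 0)) (uu (s (2 * r))) (3 / 8, 3 / 8) := by
  rw [o_uuq, h.s0, h.sn]
  norm_num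

theorem uu_inj {i j : ℕ} (he : uu (s i) = uu (s j)) : i = j := by
  by_contra hne
  have e := congrArg Prod.snd he
  simp only [uu] at e
  have h1 := h.n0 i
  have h2 := h.n0 j
  have h3 : s i = s j := by
    have : (s i - s j) * (s i + s j) = 0 := by linear_combination e
    rcases mul_eq_zero.1 this with h' | h'
    · linarith
    · linarith
  rcases Nat.lt_or_gt_of_ne hne with h' | h'
  · have := h.mono _ _ h'; linarith
  · have := h.mono _ _ h'; linarith

/-- an index of a rim edge at `j` -/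
theorem ridx {j : ℕ} (hj : j ≤ 2 * r) : ∃ i, i < 2 * r ∧ (j = i ∨ j = i + 1) := by
  have := h.rp
  rcases hj.eq_or_lt with h' | h'
  · exact ⟨2 * r - 1, by omega, Or.inr (by omega)⟩
  · exact ⟨j, h', Or.inl rfl⟩

omit h in
theorem R0 {i j : ℕ} (hi : j = i ∨ j = i + 1) :
    ori (uu (s i)) (uu (s (i + 1))) (uu (s j)) = 0 := by
  rcases hi with rfl | rfl
  · rw [o_1]
  · rw [o_2]

theorem dPQ {j k : ℕ} (hj : j ≤ 2 * r) (hjk : j ≠ k) :
    Disjoint (segment ℝ (0, 0) (uu (s j))) (segment ℝ (3 / 8, 3 / 8) (uu (s k))) := by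
  rw [Set.disjoint_left]
  intro p hp hp'
  obtain ⟨i, hi, hij⟩ := ridx h hj
  have h1 : 0 ≤ ori (uu (s i)) (uu (s (i + 1))) p := sg_ge (Rp h hi).le (R0 hij).ge hp
  have h2 : ori (uu (s i)) (uu (s (i + 1))) p ≤ 0 := sg_le (Rq h i).le (Rle h i k) hp'
  have h3 := sg_eq' (Rp h hi) (R0 hij).ge hp h2
  have h4 := sg_eq (Rq h i) (Rle h i k) hp' h1
  exact hjk (uu_inj h (h3.symm.trans h4))

theorem dPR {j k : ℕ} (hj : j ≤ 2 * r) (hk : k < 2 * r) (h1 : j ≠ k) (h2 : j ≠ k + 1) :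
    Disjoint (segment ℝ (0, 0) (uu (s j))) (segment ℝ (uu (s k)) (uu (s (k + 1)))) := by
  rw [Set.disjoint_left]
  intro p hp hp'
  have g1 : 0 ≤ ori (0, 0) (uu (s j)) p := sg_ge (o_1 _ _).ge (o_2 _ _).ge hp
  have g2 : ori (0, 0) (uu (s j)) p ≤ 0 := sg_le (o_1 _ _).le (o_2 _ _).le hp
  rcases Nat.lt_or_ge j k with h' | h'
  · have := sg_gt (Pu h h' hk.le) (Pu h (by omega : j < k + 1) hk) hp'
    linarith
  · have := sg_lt (Pu' h (by omega : k < j) hj) (Pu' h (by omega : k + 1 < j) hj) hp'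
    linarith

theorem dPH {j : ℕ} (h0 : 0 < j) (hn : j < 2 * r) :
    Disjoint (segment ℝ (0, 0) (uu (s j))) (segment ℝ (uu (s 0)) (uu (s (2 * r)))) := by
  rw [Set.disjoint_left]
  intro p hp hp'
  have h1 := sg_gt (Hp h) (Hu h h0 hn) hp
  have h2 : ori (uu (s 0)) (uu (s (2 * r))) p ≤ 0 := sg_le (o_1 _ _).le (o_2 _ _).le hp'
  linarith

theorem dQR {j k : ℕ} (h1 : j ≠ k) (h2 : j ≠ k + 1) :
    Disjoint (segment ℝ (3 / 8, 3 / 8) (uu (s j))) (segment ℝ (uu (s k)) (uu (s (k + 1)))) := by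
  rw [Set.disjoint_left]
  intro p hp hp'
  have g1 := sg_lt (Rq h k) (Ru h h1 h2) hp
  have g2 : 0 ≤ ori (uu (s k)) (uu (s (k + 1))) p := sg_ge (o_1 _ _).ge (o_2 _ _).ge hp'
  linarith

theorem dQH {j : ℕ} (h0 : 0 < j) (hn : j < 2 * r) :
    Disjoint (segment ℝ (3 / 8, 3 / 8) (uu (s j))) (segment ℝ (uu (s 0)) (uu (s (2 * r)))) := by
  rw [Set.disjoint_left]
  intro p hp hp'
  have h1 := sg_gt (Hq h) (Hu h h0 hn) hp
  have h2 : ori (uu (s 0)) (uu (s (2 * r))) p ≤ 0 := sg_le (o_1 _ _).le (o_2 _ _).le hp'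
  linarith

theorem dRR {j k : ℕ} (h1 : j ≠ k) (h2 : j ≠ k + 1) (h3 : j + 1 ≠ k) :
    Disjoint (segment ℝ (uu (s j)) (uu (s (j + 1)))) (segment ℝ (uu (s k)) (uu (s (k + 1)))) := by
  rw [Set.disjoint_left]
  intro p hp hp'
  have g1 := sg_lt (Ru h h1 h2) (Ru h (by omega : j + 1 ≠ k) (by omega : j + 1 ≠ k + 1)) hp
  have g2 : 0 ≤ ori (uu (s k)) (uu (s (k + 1))) p := sg_ge (o_1 _ _).ge (o_2 _ _).ge hp'
  linarith

theorem dRH {j : ℕ} (h0 : 0 < j) (hn : j + 1 < 2 * r) :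
    Disjoint (segment ℝ (uu (s j)) (uu (s (j + 1))))
      (segment ℝ (uu (s 0)) (uu (s (2 * r)))) := by
  rw [Set.disjoint_left]
  intro p hp hp'
  have h1 := sg_gt (Hu h h0 (by omega)) (Hu h (by omega : 0 < j + 1) hn) hp
  have h2 : ori (uu (s 0)) (uu (s (2 * r))) p ≤ 0 := sg_le (o_1 _ _).le (o_2 _ _).le hp'
  linarith

end pts

/-- the drawing of the bipyramid -/
noncomputable def bb (n : ℕ) (s : ℕ → ℝ) : W (Option (In n)) → Pt
  | Sum.inl c => T0 c
  | Sum.inr none => (3 / 8, 3 / 8)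
  | Sum.inr (some j) => uu (s j.val)

theorem bb_p (n : ℕ) (s : ℕ → ℝ) : bb n s (pp n) = (0, 0) := rfl

theorem bb_q (n : ℕ) (s : ℕ → ℝ) : bb n s (qq n) = (3 / 8, 3 / 8) := rfl

theorem bb_r {r : ℕ} {s : ℕ → ℝ} (h : Par r s) {j : ℕ} (hj : j ≤ 2 * r) :
    bb (2 * r) s (rim (2 * r) j) = uu (s j) := by
  have hr := h.rp
  rcases Nat.eq_zero_or_pos j with rfl | hj0
  · rw [rim_zero]
    have e : T0 1 = (1, 0) := rfl
    simp only [bb, uu, h.s0, e]
    norm_num
  · rcases hj.eq_or_lt with rfl | hjn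
    · rw [rim_n hj0]
      have e : T0 2 = (0, 1) := rfl
      simp only [bb, uu, h.sn, e]
      norm_num
    · rw [rim_in hj0 hjn]
      rfl

theorem bb_drw {r : ℕ} {s : ℕ → ℝ} (h : Par r s) : Drw (bB (2 * r)).adj (bb (2 * r) s) := by
  have hr := h.rp
  have hn : 0 < 2 * r := by omega
  have pu : ∀ j, ((0, 0) : Pt) ≠ uu (s j) := by
    intro j hj
    rcases Nat.lt_or_ge j (2 * r) with h' | h'
    · have := Rp h h'
      rw [hj, o_1] at this
      exact lt_irrefl _ this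
    · have e := congrArg Prod.snd hj
      simp only [uu] at e
      have h1 := h.p0 (by omega : 0 < j)
      have : 0 < s j ^ 2 := by positivity
      linarith
  have qu : ∀ j, ((3 / 8, 3 / 8) : Pt) ≠ uu (s j) := by
    intro j hj
    have := Rq h j
    rw [hj, o_1] at this
    exact lt_irrefl _ this
  have pq : ((0, 0) : Pt) ≠ (3 / 8, 3 / 8) := by
    intro e
    have e := congrArg Prod.snd e
    norm_num at e
  have rr := fun {j : ℕ} (hj : j ≤ 2 * r) => bb_r h hj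
  have d1' : ∀ u v w, bR (2 * r) u v → w ≠ u → w ≠ v →
      bb (2 * r) s w ∉ segment ℝ (bb (2 * r) s u) (bb (2 * r) s v) := by
    rintro u v w (⟨j, hj, rfl, rfl⟩ | ⟨j, hj, rfl, rfl⟩ | ⟨j, hj, rfl, rfl⟩ | ⟨rfl, rfl⟩) hwu hwv hw
    · rcases bcas hn w with rfl | rfl | ⟨k, hk, rfl⟩
      · exact hwu rfl
      · rw [bb_p, bb_q, rr hj] at hw
        obtain ⟨i, hi, hij⟩ := ridx h hj
        have h1 := sg_ge (Rp h hi).le (R0 hij).ge hw
        have h2 := Rq h i
        linarith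
      · rw [bb_p, rr hj, rr hk] at hw
        have g1 : 0 ≤ ori (0, 0) (uu (s j)) (uu (s k)) := sg_ge (o_1 _ _).ge (o_2 _ _).ge hw
        have g2 : ori (0, 0) (uu (s j)) (uu (s k)) ≤ 0 := sg_le (o_1 _ _).le (o_2 _ _).le hw
        have hne : k ≠ j := fun e => hwv (by rw [e])
        rcases Nat.lt_or_gt_of_ne hne with h' | h'
        · have := Pu' h h' hj
          linarith
        · have := Pu h h' hk
          linarith
    · rcases bcas hn w with rfl | rfl | ⟨k, hk, rfl⟩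
      · rw [bb_p, bb_q, rr hj] at hw
        obtain ⟨i, hi, hij⟩ := ridx h hj
        have h1 := sg_le (Rq h i).le (R0 hij).le hw
        have h2 := Rp h hi
        linarith
      · exact hwu rfl
      · rw [bb_q, rr hj, rr hk] at hw
        obtain ⟨i, hi, hik⟩ := ridx h hk
        have h1 := sg_eq (Rq h i) (Rle h i j) hw (R0 hik).ge
        exact hwv (by rw [uu_inj h h1])
    · rcases bcas hn w with rfl | rfl | ⟨k, hk, rfl⟩
      · rw [bb_p, rr hj.le, rr (by omega : j + 1 ≤ 2 * r)] at hw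
        have g1 : ori (uu (s j)) (uu (s (j + 1))) (0, 0) ≤ 0 := sg_le (o_1 _ _).le (o_2 _ _).le hw
        have := Rp h hj
        linarith
      · rw [bb_q, rr hj.le, rr (by omega : j + 1 ≤ 2 * r)] at hw
        have g1 : 0 ≤ ori (uu (s j)) (uu (s (j + 1))) (3 / 8, 3 / 8) :=
          sg_ge (o_1 _ _).ge (o_2 _ _).ge hw
        have := Rq h j
        linarith
      · rw [rr hk, rr hj.le, rr (by omega : j + 1 ≤ 2 * r)] at hw
        have g1 : 0 ≤ ori (uu (s j)) (uu (s (j + 1))) (uu (s k)) :=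
          sg_ge (o_1 _ _).ge (o_2 _ _).ge hw
        have := Ru h (fun e => hwu (by rw [e]) : k ≠ j) (fun e => hwv (by rw [e]) : k ≠ j + 1)
        linarith
    · rcases bcas hn w with rfl | rfl | ⟨k, hk, rfl⟩
      · rw [bb_p, rr (Nat.zero_le _), rr (le_refl _)] at hw
        have g1 : ori (uu (s 0)) (uu (s (2 * r))) (0, 0) ≤ 0 :=
          sg_le (o_1 _ _).le (o_2 _ _).le hw
        have := Hp h
        linarith
      · rw [bb_q, rr (Nat.zero_le _), rr (le_refl _)] at hw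
        have g1 : ori (uu (s 0)) (uu (s (2 * r))) (3 / 8, 3 / 8) ≤ 0 :=
          sg_le (o_1 _ _).le (o_2 _ _).le hw
        have := Hq h
        linarith
      · rw [rr hk, rr (Nat.zero_le _), rr (le_refl _)] at hw
        have g1 : ori (uu (s 0)) (uu (s (2 * r))) (uu (s k)) ≤ 0 :=
          sg_le (o_1 _ _).le (o_2 _ _).le hw
        have k0 : k ≠ 0 := fun e => hwu (by rw [e])
        have k1 : k ≠ 2 * r := fun e => hwv (by rw [e])
        have := Hu h (by omega : 0 < k) (by omega : k < 2 * r)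
        linarith
  have d2' : ∀ u v x y, bR (2 * r) u v → bR (2 * r) x y → u ≠ x → u ≠ y → v ≠ x → v ≠ y →
      Disjoint (segment ℝ (bb (2 * r) s u) (bb (2 * r) s v))
        (segment ℝ (bb (2 * r) s x) (bb (2 * r) s y)) := by
    have nr : ∀ {i j : ℕ}, rim (2 * r) i ≠ rim (2 * r) j → i ≠ j := fun h e => h (by rw [e])
    rintro u v x y (⟨j, hj, rfl, rfl⟩ | ⟨j, hj, rfl, rfl⟩ | ⟨j, hj, rfl, rfl⟩ | ⟨rfl, rfl⟩)
      (⟨k, hk, rfl, rfl⟩ | ⟨k, hk, rfl, rfl⟩ | ⟨k, hk, rfl, rfl⟩ | ⟨rfl, rfl⟩) h1 h2 h3 h4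
    · exact absurd rfl h1
    · rw [bb_p, bb_q, rr hj, rr hk]
      exact dPQ h hj (nr h4)
    · rw [bb_p, rr hj, rr hk.le, rr (by omega : k + 1 ≤ 2 * r)]
      exact dPR h hj hk (nr h3) (nr h4)
    · rw [bb_p, rr hj, rr (Nat.zero_le _), rr (le_refl _)]
      have := nr h3
      have := nr h4
      exact dPH h (by omega) (by omega)
    · rw [bb_p, bb_q, rr hj, rr hk]
      exact (dPQ h hk (nr h4).symm).symm
    · exact absurd rfl h1
    · rw [bb_q, rr hj, rr hk.le, rr (by omega : k + 1 ≤ 2 * r)]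
      exact dQR h (nr h3) (nr h4)
    · rw [bb_q, rr hj, rr (Nat.zero_le _), rr (le_refl _)]
      have := nr h3
      have := nr h4
      exact dQH h (by omega) (by omega)
    · rw [bb_p, rr hk, rr hj.le, rr (by omega : j + 1 ≤ 2 * r)]
      exact (dPR h hk hj (nr h2).symm (nr h4).symm).symm
    · rw [bb_q, rr hk, rr hj.le, rr (by omega : j + 1 ≤ 2 * r)]
      exact (dQR h (nr h2).symm (nr h4).symm).symm
    · rw [rr hk.le, rr (by omega : k + 1 ≤ 2 * r), rr hj.le, rr (by omega : j + 1 ≤ 2 * r)]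
      exact dRR h (nr h1) (nr h2) (nr h3)
    · rw [rr (Nat.zero_le _), rr (le_refl _), rr hj.le, rr (by omega : j + 1 ≤ 2 * r)]
      have := nr h1
      have := nr h4
      exact dRH h (by omega) (by omega)
    · rw [bb_p, rr hk, rr (Nat.zero_le _), rr (le_refl _)]
      have := nr h2
      have := nr h4
      exact (dPH h (by omega) (by omega)).symm
    · rw [bb_q, rr hk, rr (Nat.zero_le _), rr (le_refl _)]
      have := nr h2
      have := nr h4
      exact (dQH h (by omega) (by omega)).symm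
    · rw [rr (Nat.zero_le _), rr (le_refl _), rr hk.le, rr (by omega : k + 1 ≤ 2 * r)]
      have := nr h1
      have := nr h4
      exact (dRH h (by omega) (by omega)).symm
    · exact absurd rfl h1
  refine ⟨?_, ?_, ?_⟩
  · intro x y hxy
    rcases bcas hn x with rfl | rfl | ⟨j, hj, rfl⟩ <;> rcases bcas hn y with rfl | rfl | ⟨k, hk, rfl⟩
    · rfl
    · exact absurd hxy pq
    · rw [bb_p, rr hk] at hxy
      exact absurd hxy (pu k)
    · exact absurd hxy.symm pq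
    · rfl
    · rw [bb_q, rr hk] at hxy
      exact absurd hxy (qu k)
    · rw [bb_p, rr hj] at hxy
      exact absurd hxy.symm (pu j)
    · rw [bb_q, rr hj] at hxy
      exact absurd hxy.symm (qu j)
    · rw [rr hj, rr hk] at hxy
      rw [uu_inj h hxy]
  · rintro u v w (huv | huv) hwu hwv
    · exact d1' u v w huv hwu hwv
    · rw [segment_symm]
      exact d1' v u w huv hwv hwu
  · rintro u v x y (huv | huv) (hxy | hxy) h1 h2 h3 h4
    · exact d2' u v x y huv hxy h1 h2 h3 h4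
    · rw [segment_symm ℝ (bb (2 * r) s x)]
      exact d2' u v y x huv hxy h2 h1 h4 h3
    · rw [segment_symm ℝ (bb (2 * r) s u)]
      exact d2' v u x y huv hxy h3 h4 h1 h2
    · rw [segment_symm ℝ (bb (2 * r) s u), segment_symm ℝ (bb (2 * r) s x)]
      exact d2' v u y x huv hxy h4 h3 h2 h1

end Pool.Agent.N398
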