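import Pool.Agent.N398.Bib

set_option autoImplicit false

namespace Pool.Agent.N398

open Pool.Agent.Helper745.FSub

/-- separated triangles -/
def Sp (a b c a' b' c' : Pt) : Prop := ∃ x y : Pt,
  (ori x y a ≤ 0 ∧ ori x y b ≤ 0 ∧ ori x y c ≤ 0 ∧
    (ori x y a < 0 ∨ ori x y b < 0 ∨ ori x y c < 0)) ∧
  (0 ≤ ori x y a' ∧ 0 ≤ ori x y b' ∧ 0 ≤ ori x y c' ∧
    (0 < ori x y a' ∨ 0 < ori x y b' ∨ 0 < ori x y c'))

theorem Sp.symm {a b c a' b' c' : Pt} (h : Sp a b c a' b' c') : Sp a' b' c' a b c := by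
  obtain ⟨x, y, ⟨h1, h2, h3, h4⟩, k1, k2, k3, k4⟩ := h
  refine ⟨y, x, ?_, ?_⟩
  · rw [o_sw x y a', o_sw x y b', o_sw x y c']
    refine ⟨by linarith, by linarith, by linarith, ?_⟩
    rcases k4 with k4 | k4 | k4
    · left; linarith
    · right; left; linarith
    · right; right; linarith
  · rw [o_sw x y a, o_sw x y b, o_sw x y c]
    refine ⟨by linarith, by linarith, by linarith, ?_⟩
    rcases h4 with h4 | h4 | h4
    · left; linarith
    · right; left; linarith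
    · right; right; linarith

theorem Sp.ff {a b c a' b' c' p : Pt} (h : Sp a b c a' b' c') (h1 : inT a b c p) :
    ¬ inT a' b' c' p := by
  intro h2
  obtain ⟨x, y, ⟨g1, g2, g3, g4⟩, k1, k2, k3, k4⟩ := h
  have := tri_le h1 g1 g2 g3 g4
  have := tri_ge h2 k1 k2 k3 k4
  linarith

theorem Sp.fe {a b c a' b' c' p u v : Pt} (h : Sp a b c a' b' c') (hu : u = a ∨ u = b ∨ u = c)
    (hv : v = a ∨ v = b ∨ v = c) (h1 : p ∈ segment ℝ u v) : ¬ inT a' b' c' p := by
  intro h2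
  obtain ⟨x, y, ⟨g1, g2, g3, g4⟩, k1, k2, k3, k4⟩ := h
  have := tri_ge h2 k1 k2 k3 k4
  have hu' : ori x y u ≤ 0 := by rcases hu with rfl | rfl | rfl <;> assumption
  have hv' : ori x y v ≤ 0 := by rcases hv with rfl | rfl | rfl <;> assumption
  have := sg_le hu' hv' h1
  linarith

theorem side {a b c p u v : Pt} (hu : u = a ∨ u = b ∨ u = c)
    (hv : v = a ∨ v = b ∨ v = c) (h1 : p ∈ segment ℝ u v) : ¬ inT a b c p := by
  intro h2
  have key : ∀ x y : Pt, p ∈ segment ℝ x y → ori x y p = 0 := by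
    intro x y hp
    have := sg_le (o_1 x y).le (o_2 x y).le hp
    have := sg_ge (o_1 x y).ge (o_2 x y).ge hp
    linarith
  have e1 : ∀ x : Pt, x ∈ segment ℝ x x := fun x => left_mem_segment ℝ x x
  have n1 : ori a b p ≠ 0 := by rcases h2 with h | h <;> [exact h.1.ne'; exact h.1.ne]
  have n2 : ori b c p ≠ 0 := by rcases h2 with h | h <;> [exact h.2.1.ne'; exact h.2.1.ne]
  have n3 : ori c a p ≠ 0 := by rcases h2 with h | h <;> [exact h.2.2.ne'; exact h.2.2.ne]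
  rcases hu with rfl | rfl | rfl <;> rcases hv with rfl | rfl | rfl
  · rw [segment_same, Set.mem_singleton_iff] at h1
    rw [h1, o_1] at n1
    exact n1 rfl
  · exact n1 (key _ _ h1)
  · rw [segment_symm] at h1
    exact n3 (key _ _ h1)
  · rw [segment_symm] at h1
    exact n1 (key _ _ h1)
  · rw [segment_same, Set.mem_singleton_iff] at h1
    rw [h1, o_2] at n1
    exact n1 rfl
  · exact n2 (key _ _ h1)
  · exact n3 (key _ _ h1)
  · rw [segment_symm] at h1
    exact n2 (key _ _ h1)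
  · rw [segment_same, Set.mem_singleton_iff] at h1
    rw [h1, o_2] at n2
    exact n2 rfl

section pts

variable {r : ℕ} {s : ℕ → ℝ} (h : Par r s)

include h

theorem spFF {j k : ℕ} (hjk : j < k) (hk : k < 2 * r) :
    Sp (0, 0) (uu (s j)) (uu (s (j + 1))) (0, 0) (uu (s k)) (uu (s (k + 1))) := by
  refine ⟨(0, 0), uu (s k), ⟨(o_1 _ _).le, (Pu' h hjk hk.le).le, ?_, ?_⟩,
    ⟨(o_1 _ _).ge, (o_2 _ _).ge, ?_, ?_⟩⟩
  · rcases (Nat.succ_le_of_lt hjk).eq_or_lt with h' | h'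
    · have : j + 1 = k := h'
      rw [this]
      exact (o_2 _ _).le
    · exact (Pu' h h' hk.le).le
  · exact Or.inr (Or.inl (Pu' h hjk hk.le))
  · exact (Pu h (Nat.lt_succ_self k) hk).le
  · exact Or.inr (Or.inr (Pu h (Nat.lt_succ_self k) hk))

theorem spHF {j : ℕ} (hj : j < 2 * r) (k k' : ℕ) :
    Sp (3 / 8, 3 / 8) (uu (s k)) (uu (s k')) (0, 0) (uu (s j)) (uu (s (j + 1))) := by
  refine ⟨uu (s j), uu (s (j + 1)), ⟨(Rq h j).le, Rle h j k, Rle h j k', Or.inl (Rq h j)⟩,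
    ⟨(Rp h hj).le, (o_1 _ _).ge, (o_2 _ _).ge, Or.inl (Rp h hj)⟩⟩

theorem spHH {j k : ℕ} (hjk : j < k) (hk : k < 2 * r) :
    Sp (3 / 8, 3 / 8) (uu (s j)) (uu (s (j + 1))) (3 / 8, 3 / 8) (uu (s k)) (uu (s (k + 1))) := by
  by_cases hc : k < r ∨ r ≤ j
  · have hkk : ori (3 / 8, 3 / 8) (uu (s k)) (uu (s (k + 1))) < 0 := Qu h (by omega) (by omega)
    have hkj : 0 < ori (3 / 8, 3 / 8) (uu (s k)) (uu (s j)) := Qu' h hjk (by omega)
    have hkj' : 0 ≤ ori (3 / 8, 3 / 8) (uu (s k)) (uu (s (j + 1))) := by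
      rcases (Nat.succ_le_of_lt hjk).eq_or_lt with h' | h'
      · have : j + 1 = k := h'
        rw [this]
        exact (o_2 _ _).ge
      · exact (Qu' h h' (by omega)).le
    apply Sp.symm
    refine ⟨(3 / 8, 3 / 8), uu (s k), ⟨(o_1 _ _).le, (o_2 _ _).le, hkk.le, Or.inr (Or.inr hkk)⟩,
      ⟨(o_1 _ _).ge, hkj.le, hkj', Or.inr (Or.inl hkj)⟩⟩
  · have e : ∀ i, ori (0, 0) (3 / 8, 3 / 8) (uu (s i)) = 3 / 8 * (2 * s i - 1) := by
      intro i
      unfold ori uu
      simp only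
      ring
    have hj : s j < 1 / 2 := by rw [← h.sr]; exact h.mono _ _ (by omega)
    have hj1 : s (j + 1) ≤ 1 / 2 := by rw [← h.sr]; exact h.le (by omega)
    have hk : 1 / 2 ≤ s k := by rw [← h.sr]; exact h.le (by omega)
    have hk1 : 1 / 2 < s (k + 1) := by rw [← h.sr]; exact h.mono _ _ (by omega)
    refine ⟨(0, 0), (3 / 8, 3 / 8), ⟨(o_2 _ _).le, ?_, ?_, ?_⟩, ⟨(o_2 _ _).ge, ?_, ?_, ?_⟩⟩
    · rw [e]; linarith
    · rw [e]; linarith
    · right; left; rw [e]; linarith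
    · rw [e]; linarith
    · rw [e]; linarith
    · right; right; rw [e]; linarith

theorem spHN {j : ℕ} (hj : j < 2 * r) :
    Sp (3 / 8, 3 / 8) (uu (s j)) (uu (s (j + 1))) (3 / 8, 3 / 8) (uu (s (2 * r))) (uu (s 0)) := by
  have hr := h.rp
  have h0n : 0 < ori (3 / 8, 3 / 8) (uu (s 0)) (uu (s (2 * r))) := by
    rw [o_quu, h.s0, h.sn]
    norm_num
  have hn0 : ori (3 / 8, 3 / 8) (uu (s (2 * r))) (uu (s 0)) < 0 := by
    rw [o_quu, h.s0, h.sn]
    norm_num
  by_cases hc : j < r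
  · have hj1 : ori (3 / 8, 3 / 8) (uu (s 0)) (uu (s (j + 1))) < 0 := Qu h (by omega) (by omega)
    have hj0 : ori (3 / 8, 3 / 8) (uu (s 0)) (uu (s j)) ≤ 0 := by
      rcases Nat.eq_zero_or_pos j with rfl | h'
      · exact (o_2 _ _).le
      · exact (Qu h h' (by omega)).le
    exact ⟨(3 / 8, 3 / 8), uu (s 0), ⟨(o_1 _ _).le, hj0, hj1.le, Or.inr (Or.inr hj1)⟩,
      ⟨(o_1 _ _).ge, h0n.le, (o_2 _ _).ge, Or.inr (Or.inl h0n)⟩⟩
  · have hj0 : 0 < ori (3 / 8, 3 / 8) (uu (s (2 * r))) (uu (s j)) := Qu' h hj (by omega)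
    have hj1 : 0 ≤ ori (3 / 8, 3 / 8) (uu (s (2 * r))) (uu (s (j + 1))) := by
      rcases (Nat.succ_le_of_lt hj).eq_or_lt with h' | h'
      · have : j + 1 = 2 * r := h'
        rw [this]
        exact (o_2 _ _).ge
      · exact (Qu' h h' (by omega)).le
    apply Sp.symm
    exact ⟨(3 / 8, 3 / 8), uu (s (2 * r)), ⟨(o_1 _ _).le, (o_2 _ _).le, hn0.le,
      Or.inr (Or.inr hn0)⟩, ⟨(o_1 _ _).ge, hj0.le, hj1, Or.inr (Or.inl hj0)⟩⟩

end pts

/-- positions of the corners of the faces -/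
theorem bb_face {r : ℕ} {s : ℕ → ℝ} (h : Par r s) (m : Option (Bool × Fin (2 * r))) :
    (m = none ∧ bb (2 * r) s ((bB (2 * r)).face m 0) = (3 / 8, 3 / 8) ∧
      bb (2 * r) s ((bB (2 * r)).face m 1) = uu (s (2 * r)) ∧
      bb (2 * r) s ((bB (2 * r)).face m 2) = uu (s 0)) ∨
    (∃ j : Fin (2 * r), m = some (false, j) ∧ bb (2 * r) s ((bB (2 * r)).face m 0) = (0, 0) ∧
      bb (2 * r) s ((bB (2 * r)).face m 1) = uu (s j.val) ∧
      bb (2 * r) s ((bB (2 * r)).face m 2) = uu (s (j.val + 1))) ∨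
    (∃ j : Fin (2 * r), m = some (true, j) ∧
      bb (2 * r) s ((bB (2 * r)).face m 0) = (3 / 8, 3 / 8) ∧
      bb (2 * r) s ((bB (2 * r)).face m 1) = uu (s j.val) ∧
      bb (2 * r) s ((bB (2 * r)).face m 2) = uu (s (j.val + 1))) := by
  rcases m with _ | ⟨b, j⟩
  · left
    exact ⟨rfl, rfl, bb_r h (le_refl _), bb_r h (Nat.zero_le _)⟩
  · have hj := j.isLt
    rcases b with _ | _
    · right; left
      exact ⟨j, rfl, rfl, bb_r h hj.le, bb_r h hj⟩
    · right; right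
      exact ⟨j, rfl, rfl, bb_r h hj.le, bb_r h hj⟩

theorem bb_sp {r : ℕ} {s : ℕ → ℝ} (h : Par r s) (m m' : Option (Bool × Fin (2 * r)))
    (hm : m ≠ m') : Sp (bb (2 * r) s ((bB (2 * r)).face m 0)) (bb (2 * r) s ((bB (2 * r)).face m 1))
      (bb (2 * r) s ((bB (2 * r)).face m 2)) (bb (2 * r) s ((bB (2 * r)).face m' 0))
      (bb (2 * r) s ((bB (2 * r)).face m' 1)) (bb (2 * r) s ((bB (2 * r)).face m' 2)) := by
  rcases bb_face h m with ⟨e, e0, e1, e2⟩ | ⟨j, e, e0, e1, e2⟩ | ⟨j, e, e0, e1, e2⟩ <;>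
  rcases bb_face h m' with ⟨e', e0', e1', e2'⟩ | ⟨k, e', e0', e1', e2'⟩ | ⟨k, e', e0', e1', e2'⟩ <;>
  rw [e0, e1, e2, e0', e1', e2']
  · exact absurd (e.trans e'.symm) hm
  · exact spHF h k.isLt _ _
  · exact (spHN h k.isLt).symm
  · exact (spHF h j.isLt _ _).symm
  · have hne : j.val ≠ k.val := by
      intro h'
      apply hm
      rw [e, e', Fin.ext h']
    rcases Nat.lt_or_gt_of_ne hne with h' | h'
    · exact spFF h h' k.isLt
    · exact (spFF h h' j.isLt).symm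
  · exact (spHF h j.isLt _ _).symm
  · exact spHN h j.isLt
  · exact spHF h k.isLt _ _
  · have hne : j.val ≠ k.val := by
      intro h'
      apply hm
      rw [e, e', Fin.ext h']
    rcases Nat.lt_or_gt_of_ne hne with h' | h'
    · exact spHH h h' k.isLt
    · exact (spHH h h' j.isLt).symm

/-- every edge is a side of a face -/
theorem b_side {n : ℕ} (hn : 0 < n) (i j : W (Option (In n))) (h : bR n i j) :
    ∃ (m : Option (Bool × Fin n)) (c c' : Fin 3), i = (bB n).face m c ∧ j = (bB n).face m c' := by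
  rcases h with ⟨j, hj, rfl, rfl⟩ | ⟨j, hj, rfl, rfl⟩ | ⟨j, hj, rfl, rfl⟩ | ⟨rfl, rfl⟩
  · rcases hj.eq_or_lt with rfl | hj
    · refine ⟨some (false, ⟨j - 1, by omega⟩), 0, 2, rfl, ?_⟩
      show rim j j = rim j (j - 1 + 1)
      congr 1
      omega
    · exact ⟨some (false, ⟨j, hj⟩), 0, 1, rfl, rfl⟩
  · rcases hj.eq_or_lt with rfl | hj
    · refine ⟨some (true, ⟨j - 1, by omega⟩), 0, 2, rfl, ?_⟩
      show rim j j = rim j (j - 1 + 1)
      congr 1
      omega
    · exact ⟨some (true, ⟨j, hj⟩), 0, 1, rfl, rfl⟩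
  · exact ⟨some (false, ⟨j, hj⟩), 1, 2, rfl, rfl⟩
  · exact ⟨none, 2, 1, rfl, rfl⟩

theorem bb_bt {r : ℕ} {s : ℕ → ℝ} (h : Par r s) : BT (bB (2 * r)) (bb (2 * r) s) where
  drw := bb_drw h
  cor := fun i => rfl
  inn := by
    have e0 : T0 0 = (0, 0) := rfl
    have e1 : T0 1 = (1, 0) := rfl
    have e2 : T0 2 = (0, 1) := rfl
    rintro (_ | ⟨j, hj⟩)
    · simp only [inP, bb, e0, e1, e2, ori]
      norm_num
    · have hj' := Finset.mem_Ioo.1 hj
      have h0 := h.p0 hj'.1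
      have h1 := h.p1 hj'.2
      have h2 := mul_pos h0 (by linarith : 0 < 1 - s j)
      have h3 : 0 < s j ^ 2 := by positivity
      have h4 : 0 < (1 - s j) ^ 2 := by
        have : 0 < 1 - s j := by linarith
        positivity
      simp only [inP, bb, e0, e1, e2, ori, uu]
      refine ⟨by linarith, ?_, by linarith⟩
      have e : (0 - 1) * (s j ^ 2 - 0) - (1 - 0) * ((1 - s j) ^ 2 - 1) = 2 * (s j * (1 - s j)) := by
        ring
      rw [e]
      linarith
  ndg := by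
    intro m
    have hr := h.rp
    rcases bb_face h m with ⟨e, e0, e1, e2⟩ | ⟨j, e, e0, e1, e2⟩ | ⟨j, e, e0, e1, e2⟩ <;>
    rw [e0, e1, e2]
    · rw [o_quu, h.s0, h.sn]
      norm_num
    · exact (Pu h (Nat.lt_succ_self _) j.isLt).ne'
    · exact (Qu h (Nat.lt_succ_self _) (by omega)).ne
  fe := by
    have hr := h.rp
    intro m i j hij p hp
    have key : ∃ (m' : Option (Bool × Fin (2 * r))) (c c' : Fin 3),
        i = (bB (2 * r)).face m' c ∧ j = (bB (2 * r)).face m' c' := by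
      rcases hij with h' | h'
      · exact b_side (by omega) _ _ h'
      · obtain ⟨m', c, c', h1, h2⟩ := b_side (by omega) _ _ h'
        exact ⟨m', c', c, h2, h1⟩
    obtain ⟨m', c, c', rfl, rfl⟩ := key
    by_cases hm : m' = m
    · subst hm
      exact side (fT_cor _ _ _ _) (fT_cor _ _ _ _) hp
    · exact (bb_sp h m' m hm).fe (fT_cor _ _ _ _) (fT_cor _ _ _ _) hp
  ff := fun m m' hm p hp => (bb_sp h m m' hm).ff hp
  fin := by
    intro m p hp
    have e0 : T0 0 = (0, 0) := rfl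
    have e1 : T0 1 = (1, 0) := rfl
    have e2 : T0 2 = (0, 1) := rfl
    have f0 : ∀ z : Pt, ori (T0 0) (T0 1) z = z.2 := by
      intro z; rw [e0, e1]; simp [ori]
    have f1 : ∀ z : Pt, ori (T0 1) (T0 2) z = 1 - z.1 - z.2 := by
      intro z; rw [e1, e2]; simp [ori]; ring
    have f2 : ∀ z : Pt, ori (T0 2) (T0 0) z = z.1 := by
      intro z; rw [e2, e0]; simp [ori]
    have g0 : ∀ j, 0 ≤ ori (T0 0) (T0 1) (uu (s j)) := by
      intro j; rw [f0]; simp only [uu]; positivity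
    have g2 : ∀ j, 0 ≤ ori (T0 2) (T0 0) (uu (s j)) := by
      intro j; rw [f2]; simp only [uu]; positivity
    have g1 : ∀ j, j ≤ 2 * r → 0 ≤ ori (T0 1) (T0 2) (uu (s j)) := by
      intro j hj
      rw [f1]
      simp only [uu]
      have := mul_nonneg (h.n0 j) (by linarith [h.n1 hj] : 0 ≤ 1 - s j)
      nlinarith
    have g0' : ∀ j, 0 < j → 0 < ori (T0 0) (T0 1) (uu (s j)) := by
      intro j hj; rw [f0]; simp only [uu]
      have := h.p0 hj
      positivity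
    have g2' : ∀ j, j < 2 * r → 0 < ori (T0 2) (T0 0) (uu (s j)) := by
      intro j hj; rw [f2]; simp only [uu]
      have : 0 < 1 - s j := by linarith [h.p1 hj]
      positivity
    have p0 : 0 ≤ ori (T0 0) (T0 1) (0, 0) := by rw [f0]
    have p2 : 0 ≤ ori (T0 2) (T0 0) (0, 0) := by rw [f2]
    have p1 : 0 < ori (T0 1) (T0 2) (0, 0) := by rw [f1]; norm_num
    have q0 : 0 < ori (T0 0) (T0 1) (3 / 8, 3 / 8) := by rw [f0]; norm_num
    have q1 : 0 < ori (T0 1) (T0 2) (3 / 8, 3 / 8) := by rw [f1]; norm_num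
    have q2 : 0 < ori (T0 2) (T0 0) (3 / 8, 3 / 8) := by rw [f2]; norm_num
    rcases bb_face h m with ⟨e, a0, a1, a2⟩ | ⟨j, e, a0, a1, a2⟩ | ⟨j, e, a0, a1, a2⟩ <;>
    rw [a0, a1, a2] at hp
    · exact ⟨tri_ge hp q0.le (g0 _) (g0 _) (Or.inl q0),
        tri_ge hp q1.le (g1 _ (le_refl _)) (g1 _ (Nat.zero_le _)) (Or.inl q1),
        tri_ge hp q2.le (g2 _) (g2 _) (Or.inl q2)⟩
    · exact ⟨tri_ge hp p0 (g0 _) (g0 _) (Or.inr (Or.inr (g0' _ (Nat.succ_pos _)))),
        tri_ge hp p1.le (g1 _ j.isLt.le) (g1 _ j.isLt) (Or.inl p1),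
        tri_ge hp p2 (g2 _) (g2 _) (Or.inr (Or.inl (g2' _ j.isLt)))⟩
    · exact ⟨tri_ge hp q0.le (g0 _) (g0 _) (Or.inl q0),
        tri_ge hp q1.le (g1 _ j.isLt.le) (g1 _ j.isLt) (Or.inl q1),
        tri_ge hp q2.le (g2 _) (g2 _) (Or.inl q2)⟩

theorem par_ex {r : ℕ} (hr : 0 < r) : ∃ s, Par r s := by
  have hr' : (0 : ℝ) < r := by exact_mod_cast hr
  refine ⟨fun j => (j : ℝ) / (2 * r), ⟨?_, by simp, ?_, ?_, hr⟩⟩
  · intro i j hij
    have : (i : ℝ) < j := by exact_mod_cast hij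
    show (i : ℝ) / (2 * r) < (j : ℝ) / (2 * r)
    exact div_lt_div_of_pos_right this (by positivity)
  · field_simp
  · push_cast
    field_simp

/-- the certificate of the bipyramid -/
def bP (n : ℕ) : Option (In n) → Fin 4 → W (Option (In n))
  | none => ![pp n, rim n 0, rim n n, rim n n]
  | some j => ![pp n, qq n, rim n 0, rim n (j.val + 1)]

def bpar (n : ℕ) : Option (In n) → Option (Option (In n))
  | none => none
  | some j => if h : j.val + 1 < n then some (some ⟨j.val + 1, Finset.mem_Ioo.2 ⟨Nat.succ_pos _, h⟩⟩)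
      else some none

def brk (n : ℕ) : Option (In n) → ℕ
  | none => 0
  | some j => n - j.val

def bd (n : ℕ) (hn : 2 ≤ n) : Option (Bool × Fin n) → Option (In n)
  | none => none
  | some (_, j) => if h : 0 < j.val then some ⟨j.val, Finset.mem_Ioo.2 ⟨h, j.isLt⟩⟩
      else some ⟨1, Finset.mem_Ioo.2 ⟨one_pos, hn⟩⟩

theorem bB_tw {n : ℕ} (hn : 2 ≤ n) : BTW (bB n) := by
  refine ⟨bP n, bpar n, brk n, n, bd n hn, ?_, ?_, ?_, ?_, ?_⟩
  · rintro (_ | ⟨j, hj⟩)
    · simp only [brk]; omega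
    · have := Finset.mem_Ioo.1 hj
      simp only [brk]; omega
  · rintro (_ | ⟨j, hj⟩) u hu
    · simp [bpar] at hu
    · have hj' := Finset.mem_Ioo.1 hj
      simp only [bpar] at hu
      split_ifs at hu with h1
      · simp only [Option.some.injEq] at hu
        subst hu
        refine ⟨by simp only [brk]; omega, fun i => ?_⟩
        fin_cases i
        · exact Or.inr ⟨0, rfl⟩
        · exact Or.inr ⟨1, rfl⟩
        · exact Or.inr ⟨2, rfl⟩
        · left
          exact rim_in (Nat.succ_pos _) h1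
      · simp only [Option.some.injEq] at hu
        subst hu
        refine ⟨by simp only [brk]; omega, fun i => ?_⟩
        fin_cases i
        · exact Or.inr ⟨0, rfl⟩
        · exact Or.inl rfl
        · exact Or.inr ⟨1, rfl⟩
        · right
          refine ⟨2, ?_⟩
          have : j + 1 = n := by omega
          show rim n (j + 1) = rim n n
          rw [this]
  · rintro (_ | ⟨j, hj⟩) hv i
    · fin_cases i
      · exact ⟨0, rfl⟩
      · exact ⟨1, rim_zero⟩
      · exact ⟨2, rim_n (by omega)⟩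
      · exact ⟨2, rim_n (by omega)⟩
    · simp only [bpar] at hv
      split_ifs at hv
  · have key : ∀ x y, bR n x y → (∃ v i, y = Sum.inr v ∧ x = bP n v i) ∨
        (∃ v i, x = Sum.inr v ∧ y = bP n v i) ∨
        (∃ c c' : Fin 3, x = Sum.inl c ∧ y = Sum.inl c') := by
      rintro x y (⟨j, hj, rfl, rfl⟩ | ⟨j, hj, rfl, rfl⟩ | ⟨j, hj, rfl, rfl⟩ | ⟨rfl, rfl⟩)
      · rcases Nat.eq_zero_or_pos j with rfl | h0
        · exact Or.inr (Or.inr ⟨0, 1, rfl, rim_zero⟩)
        · rcases hj.eq_or_lt with rfl | hj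
          · exact Or.inr (Or.inr ⟨0, 2, rfl, rim_n h0⟩)
          · exact Or.inl ⟨some ⟨j, Finset.mem_Ioo.2 ⟨h0, hj⟩⟩, 0, rim_in h0 hj, rfl⟩
      · rcases Nat.eq_zero_or_pos j with rfl | h0
        · exact Or.inr (Or.inl ⟨none, 1, rfl, rfl⟩)
        · rcases hj.eq_or_lt with rfl | hj
          · exact Or.inr (Or.inl ⟨none, 2, rfl, rfl⟩)
          · exact Or.inl ⟨some ⟨j, Finset.mem_Ioo.2 ⟨h0, hj⟩⟩, 1, rim_in h0 hj, rfl⟩
      · rcases Nat.eq_zero_or_pos j with rfl | h0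
        · exact Or.inl ⟨some ⟨1, Finset.mem_Ioo.2 ⟨one_pos, hn⟩⟩, 2, rim_in one_pos hn, rfl⟩
        · exact Or.inr (Or.inl ⟨some ⟨j, Finset.mem_Ioo.2 ⟨h0, hj⟩⟩, 3, rim_in h0 hj, rfl⟩)
      · exact Or.inr (Or.inr ⟨1, 2, rim_zero, rim_n (by omega)⟩)
    rintro x y (hxy | hxy)
    · exact key x y hxy
    · rcases key y x hxy with h | h | ⟨c, c', h1, h2⟩
      · exact Or.inr (Or.inl h)
      · exact Or.inl h
      · exact Or.inr (Or.inr ⟨c', c, h2, h1⟩)
  · rintro (_ | ⟨b, j⟩) c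
    · fin_cases c
      · exact Or.inl rfl
      · exact Or.inr ⟨2, rfl⟩
      · exact Or.inr ⟨1, rfl⟩
    · simp only [bd]
      split_ifs with h0
      · fin_cases c
        · rcases b with _ | _
          · exact Or.inr ⟨0, rfl⟩
          · exact Or.inr ⟨1, rfl⟩
        · left
          exact rim_in h0 j.isLt
        · exact Or.inr ⟨3, rfl⟩
      · have hj : j.val = 0 := by omega
        fin_cases c
        · rcases b with _ | _
          · exact Or.inr ⟨0, rfl⟩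
          · exact Or.inr ⟨1, rfl⟩
        · right
          refine ⟨2, ?_⟩
          show rim n j.val = rim n 0
          rw [hj]
        · left
          show rim n (j.val + 1) = _
          rw [hj]
          exact rim_in one_pos hn

theorem bB_ok {r : ℕ} (hr : 0 < r) : BOK (bB (2 * r)) where
  sy := fun x y h => h.symm
  irr := by
    have hn : 0 < 2 * r := by omega
    have key : ∀ x, ¬ bR (2 * r) x x := by
      rintro x (⟨j, hj, h1, h2⟩ | ⟨j, hj, h1, h2⟩ | ⟨j, hj, h1, h2⟩ | ⟨h1, h2⟩)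
      · exact pp_ne_rim j (h1.symm.trans h2)
      · exact qq_ne_rim j (h1.symm.trans h2)
      · have := rim_inj hn hj.le hj (h1.symm.trans h2)
        omega
      · have := rim_inj hn (Nat.zero_le _) (le_refl _) (h1.symm.trans h2)
        omega
    rintro x (h | h) <;> exact key x h
  cc := by
    have hn : 0 < 2 * r := by omega
    have e1 : (Sum.inl 1 : W (Option (In (2 * r)))) = rim (2 * r) 0 := rim_zero.symm
    have e2 : (Sum.inl 2 : W (Option (In (2 * r)))) = rim (2 * r) (2 * r) := (rim_n hn).symm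
    have h01 : bR (2 * r) (Sum.inl 0) (Sum.inl 1) := Or.inl ⟨0, Nat.zero_le _, rfl, e1⟩
    have h02 : bR (2 * r) (Sum.inl 0) (Sum.inl 2) := Or.inl ⟨2 * r, le_refl _, rfl, e2⟩
    have h12 : bR (2 * r) (Sum.inl 1) (Sum.inl 2) := Or.inr (Or.inr (Or.inr ⟨e1, e2⟩))
    intro i j hij
    fin_cases i <;> fin_cases j
    · exact absurd rfl hij
    · exact Or.inl h01
    · exact Or.inl h02
    · exact Or.inr h01
    · exact absurd rfl hij
    · exact Or.inl h12
    · exact Or.inr h02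
    · exact Or.inr h12
    · exact absurd rfl hij
  fa := by
    have key : ∀ (m : Option (Bool × Fin (2 * r))),
        ((bB (2 * r)).adj ((bB (2 * r)).face m 0) ((bB (2 * r)).face m 1)) ∧
        ((bB (2 * r)).adj ((bB (2 * r)).face m 1) ((bB (2 * r)).face m 2)) ∧
        ((bB (2 * r)).adj ((bB (2 * r)).face m 0) ((bB (2 * r)).face m 2)) := by
      rintro (_ | ⟨b, j⟩)
      · exact ⟨Or.inl (Or.inr (Or.inl ⟨_, le_refl _, rfl, rfl⟩)),
          Or.inr (Or.inr (Or.inr (Or.inr ⟨rfl, rfl⟩))),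
          Or.inl (Or.inr (Or.inl ⟨_, Nat.zero_le _, rfl, rfl⟩))⟩
      · have hj := j.isLt
        rcases b with _ | _
        · exact ⟨Or.inl (Or.inl ⟨_, hj.le, rfl, rfl⟩),
            Or.inl (Or.inr (Or.inr (Or.inl ⟨_, hj, rfl, rfl⟩))),
            Or.inl (Or.inl ⟨_, hj, rfl, rfl⟩)⟩
        · exact ⟨Or.inl (Or.inr (Or.inl ⟨_, hj.le, rfl, rfl⟩)),
            Or.inl (Or.inr (Or.inr (Or.inl ⟨_, hj, rfl, rfl⟩))),
            Or.inl (Or.inr (Or.inl ⟨_, hj, rfl, rfl⟩))⟩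
    intro m i j hij
    obtain ⟨h1, h2, h3⟩ := key m
    fin_cases i <;> fin_cases j
    · exact absurd rfl hij
    · exact h1
    · exact h3
    · exact h1.symm
    · exact absurd rfl hij
    · exact h2
    · exact h3.symm
    · exact h2.symm
    · exact absurd rfl hij
  hub := by
    refine ⟨none, ?_⟩
    rintro (_ | ⟨j, hj⟩) hk
    · exact absurd rfl hk
    · have hj' := Finset.mem_Ioo.1 hj
      exact Or.inl (Or.inr (Or.inl ⟨j, hj'.2.le, rfl, (rim_in hj'.1 hj'.2).symm⟩))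
  fin := by
    rintro (_ | ⟨b, j⟩)
    · exact ⟨0, none, rfl⟩
    · have hj := j.isLt
      by_cases h0 : 0 < j.val
      · exact ⟨1, _, rim_in h0 hj⟩
      · refine ⟨2, some ⟨1, Finset.mem_Ioo.2 ⟨one_pos, by omega⟩⟩, ?_⟩
        show rim (2 * r) (j.val + 1) = _
        have : j.val = 0 := by omega
        rw [this]
        exact rim_in one_pos (by omega)
  att := by
    have hn : 0 < 2 * r := by omega
    intro c
    fin_cases c
    · refine ⟨some ⟨1, Finset.mem_Ioo.2 ⟨one_pos, by omega⟩⟩, Or.inr (Or.inl ⟨1, by omega, rfl, ?_⟩)⟩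
      exact (rim_in one_pos (by omega)).symm
    · exact ⟨none, Or.inl (Or.inr (Or.inl ⟨0, Nat.zero_le _, rfl, rim_zero.symm⟩))⟩
    · exact ⟨none, Or.inl (Or.inr (Or.inl ⟨2 * r, le_refl _, rfl, (rim_n hn).symm⟩))⟩
  bt := by
    obtain ⟨s, hs⟩ := par_ex hr
    exact ⟨_, bb_bt hs⟩
  tw := bB_tw (by omega)

end Pool.Agent.N398
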