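import Pool.Agent.N398.Bic

set_option autoImplicit false

namespace Pool.Agent.N398

open Pool.Agent.Helper745.FSub

/-- closed triangle, coarse version -/
def CT (a b c x : Pt) : Prop := inT a b c x ∨ x = a ∨ x = b ∨ x = c

theorem CT.cyc {a b c x : Pt} (h : CT a b c x) : CT b c a x := by
  rcases h with h | h | h | h
  · exact Or.inl (N398.cyc h)
  · exact Or.inr (Or.inr (Or.inr h))
  · exact Or.inr (Or.inl h)
  · exact Or.inr (Or.inr (Or.inl h))

theorem self1 {a b c : Pt} : ¬ inT a b c a := by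
  rintro (⟨h1, h2, h3⟩ | ⟨h1, h2, h3⟩)
  · rw [o_1] at h1; exact lt_irrefl _ h1
  · rw [o_1] at h1; exact lt_irrefl _ h1

theorem CT.red {a b c x : Pt} (h : CT a b c x) (hx : x ≠ a) : inT a b c x ∨ x = b ∨ x = c := by
  rcases h with h | h | h | h
  · exact Or.inl h
  · exact absurd h hx
  · exact Or.inr (Or.inl h)
  · exact Or.inr (Or.inr h)

theorem exA {a b c x y z : Pt} (hx : CT a b c x) (hy : CT a b c y) (hz : CT a b c z) :
    ¬ inT x y z a := by
  intro h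
  by_cases e1 : x = a
  · rw [e1] at h
    exact self1 h
  by_cases e2 : y = a
  · rw [e2] at h
    exact self1 (cyc h)
  by_cases e3 : z = a
  · rw [e3] at h
    exact self1 (cyc (cyc h))
  exact extreme (hx.red e1) (hy.red e2) (hz.red e3) h

theorem exB {a b c x y z : Pt} (hx : CT a b c x) (hy : CT a b c y) (hz : CT a b c z) :
    ¬ inT x y z b := exA hx.cyc hy.cyc hz.cyc

theorem exC {a b c x y z : Pt} (hx : CT a b c x) (hy : CT a b c y) (hz : CT a b c z) :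
    ¬ inT x y z c := exB hx.cyc hy.cyc hz.cyc

/-- a bipyramid in a drawing, all inside the outer triangle -/
structure BH {X : Type} (A : X → X → Prop) (f : X → Pt) (n : ℕ) (p q : X) (v : ℕ → X) : Prop where
  drw : Drw A f
  sy : Sy A
  n2 : 2 ≤ n
  pv : ∀ j ≤ n, A p (v j)
  qv : ∀ j ≤ n, A q (v j)
  vv : ∀ j < n, A (v j) (v (j + 1))
  v0n : A (v 0) (v n)
  pq : p ≠ q
  pne : ∀ j, p ≠ v j
  qne : ∀ j, q ≠ v j
  vne : ∀ i ≤ n, ∀ j ≤ n, i ≠ j → v i ≠ v j
  qin : inT (f p) (f (v 0)) (f (v n)) (f q)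
  vin : ∀ j, 0 < j → j < n → inT (f p) (f (v 0)) (f (v n)) (f (v j))

section bh

variable {X : Type} {A : X → X → Prop} {f : X → Pt} {n : ℕ} {p q : X} {v : ℕ → X}
  (h : BH A f n p q v)

include h

theorem BH.cp : CT (f p) (f (v 0)) (f (v n)) (f p) := Or.inr (Or.inl rfl)

theorem BH.cq : CT (f p) (f (v 0)) (f (v n)) (f q) := Or.inl h.qin

theorem BH.cv {j : ℕ} (hj : j ≤ n) : CT (f p) (f (v 0)) (f (v n)) (f (v j)) := by
  rcases Nat.eq_zero_or_pos j with rfl | h0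
  · exact Or.inr (Or.inr (Or.inl rfl))
  · rcases hj.eq_or_lt with rfl | hn
    · exact Or.inr (Or.inr (Or.inr rfl))
    · exact Or.inl (h.vin j h0 hn)

/-- an outer corner cannot be adjacent to a vertex inside a triangle -/
theorem BH.fall {x y z w c : X} (hx : CT (f p) (f (v 0)) (f (v n)) (f x))
    (hy : CT (f p) (f (v 0)) (f (v n)) (f y)) (hz : CT (f p) (f (v 0)) (f (v n)) (f z))
    (hxy : A x y) (hyz : A y z) (hzx : A z x) (hw : inT (f x) (f y) (f z) (f w)) (hwc : A w c)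
    (hcx : c ≠ x) (hcy : c ≠ y) (hcz : c ≠ z) (hc : c = p ∨ c = v 0 ∨ c = v n) : False := by
  have h1 := sep h.drw hxy hyz hzx hwc hw hcx hcy hcz
  rcases hc with rfl | rfl | rfl
  · exact exA hx hy hz h1
  · exact exB hx hy hz h1
  · exact exC hx hy hz h1

/-- `q` is not inside a triangle with at most two rim corners -/
theorem BH.qno {i j : ℕ} (hij : j = i + 1) {z : X} (hj : j ≤ n)
    (hz : CT (f p) (f (v 0)) (f (v n)) (f z))
    (hyz : A (v j) z) (hzx : A z (v i)) (hz0 : v 0 ≠ z) (hzn : v n ≠ z) :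
    ¬ inT (f (v i)) (f (v j)) (f z) (f q) := by
  intro hq
  subst hij
  have n2 := h.n2
  by_cases h0 : i = 0
  · subst h0
    exact h.fall (h.cv (by omega)) (h.cv hj) hz (h.vv 0 (by omega)) hyz hzx hq (h.qv n (le_refl n))
      (h.vne _ (le_refl _) _ (by omega) (by omega)) (h.vne _ (le_refl _) _ (by omega) (by omega))
      hzn (Or.inr (Or.inr rfl))
  · exact h.fall (h.cv (by omega)) (h.cv hj) hz (h.vv i (by omega)) hyz hzx hq
      (h.qv 0 (Nat.zero_le _)) (h.vne _ (Nat.zero_le _) _ (by omega) (by omega))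
      (h.vne _ (Nat.zero_le _) _ (by omega) (by omega)) hz0 (Or.inr (Or.inl rfl))

theorem BH.oppR {j : ℕ} (hj : j < n) :
    ori (f (v j)) (f (v (j + 1))) (f p) * ori (f (v j)) (f (v (j + 1))) (f q) < 0 := by
  apply opp h.drw h.sy (h.vv j hj) (h.sy _ _ (h.pv j hj.le)) (h.sy _ _ (h.pv (j + 1) hj))
    (h.sy _ _ (h.qv j hj.le)) (h.sy _ _ (h.qv (j + 1) hj))
    (h.vne _ hj.le _ hj (by omega)) (h.pne _).symm (h.pne _).symm (h.qne _).symm (h.qne _).symm
    h.pq
  · exact exA (h.cv hj.le) (h.cv hj) h.cq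
  · exact h.qno rfl hj h.cp (h.sy _ _ (h.pv (j + 1) hj)) (h.pv j hj.le) (h.pne _).symm
      (h.pne _).symm

theorem BH.oppQ {j : ℕ} (h0 : 0 < j) (hj : j < n) :
    ori (f (v j)) (f q) (f (v (j - 1))) * ori (f (v j)) (f q) (f (v (j + 1))) < 0 := by
  obtain ⟨i, rfl⟩ : ∃ i, j = i + 1 := ⟨j - 1, by omega⟩
  have e : i + 1 - 1 = i := by omega
  rw [e]
  apply opp h.drw h.sy (h.sy _ _ (h.qv (i + 1) hj.le)) (h.sy _ _ (h.vv i (by omega)))
    (h.qv i (by omega)) (h.vv (i + 1) hj) (h.qv (i + 1 + 1) hj)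
    (h.qne _).symm (h.vne _ hj.le _ (by omega) (by omega)) (h.qne _)
    (h.vne _ hj.le _ hj (by omega)) (h.qne _) (h.vne _ (by omega) _ hj (by omega))
  · intro hw
    exact h.fall (h.cv hj.le) h.cq (h.cv hj) (h.sy _ _ (h.qv (i + 1) hj.le)) (h.qv (i + 1 + 1) hj)
      (h.sy _ _ (h.vv (i + 1) hj)) hw (h.sy _ _ (h.pv i (by omega))) (h.pne _) h.pq (h.pne _)
      (Or.inl rfl)
  · intro hw
    exact h.fall (h.cv hj.le) h.cq (h.cv (by omega)) (h.sy _ _ (h.qv (i + 1) hj.le))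
      (h.qv i (by omega)) (h.vv i (by omega)) hw (h.sy _ _ (h.pv (i + 1 + 1) hj)) (h.pne _) h.pq
      (h.pne _) (Or.inl rfl)

/-- every interior rim vertex has strictly lower and strictly higher neighbours -/
theorem BH.mono {j : ℕ} (h0 : 0 < j) (hj : j < n) :
    ((f p).2 < (f (v j)).2 ∨ (f (v (j - 1))).2 < (f (v j)).2 ∨ (f q).2 < (f (v j)).2 ∨
      (f (v (j + 1))).2 < (f (v j)).2) ∧
    ((f (v j)).2 < (f p).2 ∨ (f (v j)).2 < (f (v (j - 1))).2 ∨ (f (v j)).2 < (f q).2 ∨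
      (f (v j)).2 < (f (v (j + 1))).2) := by
  have h1 := h.oppR (j := j - 1) (by omega)
  have e : j - 1 + 1 = j := by omega
  rw [e] at h1
  have h2 := h.oppQ h0 hj
  have h3 := h.oppR hj
  set V := f (v j)
  set P := f p
  set Q := f q
  set M := f (v (j - 1))
  set N := f (v (j + 1))
  have a1 : ori M V P = ori V P M := by unfold ori; ring
  have a2 : ori M V Q = - ori V M Q := by unfold ori; ring
  have a3 : ori V Q M = - ori V M Q := by unfold ori; ring
  have a4 : ori V N Q = - ori V Q N := by unfold ori; ring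
  rw [a1, a2] at h1
  rw [a3] at h2
  rw [a4] at h3
  have key : (∀ i : Fin 4, 0 < ori V ((![P, M, Q, N] : Fin 4 → Pt) i)
      ((![P, M, Q, N] : Fin 4 → Pt) (i + 1))) ∨
      (∀ i : Fin 4, ori V ((![P, M, Q, N] : Fin 4 → Pt) i)
      ((![P, M, Q, N] : Fin 4 → Pt) (i + 1)) < 0) := by
    rcases lt_trichotomy 0 (ori V P M) with c | c | c
    · left
      have c2 : 0 < ori V M Q := by
        by_contra hc
        have := mul_nonneg c.le (by linarith : 0 ≤ - ori V M Q)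
        linarith
      have c3 : 0 < ori V Q N := by
        by_contra hc
        have := mul_nonneg_of_nonpos_of_nonpos (by linarith : - ori V M Q ≤ 0) (not_lt.1 hc)
        linarith
      have c4 : 0 < ori V N P := by
        by_contra hc
        have := mul_nonneg_of_nonpos_of_nonpos (not_lt.1 hc) (by linarith : - ori V Q N ≤ 0)
        linarith
      intro i
      fin_cases i
      · exact c
      · exact c2
      · exact c3
      · exact c4
    · rw [← c] at h1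
      linarith
    · right
      have c2 : ori V M Q < 0 := by
        by_contra hc
        have := mul_nonneg_of_nonpos_of_nonpos c.le (by linarith : - ori V M Q ≤ 0)
        linarith
      have c3 : ori V Q N < 0 := by
        by_contra hc
        have := mul_nonneg (by linarith : 0 ≤ - ori V M Q) (not_lt.1 hc)
        linarith
      have c4 : ori V N P < 0 := by
        by_contra hc
        have := mul_nonneg (not_lt.1 hc) (by linarith : 0 ≤ - ori V Q N)
        linarith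
      intro i
      fin_cases i
      · exact c
      · exact c2
      · exact c3
      · exact c4
  obtain ⟨⟨i, hi⟩, i', hi'⟩ := fan V _ key
  constructor
  · fin_cases i
    · exact Or.inl hi
    · exact Or.inr (Or.inl hi)
    · exact Or.inr (Or.inr (Or.inl hi))
    · exact Or.inr (Or.inr (Or.inr hi))
  · fin_cases i'
    · exact Or.inl hi'
    · exact Or.inr (Or.inl hi')
    · exact Or.inr (Or.inr (Or.inl hi'))
    · exact Or.inr (Or.inr (Or.inr hi'))

theorem BH.cF {j : ℕ} (hj : j < n) {x : X} (hx : inT (f p) (f (v 0)) (f (v n)) (f x))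
    (xp : x ≠ p) (xq : x ≠ q) (xv : ∀ j, x ≠ v j) (ap : A x p) (a0 : A x (v j))
    (a1 : A x (v (j + 1))) : inT (f p) (f (v j)) (f (v (j + 1))) (f x) := by
  have n2 := h.n2
  have K : K4 A p (v j) (v (j + 1)) x :=
    ⟨h.pv j hj.le, h.pv (j + 1) hj, h.sy _ _ ap, h.vv j hj, h.sy _ _ a0, h.sy _ _ a1,
      h.pne _, h.pne _, xp.symm, h.vne _ hj.le _ hj (by omega), (xv _).symm, (xv _).symm⟩
  have cx : CT (f p) (f (v 0)) (f (v n)) (f x) := Or.inl hx
  rcases k4 h.drw h.sy K with hk | hk | hk | hk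
  · exact hk
  · exact absurd hk (exA (h.cv hj.le) (h.cv hj) cx)
  · exfalso
    have hq := sep h.drw (h.pv (j + 1) hj) (h.sy _ _ a1) ap (h.sy _ _ (h.qv j hj.le)) hk
      h.pq.symm (h.qne _) xq.symm
    exact h.fall h.cp (h.cv hj) cx (h.pv (j + 1) hj) (h.sy _ _ a1) ap hq (h.qv 0 (Nat.zero_le _))
      (h.pne _).symm (h.vne _ (Nat.zero_le _) _ hj (by omega)) (xv _).symm (Or.inr (Or.inl rfl))
  · exfalso
    have hq := sep h.drw (h.pv j hj.le) (h.sy _ _ a0) ap (h.sy _ _ (h.qv (j + 1) hj)) hk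
      h.pq.symm (h.qne _) xq.symm
    exact h.fall h.cp (h.cv hj.le) cx (h.pv j hj.le) (h.sy _ _ a0) ap hq (h.qv n (le_refl _))
      (h.pne _).symm (h.vne _ (le_refl _) _ hj.le (by omega)) (xv _).symm (Or.inr (Or.inr rfl))

theorem BH.cH {j : ℕ} (hj : j < n) {x : X} (hx : inT (f p) (f (v 0)) (f (v n)) (f x))
    (xp : x ≠ p) (xq : x ≠ q) (xv : ∀ j, x ≠ v j) (aq : A x q) (a0 : A x (v j))
    (a1 : A x (v (j + 1))) : inT (f q) (f (v j)) (f (v (j + 1))) (f x) := by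
  have n2 := h.n2
  have K : K4 A q (v j) (v (j + 1)) x :=
    ⟨h.qv j hj.le, h.qv (j + 1) hj, h.sy _ _ aq, h.vv j hj, h.sy _ _ a0, h.sy _ _ a1,
      h.qne _, h.qne _, xq.symm, h.vne _ hj.le _ hj (by omega), (xv _).symm, (xv _).symm⟩
  have cx : CT (f p) (f (v 0)) (f (v n)) (f x) := Or.inl hx
  rcases k4 h.drw h.sy K with hk | hk | hk | hk
  · exact hk
  · exact absurd hk (h.qno rfl hj cx (h.sy _ _ a1) a0 (xv _).symm (xv _).symm)
  · exfalso
    exact h.fall h.cq (h.cv hj) cx (h.qv (j + 1) hj) (h.sy _ _ a1) aq hk (h.sy _ _ (h.pv j hj.le))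
      h.pq (h.pne _) xp.symm (Or.inl rfl)
  · exfalso
    exact h.fall h.cq (h.cv hj.le) cx (h.qv j hj.le) (h.sy _ _ a0) aq hk
      (h.sy _ _ (h.pv (j + 1) hj)) h.pq (h.pne _) xp.symm (Or.inl rfl)

theorem BH.cN {x : X} (hx : inT (f p) (f (v 0)) (f (v n)) (f x))
    (xp : x ≠ p) (xq : x ≠ q) (xv : ∀ j, x ≠ v j) (aq : A x q) (an : A x (v n))
    (a0 : A x (v 0)) : inT (f q) (f (v n)) (f (v 0)) (f x) := by
  have n2 := h.n2
  have K : K4 A q (v n) (v 0) x :=
    ⟨h.qv n (le_refl _), h.qv 0 (Nat.zero_le _), h.sy _ _ aq, h.sy _ _ h.v0n, h.sy _ _ an,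
      h.sy _ _ a0, h.qne _, h.qne _, xq.symm, h.vne _ (le_refl _) _ (Nat.zero_le _) (by omega),
      (xv _).symm, (xv _).symm⟩
  have cx : CT (f p) (f (v 0)) (f (v n)) (f x) := Or.inl hx
  rcases k4 h.drw h.sy K with hk | hk | hk | hk
  · exact hk
  · exfalso
    have h1 := sep h.drw (h.sy _ _ h.v0n) (h.sy _ _ a0) an (h.qv 1 (by omega)) hk
      (h.vne _ (by omega) _ (le_refl _) (by omega)) (h.vne _ (by omega) _ (Nat.zero_le _) (by omega))
      (xv _).symm
    exact h.fall (h.cv (le_refl _)) (h.cv (Nat.zero_le _)) cx (h.sy _ _ h.v0n) (h.sy _ _ a0) an h1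
      (h.sy _ _ (h.pv 1 (by omega))) (h.pne _) (h.pne _) xp.symm (Or.inl rfl)
  · exact absurd hk (exC h.cq (h.cv (Nat.zero_le _)) cx)
  · exact absurd hk (exB h.cq (h.cv (le_refl _)) cx)

end bh

section signs

theorem signs_pos {n : ℕ} {yp yq : ℝ} {y : ℕ → ℝ}
    (hM : ∀ j, 0 < j → j < n → yp < y j ∨ y (j - 1) < y j ∨ yq < y j ∨ y (j + 1) < y j)
    (hF : ∀ j < n, ¬ (0 ≤ yp ∧ 0 ≤ y j ∧ 0 ≤ y (j + 1))) (hp : 0 < yp) (hq : 0 < yq) :
    ∃ i, ∀ j < n, j ≠ i → j + 1 ≠ i → 0 < y j * y (j + 1) := by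
  have claim : ∀ i k, i < k → k ≤ n → 0 ≤ y i → 0 ≤ y k → False := by
    intro i k hik hk hi0 hk0
    have h1 : y (i + 1) < 0 := by
      by_contra hc
      exact hF i (by omega) ⟨hp.le, hi0, not_lt.1 hc⟩
    have hik' : i + 1 < k := by
      rcases (Nat.succ_le_of_lt hik).eq_or_lt with h' | h'
      · have h'' : i + 1 = k := h'
        rw [h''] at h1
        linarith
      · exact h'
    obtain ⟨j, hj, hmin⟩ := Finset.exists_min_image (Finset.Ioo i k) y
      ⟨i + 1, Finset.mem_Ioo.2 ⟨by omega, hik'⟩⟩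
    rw [Finset.mem_Ioo] at hj
    have hj0 : y j < 0 := lt_of_le_of_lt (hmin (i + 1) (Finset.mem_Ioo.2 ⟨by omega, hik'⟩)) h1
    rcases hM j (by omega) (by omega) with g | g | g | g
    · linarith
    · by_cases e : j - 1 = i
      · rw [e] at g; linarith
      · have := hmin (j - 1) (Finset.mem_Ioo.2 ⟨by omega, by omega⟩)
        linarith
    · linarith
    · by_cases e : j + 1 = k
      · rw [e] at g; linarith
      · have := hmin (j + 1) (Finset.mem_Ioo.2 ⟨by omega, by omega⟩)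
        linarith
  by_cases hex : ∃ i ≤ n, 0 ≤ y i
  · obtain ⟨i, hi, hi0⟩ := hex
    have neg : ∀ k ≤ n, k ≠ i → y k < 0 := by
      intro k hk hki
      by_contra hc
      rcases Nat.lt_or_gt_of_ne hki with h' | h'
      · exact claim k i h' hi (not_lt.1 hc) hi0
      · exact claim i k h' hk hi0 (not_lt.1 hc)
    refine ⟨i, fun j hj h1 h2 => ?_⟩
    exact mul_pos_of_neg_of_neg (neg j hj.le h1) (neg (j + 1) hj h2)
  · push Not at hex
    exact ⟨0, fun j hj _ _ => mul_pos_of_neg_of_neg (hex j hj.le) (hex (j + 1) hj)⟩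

theorem alt {n : ℕ} {y : ℕ → ℝ} (h : ∀ j < n, y j * y (j + 1) < 0) (h0 : 0 < n) :
    ∀ k, 2 * k ≤ n → 0 < y 0 * y (2 * k) := by
  intro k
  induction k with
  | zero =>
    intro _
    have := h 0 h0
    have hne : y 0 ≠ 0 := by
      intro e
      rw [e, zero_mul] at this
      exact lt_irrefl _ this
    exact mul_self_pos.2 hne
  | succ k ih =>
    intro hk
    have h1 := ih (by omega)
    have h2 := h (2 * k) (by omega)
    have h3 := h (2 * k + 1) (by omega)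
    have e : 2 * (k + 1) = 2 * k + 1 + 1 := by ring
    rw [e]
    have h4 : 0 < (y (2 * k) * y (2 * k + 1)) * (y (2 * k + 1) * y (2 * k + 1 + 1)) :=
      mul_pos_of_neg_of_neg h2 h3
    have h5 : 0 < (y 0 * y (2 * k)) * ((y (2 * k) * y (2 * k + 1)) *
        (y (2 * k + 1) * y (2 * k + 1 + 1))) := mul_pos h1 h4
    have e2 : (y 0 * y (2 * k)) * ((y (2 * k) * y (2 * k + 1)) *
        (y (2 * k + 1) * y (2 * k + 1 + 1))) = (y 0 * y (2 * k + 1 + 1)) *
        ((y (2 * k)) ^ 2 * (y (2 * k + 1)) ^ 2) := by ring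
    rw [e2] at h5
    have h6 : 0 ≤ (y (2 * k)) ^ 2 * (y (2 * k + 1)) ^ 2 := by positivity
    by_contra hc
    have := mul_nonpos_of_nonpos_of_nonneg (not_lt.1 hc) h6
    linarith

theorem mulneg {a b : ℝ} (h1 : ¬ (0 ≤ a ∧ 0 ≤ b)) (h2 : ¬ (a ≤ 0 ∧ b ≤ 0)) : a * b < 0 := by
  rcases lt_trichotomy a 0 with h | h | h
  · have : 0 < b := by
      by_contra hc
      exact h2 ⟨h.le, not_lt.1 hc⟩
    exact mul_neg_of_neg_of_pos h this
  · exfalso
    rcases le_total 0 b with hb | hb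
    · exact h1 ⟨h.ge, hb⟩
    · exact h2 ⟨h.le, hb⟩
  · have : b < 0 := by
      by_contra hc
      exact h1 ⟨h.le, not_lt.1 hc⟩
    exact mul_neg_of_pos_of_neg h this

theorem signs {r : ℕ} (hr : 0 < r) {yp yq : ℝ} {y : ℕ → ℝ}
    (hM : ∀ j, 0 < j → j < 2 * r →
      (yp < y j ∨ y (j - 1) < y j ∨ yq < y j ∨ y (j + 1) < y j) ∧
      (y j < yp ∨ y j < y (j - 1) ∨ y j < yq ∨ y j < y (j + 1)))
    (hF : ∀ j < 2 * r, ¬ (0 ≤ yp ∧ 0 ≤ y j ∧ 0 ≤ y (j + 1)) ∧
      ¬ (yp ≤ 0 ∧ y j ≤ 0 ∧ y (j + 1) ≤ 0))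
    (hH : ∀ j < 2 * r, ¬ (0 ≤ yq ∧ 0 ≤ y j ∧ 0 ≤ y (j + 1)) ∧
      ¬ (yq ≤ 0 ∧ y j ≤ 0 ∧ y (j + 1) ≤ 0))
    (hN : ¬ (0 ≤ yq ∧ 0 ≤ y (2 * r) ∧ 0 ≤ y 0) ∧ ¬ (yq ≤ 0 ∧ y (2 * r) ≤ 0 ∧ y 0 ≤ 0))
    (hq1 : 0 ≤ yp → 0 ≤ y 0 → 0 ≤ y (2 * r) → 0 < yq)
    (hq2 : yp ≤ 0 → y 0 ≤ 0 → y (2 * r) ≤ 0 → yq < 0) :
    ∃ i, ∀ j < 2 * r, j ≠ i → j + 1 ≠ i → 0 < y j * y (j + 1) := by
  -- alternation gives a contradiction
  have altF : (∀ j < 2 * r, y j * y (j + 1) < 0) → (yp < 0 ∧ 0 < yq) ∨ (0 < yp ∧ yq < 0) ∨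
      yp = 0 ∨ yq = 0 → False := by
    intro ha hcase
    have hs := alt ha (by omega) r (le_refl _)
    rcases mul_pos_iff.1 hs with ⟨g1, g2⟩ | ⟨g1, g2⟩
    · have hyq : yq < 0 := by
        by_contra hc
        exact hN.1 ⟨not_lt.1 hc, g2.le, g1.le⟩
      have hyp : yp < 0 := by
        by_contra hc
        have := hq1 (not_lt.1 hc) g1.le g2.le
        linarith
      rcases hcase with h | h | h | h
      · linarith
      · linarith
      · linarith
      · linarith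
    · have hyq : 0 < yq := by
        by_contra hc
        exact hN.2 ⟨not_lt.1 hc, g2.le, g1.le⟩
      have hyp : 0 < yp := by
        by_contra hc
        have := hq2 (not_lt.1 hc) g1.le g2.le
        linarith
      rcases hcase with h | h | h | h
      · linarith
      · linarith
      · linarith
      · linarith
  rcases lt_trichotomy yp 0 with hp | hp | hp <;> rcases lt_trichotomy yq 0 with hq | hq | hq
  · -- both negative
    obtain ⟨i, hi⟩ := signs_pos (n := 2 * r) (yp := -yp) (yq := -yq) (y := fun j => - y j)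
      (fun j h0 hj => by
        rcases (hM j h0 hj).2 with g | g | g | g
        · left; linarith
        · right; left; linarith
        · right; right; left; linarith
        · right; right; right; linarith)
      (fun j hj => by
        rintro ⟨g1, g2, g3⟩
        exact (hF j hj).2 ⟨by linarith, by linarith, by linarith⟩)
      (by linarith) (by linarith)
    refine ⟨i, fun j hj h1 h2 => ?_⟩
    have := hi j hj h1 h2
    linarith
  · exfalso
    refine altF (fun j hj => mulneg ?_ ?_) (Or.inr (Or.inr (Or.inr hq)))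
    · rintro ⟨g1, g2⟩; exact (hH j hj).1 ⟨hq.ge, g1, g2⟩
    · rintro ⟨g1, g2⟩; exact (hH j hj).2 ⟨hq.le, g1, g2⟩
  · exfalso
    refine altF (fun j hj => mulneg ?_ ?_) (Or.inl ⟨hp, hq⟩)
    · rintro ⟨g1, g2⟩; exact (hH j hj).1 ⟨hq.le, g1, g2⟩
    · rintro ⟨g1, g2⟩; exact (hF j hj).2 ⟨hp.le, g1, g2⟩
  · exfalso
    refine altF (fun j hj => mulneg ?_ ?_) (Or.inr (Or.inr (Or.inl hp)))
    · rintro ⟨g1, g2⟩; exact (hF j hj).1 ⟨hp.ge, g1, g2⟩
    · rintro ⟨g1, g2⟩; exact (hF j hj).2 ⟨hp.le, g1, g2⟩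
  · exfalso
    refine altF (fun j hj => mulneg ?_ ?_) (Or.inr (Or.inr (Or.inl hp)))
    · rintro ⟨g1, g2⟩; exact (hF j hj).1 ⟨hp.ge, g1, g2⟩
    · rintro ⟨g1, g2⟩; exact (hF j hj).2 ⟨hp.le, g1, g2⟩
  · exfalso
    refine altF (fun j hj => mulneg ?_ ?_) (Or.inr (Or.inr (Or.inl hp)))
    · rintro ⟨g1, g2⟩; exact (hF j hj).1 ⟨hp.ge, g1, g2⟩
    · rintro ⟨g1, g2⟩; exact (hF j hj).2 ⟨hp.le, g1, g2⟩
  · exfalso
    refine altF (fun j hj => mulneg ?_ ?_) (Or.inr (Or.inl ⟨hp, hq⟩))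
    · rintro ⟨g1, g2⟩; exact (hF j hj).1 ⟨hp.le, g1, g2⟩
    · rintro ⟨g1, g2⟩; exact (hH j hj).2 ⟨hq.le, g1, g2⟩
  · exfalso
    refine altF (fun j hj => mulneg ?_ ?_) (Or.inr (Or.inr (Or.inr hq)))
    · rintro ⟨g1, g2⟩; exact (hH j hj).1 ⟨hq.ge, g1, g2⟩
    · rintro ⟨g1, g2⟩; exact (hH j hj).2 ⟨hq.le, g1, g2⟩
  · -- both positive
    exact signs_pos (fun j h0 hj => (hM j h0 hj).1) (fun j hj => (hF j hj).1) hp hq

end signs

end Pool.Agent.N398
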