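import Pool.Agent.N398.Bid

set_option autoImplicit false

namespace Pool.Agent.N398

open Pool.Agent.Helper745.FSub

section

variable {r : ℕ} {V : Type} {A : W V → W V → Prop}
  {f : W (Option (In (2 * r)) ⊕ Option (Bool × Fin (2 * r)) × V) → Pt}

/-- the bipyramid inside a drawing of the glued piece -/
theorem bh (hr : 0 < r) (hA : POK A) (hD : Drw (gl (bB (2 * r)) A) f) (hi : Ins f) :
    BH (gl (bB (2 * r)) A) f (2 * r) (bv _ V (pp (2 * r))) (bv _ V (qq (2 * r)))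
      (fun j => bv _ V (rim (2 * r) j)) := by
  have hn : 0 < 2 * r := by omega
  have e0 : (bv (Option (Bool × Fin (2 * r))) V (rim (2 * r) 0)) = Sum.inl 1 := by
    rw [rim_zero]; rfl
  have en : (bv (Option (Bool × Fin (2 * r))) V (rim (2 * r) (2 * r))) = Sum.inl 2 := by
    rw [rim_n hn]; rfl
  refine ⟨hD, gl_sy (bB_ok hr).sy hA.sy, by omega, ?_, ?_, ?_, ?_, ?_, ?_, ?_, ?_, ?_, ?_⟩
  · intro j hj
    exact gl_b (B := bB (2 * r)) (A := A) (Or.inl (Or.inl ⟨j, hj, rfl, rfl⟩))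
  · intro j hj
    exact gl_b (B := bB (2 * r)) (A := A) (Or.inl (Or.inr (Or.inl ⟨j, hj, rfl, rfl⟩)))
  · intro j hj
    exact gl_b (B := bB (2 * r)) (A := A) (Or.inl (Or.inr (Or.inr (Or.inl ⟨j, hj, rfl, rfl⟩))))
  · exact gl_b (B := bB (2 * r)) (A := A) (Or.inl (Or.inr (Or.inr (Or.inr ⟨rfl, rfl⟩))))
  · exact fun e => pp_ne_qq (bv_inj e)
  · exact fun j e => pp_ne_rim j (bv_inj e)
  · exact fun j e => qq_ne_rim j (bv_inj e)
  · exact fun i hi j hj hij e => hij (rim_inj hn hi hj (bv_inj e))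
  · show inT _ (f (bv _ V (rim (2 * r) 0))) (f (bv _ V (rim (2 * r) (2 * r)))) _
    rw [e0, en]
    exact hi (Sum.inl none)
  · intro j h0 hj
    show inT _ (f (bv _ V (rim (2 * r) 0))) (f (bv _ V (rim (2 * r) (2 * r))))
      (f (bv _ V (rim (2 * r) j)))
    rw [e0, en, rim_in h0 hj]
    exact hi (Sum.inl (some ⟨j, _⟩))

/-- the children lie in their faces -/
theorem bIns (hr : 0 < r) (hA : POK A) (hc : Ctr A) (hD : Drw (gl (bB (2 * r)) A) f)
    (hi : Ins f) (m : Option (Bool × Fin (2 * r))) : Ins (fun x => f (cv (bB (2 * r)) m x)) := by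
  have H := bh hr hA hD hi
  have hn : 0 < 2 * r := by omega
  obtain ⟨x, hx⟩ := hc
  have e0 : (bv (Option (Bool × Fin (2 * r))) V (rim (2 * r) 0)) = Sum.inl 1 := by
    rw [rim_zero]; rfl
  have en : (bv (Option (Bool × Fin (2 * r))) V (rim (2 * r) (2 * r))) = Sum.inl 2 := by
    rw [rim_n hn]; rfl
  -- the center
  have cin : inT (f (bv _ V ((bB (2 * r)).face m 0))) (f (bv _ V ((bB (2 * r)).face m 1)))
      (f (bv _ V ((bB (2 * r)).face m 2))) (f (Sum.inr (Sum.inr (m, x)))) := by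
    have hxin : inT (f (bv _ V (pp (2 * r)))) (f (bv _ V (rim (2 * r) 0)))
        (f (bv _ V (rim (2 * r) (2 * r)))) (f (Sum.inr (Sum.inr (m, x)))) := by
      rw [e0, en]
      exact hi (Sum.inr (m, x))
    have xb : ∀ i : W (Option (In (2 * r))), (Sum.inr (Sum.inr (m, x)) :
        W (Option (In (2 * r)) ⊕ Option (Bool × Fin (2 * r)) × V)) ≠ bv _ V i :=
      fun i => (bv_ne i m x).symm
    have ad : ∀ c, gl (bB (2 * r)) A (Sum.inr (Sum.inr (m, x)))
        (bv _ V ((bB (2 * r)).face m c)) := fun c => gl_c (B := bB (2 * r)) (m := m) (hx c)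
    rcases m with _ | ⟨b, j⟩
    · exact H.cN hxin (xb _) (xb _) (fun j => xb _) (ad 0) (ad 1) (ad 2)
    · rcases b with _ | _
      · exact H.cF j.isLt hxin (xb _) (xb _) (fun j => xb _) (ad 0) (ad 1) (ad 2)
      · exact H.cH j.isLt hxin (xb _) (xb _) (fun j => xb _) (ad 0) (ad 1) (ad 2)
  have fa := (bB_ok hr).fa
  intro v
  exact k4in_aux3 hD (gl_b (A := A) (fa m 0 1 (by decide))) (gl_b (A := A) (fa m 1 2 (by decide)))
    (gl_b (A := A) (fa m 2 0 (by decide))) (blob_cn (bB (2 * r)) m hA.cn)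
    (blob_nb m _) (blob_nb m _) (blob_nb m _) ⟨x, rfl⟩ cin _ ⟨v, rfl⟩

theorem ub_bip (hr : 0 < r) [Fintype V] (hA : POK A) (hc : Ctr A) {U m K : ℕ}
    (h1 : UB A (U + m)) (h2 : UBp A U) (hK1 : 2 * r + 2 * (2 * r) * (U + m) ≤ K)
    (hK2 : 2 * r + (2 * (2 * r) + 1) * U + 5 * m ≤ K) : UB (gl (bB (2 * r)) A) K := by
  intro f hD hi
  have hn : 0 < 2 * r := by omega
  have H := bh hr hA hD hi
  have hI := bIns hr hA hc hD hi
  have hZ : ∀ m', zc (fun v => f (Sum.inr (Sum.inr (m', v)))) ≤ U + m :=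
    fun m' => h1 _ (ch_drw (bB_ok hr) hD m') (hI m')
  have hB : zc (fun k => f (Sum.inr (Sum.inl k))) ≤ 2 * r := by
    refine (zc_le _).trans ?_
    simp only [Fintype.card_option, Fintype.card_coe, Nat.card_Ioo]
    omega
  have hcard : Fintype.card (Option (Bool × Fin (2 * r))) = 2 * (2 * r) + 1 := by
    simp
  rw [zc_gl]
  -- heights
  set yp := (f (bv _ V (pp (2 * r)))).2 with hyp
  set yq := (f (bv _ V (qq (2 * r)))).2 with hyq
  set y : ℕ → ℝ := fun j => (f (bv _ V (rim (2 * r) j))).2 with hy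
  by_cases hmet : ∃ m', (0 ≤ (f (cv (bB (2 * r)) m' (Sum.inl 0))).2 ∧
      0 ≤ (f (cv (bB (2 * r)) m' (Sum.inl 1))).2 ∧ 0 ≤ (f (cv (bB (2 * r)) m' (Sum.inl 2))).2) ∨
      ((f (cv (bB (2 * r)) m' (Sum.inl 0))).2 ≤ 0 ∧ (f (cv (bB (2 * r)) m' (Sum.inl 1))).2 ≤ 0 ∧
        (f (cv (bB (2 * r)) m' (Sum.inl 2))).2 ≤ 0)
  · obtain ⟨m0, hm0⟩ := hmet
    have hz0 : zc (fun v => f (Sum.inr (Sum.inr (m0, v)))) = 0 := ins_zero (hI m0) hm0
    have hsum : ∑ m', zc (fun v => f (Sum.inr (Sum.inr (m', v)))) ≤ 2 * (2 * r) * (U + m) := by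
      rw [← Finset.add_sum_erase _ _ (Finset.mem_univ m0), hz0, zero_add]
      refine (Finset.sum_le_card_nsmul _ _ _ (fun m' _ => hZ m')).trans ?_
      rw [Finset.card_erase_of_mem (Finset.mem_univ _), Finset.card_univ, hcard]
      simp
    omega
  · have hF : ∀ j < 2 * r, ¬ (0 ≤ yp ∧ 0 ≤ y j ∧ 0 ≤ y (j + 1)) ∧
        ¬ (yp ≤ 0 ∧ y j ≤ 0 ∧ y (j + 1) ≤ 0) := fun j hj =>
      ⟨fun g => hmet ⟨some (false, ⟨j, hj⟩), Or.inl g⟩,
        fun g => hmet ⟨some (false, ⟨j, hj⟩), Or.inr g⟩⟩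
    have hH : ∀ j < 2 * r, ¬ (0 ≤ yq ∧ 0 ≤ y j ∧ 0 ≤ y (j + 1)) ∧
        ¬ (yq ≤ 0 ∧ y j ≤ 0 ∧ y (j + 1) ≤ 0) := fun j hj =>
      ⟨fun g => hmet ⟨some (true, ⟨j, hj⟩), Or.inl g⟩,
        fun g => hmet ⟨some (true, ⟨j, hj⟩), Or.inr g⟩⟩
    have hN : ¬ (0 ≤ yq ∧ 0 ≤ y (2 * r) ∧ 0 ≤ y 0) ∧
        ¬ (yq ≤ 0 ∧ y (2 * r) ≤ 0 ∧ y 0 ≤ 0) :=
      ⟨fun g => hmet ⟨none, Or.inl g⟩, fun g => hmet ⟨none, Or.inr g⟩⟩
    obtain ⟨i, hi'⟩ := signs hr (fun j h0 hj => H.mono h0 hj) hF hH hN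
      (fun g1 g2 g3 => high H.qin g1 g2 g3) (fun g1 g2 g3 => low H.qin g1 g2 g3)
    -- the exceptional faces
    let a : Fin (2 * r) := ⟨min i (2 * r - 1), by omega⟩
    let b : Fin (2 * r) := ⟨min (i - 1) (2 * r - 1), by omega⟩
    classical
    let S : Finset (Option (Bool × Fin (2 * r))) :=
      {none, some (false, a), some (true, a), some (false, b), some (true, b)}
    have hS : S.card ≤ 5 := Finset.card_le_five
    have hZ' : ∀ m', zc (fun v => f (Sum.inr (Sum.inr (m', v)))) ≤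
        U + if m' ∈ S then m else 0 := by
      intro m'
      by_cases hm : m' ∈ S
      · rw [if_pos hm]
        exact hZ m'
      · rw [if_neg hm, add_zero]
        rcases m' with _ | ⟨c, j⟩
        · exact absurd (by simp [S]) hm
        · have hji : j.val ≠ i := by
            intro e
            have : j = a := Fin.ext (by simp only [a]; have := j.isLt; omega)
            apply hm
            rcases c with _ | _ <;> simp [S, this]
          have hji' : j.val + 1 ≠ i := by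
            intro e
            have : j = b := Fin.ext (by simp only [b]; have := j.isLt; omega)
            apply hm
            rcases c with _ | _ <;> simp [S, this]
          have hpos := hi' j.val j.isLt hji hji'
          exact h2 _ (ch_drw (bB_ok hr) hD (some (c, j))) (hI (some (c, j))) hpos
    have hsum : ∑ m', zc (fun v => f (Sum.inr (Sum.inr (m', v)))) ≤
        (2 * (2 * r) + 1) * U + 5 * m := by
      refine (Finset.sum_le_sum (fun m' _ => hZ' m')).trans ?_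
      rw [Finset.sum_add_distrib, Finset.sum_const, Finset.card_univ, hcard, smul_eq_mul,
        ← Finset.sum_filter, Finset.sum_const, smul_eq_mul]
      have : (Finset.univ.filter (fun m' => m' ∈ S)).card ≤ 5 := by
        refine (Finset.card_le_card ?_).trans hS
        intro z hz
        exact (Finset.mem_filter.1 hz).2
      have := Nat.mul_le_mul_right m this
      omega
    omega

end

end Pool.Agent.N398
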