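import Pool.Agent.Helper745.FS.A1

set_option autoImplicit false

namespace Pool.Agent.N398

open Pool.Agent.Helper745.FSub

/-- vertices of a piece: three corners and the inner vertices -/
abbrev W (V : Type) : Type := Fin 3 ⊕ V

/-- a base graph with marked faces -/
structure Bas (I F : Type) where
  adj : W I → W I → Prop
  face : F → Fin 3 → W I

/-- base vertices of the glued piece -/
def bv (F V : Type) {I : Type} : W I → W (I ⊕ F × V)
  | Sum.inl c => Sum.inl c
  | Sum.inr k => Sum.inr (Sum.inl k)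

/-- vertices of the child in the marked face `m` -/
def cv {I F V : Type} (B : Bas I F) (m : F) : W V → W (I ⊕ F × V)
  | Sum.inl c => bv F V (B.face m c)
  | Sum.inr v => Sum.inr (Sum.inr (m, v))

/-- adjacency of the glued piece -/
def gl {I F V : Type} (B : Bas I F) (A : W V → W V → Prop) :
    W (I ⊕ F × V) → W (I ⊕ F × V) → Prop :=
  fun u v => (∃ i j, B.adj i j ∧ u = bv F V i ∧ v = bv F V j) ∨
    (∃ m a b, A a b ∧ u = cv B m a ∧ v = cv B m b)

theorem bv_inj {I F V : Type} :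
    Function.Injective (bv F V : W I → W (I ⊕ F × V)) := by
  intro a b h
  rcases a with a | a <;> rcases b with b | b
  · simpa [bv] using h
  · simp [bv] at h
  · simp [bv] at h
  · simpa [bv] using h

theorem bv_ne {I F V : Type} (i : W I) (m : F) (v : V) :
    bv F V i ≠ Sum.inr (Sum.inr (m, v)) := by
  intro h
  rcases i with a | a
  · simp [bv] at h
  · simp [bv] at h

theorem cv_inj {I F V : Type} (B : Bas I F) (m : F) (hf : Function.Injective (B.face m)) :
    Function.Injective (cv B m : W V → W (I ⊕ F × V)) := by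
  intro a b h
  rcases a with a | a <;> rcases b with b | b
  · simp only [cv] at h
    rw [hf (bv_inj h)]
  · simp only [cv] at h
    exact absurd h (bv_ne _ _ _)
  · simp only [cv] at h
    exact absurd h.symm (bv_ne _ _ _)
  · simp only [cv] at h
    have := Sum.inr.inj (Sum.inr.inj h)
    rw [(Prod.mk.inj this).2]

theorem gl_b {I F V : Type} {B : Bas I F} {A : W V → W V → Prop} {i j : W I} (h : B.adj i j) :
    gl B A (bv F V i) (bv F V j) := Or.inl ⟨i, j, h, rfl, rfl⟩

theorem gl_c {I F V : Type} {B : Bas I F} {A : W V → W V → Prop} {m : F} {a b : W V}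
    (h : A a b) : gl B A (cv B m a) (cv B m b) := Or.inr ⟨m, a, b, h, rfl, rfl⟩

theorem gl_sy {I F V : Type} {B : Bas I F} {A : W V → W V → Prop} (hB : Sy B.adj) (hA : Sy A) :
    Sy (gl B A) := by
  rintro x y (⟨i, j, h, rfl, rfl⟩ | ⟨m, a, b, h, rfl, rfl⟩)
  · exact gl_b (hB _ _ h)
  · exact gl_c (hA _ _ h)

theorem gl_irr {I F V : Type} {B : Bas I F} {A : W V → W V → Prop} (hB : ∀ x, ¬ B.adj x x)
    (hf : ∀ m, Function.Injective (B.face m)) (hA : ∀ x, ¬ A x x) : ∀ x, ¬ gl B A x x := by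
  rintro x (⟨i, j, h, h1, h2⟩ | ⟨m, a, b, h, h1, h2⟩)
  · have := bv_inj (h1.symm.trans h2)
    subst this
    exact hB _ h
  · have := cv_inj B m (hf m) (h1.symm.trans h2)
    subst this
    exact hA _ h

theorem drw_comp {X Y : Type} {A : X → X → Prop} {A' : Y → Y → Prop} {f : X → Pt} {e : Y → X}
    (h : Drw A f) (he : Function.Injective e) (ha : ∀ u v, A' u v → A (e u) (e v)) :
    Drw A' (fun y => f (e y)) where
  inj := fun _ _ hab => he (h.inj hab)
  d1 := fun u v _ huv hwu hwv => h.d1 _ _ _ (ha u v huv) (fun h' => hwu (he h'))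
    (fun h' => hwv (he h'))
  d2 := fun u v x y huv hxy h1 h2 h3 h4 => h.d2 _ _ _ _ (ha u v huv) (ha x y hxy)
    (fun h' => h1 (he h')) (fun h' => h2 (he h')) (fun h' => h3 (he h')) (fun h' => h4 (he h'))

theorem cn_map {X Y : Type} {A : X → X → Prop} {A' : Y → Y → Prop} {e : Y → X} {C : Set Y}
    (ha : ∀ u v, A' u v → A (e u) (e v)) (h : Cn A' C) : Cn A (e '' C) := by
  intro S hS hne hcl
  have h1 := h (C ∩ e ⁻¹' S) Set.inter_subset_left ?_ ?_
  · apply Set.Subset.antisymm hS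
    rintro _ ⟨y, hy, rfl⟩
    have : y ∈ C ∩ e ⁻¹' S := by rw [h1]; exact hy
    exact this.2
  · obtain ⟨x, hx⟩ := hne
    obtain ⟨y, hy, rfl⟩ := hS hx
    exact ⟨y, hy, hx⟩
  · rintro x ⟨hx, hxS⟩ y hy hxy
    exact ⟨hy, hcl _ hxS _ ⟨y, hy, rfl⟩ (ha _ _ hxy)⟩

/-- base certificate and child certificate for small treewidth: every inner vertex `v` gets a
4-tuple `P v` of earlier vertices -/
def TW {V : Type} (A : W V → W V → Prop) : Prop :=
  ∃ (P : V → Fin 4 → W V) (par : V → Option V) (rk : V → ℕ),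
    (∀ v u, par v = some u → rk u < rk v ∧ ∀ i, P v i = Sum.inr u ∨ ∃ j, P v i = P u j) ∧
    (∀ v, par v = none → ∀ i, ∃ c, P v i = Sum.inl c) ∧
    (∀ x y, A x y → (∃ v i, y = Sum.inr v ∧ x = P v i) ∨ (∃ v i, x = Sum.inr v ∧ y = P v i) ∨
      (∃ c c' : Fin 3, x = Sum.inl c ∧ y = Sum.inl c'))

/-- the standard triangle -/
noncomputable def T0 : Fin 3 → Pt := ![(0, 0), (1, 0), (0, 1)]

/-- drawable inside the standard triangle -/
def Dr {V : Type} (A : W V → W V → Prop) : Prop :=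
  ∃ f : W V → Pt, Drw A f ∧ (∀ i, f (Sum.inl i) = T0 i) ∧ ∀ v, inP T0 (f (Sum.inr v))

/-- good pieces -/
structure POK {V : Type} (A : W V → W V → Prop) : Prop where
  sy : Sy A
  irr : ∀ x, ¬ A x x
  cc : ∀ i j : Fin 3, i ≠ j → A (Sum.inl i) (Sum.inl j)
  ne : Nonempty V
  cn : Cn A (Set.range Sum.inr)
  att : ∀ i : Fin 3, ∃ v : V, A (Sum.inr v) (Sum.inl i)
  dr : Dr A
  tw : TW A

/-- facts on the drawing of a base in the standard triangle -/
structure BT {I F : Type} (B : Bas I F) (b : W I → Pt) : Prop where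
  drw : Drw B.adj b
  cor : ∀ i, b (Sum.inl i) = T0 i
  inn : ∀ k, inP T0 (b (Sum.inr k))
  ndg : ∀ m, ori (b (B.face m 0)) (b (B.face m 1)) (b (B.face m 2)) ≠ 0
  fe : ∀ m i j, B.adj i j → ∀ p ∈ segment ℝ (b i) (b j),
    ¬ inT (b (B.face m 0)) (b (B.face m 1)) (b (B.face m 2)) p
  ff : ∀ m m', m ≠ m' → ∀ p, inT (b (B.face m 0)) (b (B.face m 1)) (b (B.face m 2)) p →
    ¬ inT (b (B.face m' 0)) (b (B.face m' 1)) (b (B.face m' 2)) p
  fin : ∀ m p, inT (b (B.face m 0)) (b (B.face m 1)) (b (B.face m 2)) p → inP T0 p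

/-- certificate of a base: every marked face lies in the bag of an inner base vertex -/
def BTW {I F : Type} (B : Bas I F) : Prop :=
  ∃ (P : I → Fin 4 → W I) (par : I → Option I) (rk : I → ℕ) (K : ℕ) (d : F → I),
    (∀ v, rk v < K) ∧
    (∀ v u, par v = some u → rk u < rk v ∧ ∀ i, P v i = Sum.inr u ∨ ∃ j, P v i = P u j) ∧
    (∀ v, par v = none → ∀ i, ∃ c, P v i = Sum.inl c) ∧
    (∀ x y, B.adj x y → (∃ v i, y = Sum.inr v ∧ x = P v i) ∨ (∃ v i, x = Sum.inr v ∧ y = P v i) ∨
      (∃ c c' : Fin 3, x = Sum.inl c ∧ y = Sum.inl c')) ∧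
    (∀ m c, B.face m c = Sum.inr (d m) ∨ ∃ j, B.face m c = P (d m) j)

/-- good bases -/
structure BOK {I F : Type} (B : Bas I F) : Prop where
  sy : Sy B.adj
  irr : ∀ x, ¬ B.adj x x
  cc : ∀ i j : Fin 3, i ≠ j → B.adj (Sum.inl i) (Sum.inl j)
  fa : ∀ m i j, i ≠ j → B.adj (B.face m i) (B.face m j)
  hub : ∃ h : I, ∀ k, k ≠ h → B.adj (Sum.inr h) (Sum.inr k)
  fin : ∀ m, ∃ i k, B.face m i = Sum.inr k
  att : ∀ c : Fin 3, ∃ k : I, B.adj (Sum.inr k) (Sum.inl c)
  bt : ∃ b, BT B b
  tw : BTW B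

theorem BOK.finj {I F : Type} {B : Bas I F} (h : BOK B) (m : F) :
    Function.Injective (B.face m) := by
  intro i j hij
  by_contra hne
  have := h.fa m i j hne
  rw [hij] at this
  exact h.irr _ this

/-- the inner vertices of the child in the face `m` -/
def blob {I F : Type} (V : Type) (m : F) : Set (W (I ⊕ F × V)) :=
  Set.range (fun v : V => Sum.inr (Sum.inr (m, v)))

theorem blob_eq {I F V : Type} (B : Bas I F) (m : F) :
    blob (I := I) V m = (cv B m : W V → _) '' (Set.range Sum.inr) := by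
  ext x
  constructor
  · rintro ⟨v, rfl⟩
    exact ⟨Sum.inr v, ⟨v, rfl⟩, rfl⟩
  · rintro ⟨_, ⟨v, rfl⟩, rfl⟩
    exact ⟨v, rfl⟩

theorem blob_cn {I F V : Type} (B : Bas I F) (m : F) {A : W V → W V → Prop}
    (h : Cn A (Set.range Sum.inr)) : Cn (gl B A) (blob (I := I) V m) := by
  rw [blob_eq B m]
  exact cn_map (fun u v huv => gl_c huv) h

theorem blob_at {I F V : Type} (B : Bas I F) (m : F) {A : W V → W V → Prop}
    (h : ∀ i : Fin 3, ∃ v : V, A (Sum.inr v) (Sum.inl i)) (c : Fin 3) :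
    At (gl B A) (blob (I := I) V m) (bv F V (B.face m c)) := by
  obtain ⟨v, hv⟩ := h c
  exact ⟨cv B m (Sum.inr v), ⟨v, rfl⟩, gl_c (m := m) (B := B) hv⟩

theorem blob_nb {I F V : Type} (m : F) (i : W I) : bv F V i ∉ blob (I := I) V m := by
  rintro ⟨v, hv⟩
  exact bv_ne i m v hv.symm

theorem gl_cn {I F V : Type} {B : Bas I F} {A : W V → W V → Prop} (hB : BOK B) (hA : POK A) :
    Cn (gl B A) (Set.range Sum.inr) := by
  obtain ⟨h, hh⟩ := hB.hub
  have hsy := gl_sy hB.sy hA.sy
  intro S hS hne hcl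
  -- the hub is in S
  have base : ∀ k : I, Sum.inr (Sum.inl k) ∈ S → (Sum.inr (Sum.inl h) : W (I ⊕ F × V)) ∈ S := by
    intro k hk
    by_cases e : k = h
    · rwa [e] at hk
    · exact hcl _ hk _ ⟨_, rfl⟩ (hsy _ _ (gl_b (A := A) (hh k e)))
  have hubS : (Sum.inr (Sum.inl h) : W (I ⊕ F × V)) ∈ S := by
    obtain ⟨x, hx⟩ := hne
    obtain ⟨y, rfl⟩ := hS hx
    rcases y with k | ⟨m, v⟩
    · exact base k hx
    · -- all the blob is in S
      have h1 : S ∩ blob (I := I) V m = blob (I := I) V m := by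
        apply blob_cn B m hA.cn _ Set.inter_subset_right ⟨_, hx, ⟨v, rfl⟩⟩
        rintro x ⟨hxS, _⟩ y hy hxy
        refine ⟨hcl _ hxS _ ?_ hxy, hy⟩
        obtain ⟨v, rfl⟩ := hy
        exact ⟨_, rfl⟩
      obtain ⟨i, k, hik⟩ := hB.fin m
      obtain ⟨x, hx, hxk⟩ := blob_at B m hA.att i
      have hxS : x ∈ S := by
        have : x ∈ S ∩ blob (I := I) V m := by rw [h1]; exact hx
        exact this.1
      rw [hik] at hxk
      exact base k (hcl _ hxS _ ⟨_, rfl⟩ hxk)
  apply Set.Subset.antisymm hS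
  have hbase : ∀ k : I, (Sum.inr (Sum.inl k) : W (I ⊕ F × V)) ∈ S := by
    intro k
    by_cases e : k = h
    · rwa [e]
    · exact hcl _ hubS _ ⟨_, rfl⟩ (gl_b (A := A) (hh k e))
  rintro _ ⟨y, rfl⟩
  rcases y with k | ⟨m, v⟩
  · exact hbase k
  · obtain ⟨i, k, hik⟩ := hB.fin m
    obtain ⟨x, hx, hxk⟩ := blob_at B m hA.att i
    rw [hik] at hxk
    have hxS : x ∈ S := by
      refine hcl _ (hbase k) _ ?_ (hsy _ _ hxk)
      obtain ⟨v, rfl⟩ := hx
      exact ⟨_, rfl⟩
    have h1 : S ∩ blob (I := I) V m = blob (I := I) V m := by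
      apply blob_cn B m hA.cn _ Set.inter_subset_right ⟨_, hxS, hx⟩
      rintro x ⟨hxS, _⟩ y hy hxy
      refine ⟨hcl _ hxS _ ?_ hxy, hy⟩
      obtain ⟨v, rfl⟩ := hy
      exact ⟨_, rfl⟩
    have : (Sum.inr (Sum.inr (m, v)) : W (I ⊕ F × V)) ∈ S ∩ blob (I := I) V m := by
      rw [h1]; exact ⟨v, rfl⟩
    exact this.1

theorem gl_tw {I F V : Type} {B : Bas I F} {A : W V → W V → Prop} (hB : BTW B) (hA : TW A)
    (hirr : ∀ x, ¬ A x x) (hfa : ∀ m i j, i ≠ j → B.adj (B.face m i) (B.face m j)) :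
    TW (gl B A) := by
  obtain ⟨P, par, rk, K, d, h1, h2, h3, h4, h5⟩ := hB
  obtain ⟨P', par', rk', k2, k3, k4⟩ := hA
  refine ⟨fun v => match v with
      | Sum.inl k => fun i => bv F V (P k i)
      | Sum.inr (m, v) => fun i => cv B m (P' v i),
    fun v => match v with
      | Sum.inl k => (par k).map Sum.inl
      | Sum.inr (m, v) => match par' v with
        | none => some (Sum.inl (d m))
        | some u => some (Sum.inr (m, u)),
    fun v => match v with
      | Sum.inl k => rk k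
      | Sum.inr (m, v) => K + rk' v, ?_, ?_, ?_⟩
  · intro v u huv
    rcases v with k | ⟨m, v⟩
    · simp only [Option.map_eq_some_iff] at huv
      obtain ⟨a, ha, rfl⟩ := huv
      obtain ⟨g1, g2⟩ := h2 k a ha
      refine ⟨g1, fun i => ?_⟩
      rcases g2 i with g | ⟨j, g⟩
      · left
        simp only [g]
        rfl
      · right
        exact ⟨j, by simp only [g]⟩
    · simp only at huv
      cases hp : par' v with
      | none =>
        rw [hp] at huv
        simp only [Option.some.injEq] at huv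
        subst huv
        refine ⟨by simp only; have := h1 (d m); omega, fun i => ?_⟩
        obtain ⟨c, hc⟩ := k3 v hp i
        rcases h5 m c with g | ⟨j, g⟩
        · left
          simp only [hc, cv, g]
          rfl
        · right
          exact ⟨j, by simp only [hc, cv, g]⟩
      | some u' =>
        rw [hp] at huv
        simp only [Option.some.injEq] at huv
        subst huv
        obtain ⟨g1, g2⟩ := k2 v u' hp
        refine ⟨by simp only; omega, fun i => ?_⟩
        rcases g2 i with g | ⟨j, g⟩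
        · left
          simp only [g]
          rfl
        · right
          exact ⟨j, by simp only [g]⟩
  · intro v hv
    rcases v with k | ⟨m, v⟩
    · simp only [Option.map_eq_none_iff] at hv
      intro i
      obtain ⟨c, hc⟩ := h3 k hv i
      exact ⟨c, by simp only [hc]; rfl⟩
    · simp only at hv
      cases hp : par' v with
      | none => rw [hp] at hv; simp at hv
      | some u' => rw [hp] at hv; simp at hv
  · have hbase : ∀ i j : W I, B.adj i j →
        (∃ (v : I ⊕ F × V) (i' : Fin 4), bv F V j = Sum.inr v ∧ bv F V i = (match v with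
          | Sum.inl k => fun i => bv F V (P k i)
          | Sum.inr (m, v) => fun i => cv B m (P' v i)) i') ∨
        (∃ (v : I ⊕ F × V) (i' : Fin 4), bv F V i = Sum.inr v ∧ bv F V j = (match v with
          | Sum.inl k => fun i => bv F V (P k i)
          | Sum.inr (m, v) => fun i => cv B m (P' v i)) i') ∨
        (∃ c c' : Fin 3, bv F V i = Sum.inl c ∧ bv F V j = Sum.inl c') := by
      intro i j h
      rcases h4 i j h with ⟨v, i', rfl, hx⟩ | ⟨v, i', rfl, hx⟩ | ⟨c, c', rfl, rfl⟩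
      · exact Or.inl ⟨Sum.inl v, i', rfl, by simp only [hx]⟩
      · exact Or.inr (Or.inl ⟨Sum.inl v, i', rfl, by simp only [hx]⟩)
      · exact Or.inr (Or.inr ⟨c, c', rfl, rfl⟩)
    rintro x y (⟨i, j, h, rfl, rfl⟩ | ⟨m, a, b, h, rfl, rfl⟩)
    · exact hbase i j h
    · rcases k4 a b h with ⟨v, i', rfl, hx⟩ | ⟨v, i', rfl, hx⟩ | ⟨c, c', rfl, rfl⟩
      · exact Or.inl ⟨Sum.inr (m, v), i', rfl, by simp only [hx]⟩
      · exact Or.inr (Or.inl ⟨Sum.inr (m, v), i', rfl, by simp only [hx]⟩)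
      · have hcc : c ≠ c' := by
          rintro rfl
          exact hirr _ h
        exact hbase _ _ (hfa m c c' hcc)

end Pool.Agent.N398
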