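import Pool.Agent.N398.Cor

set_option autoImplicit false

namespace Pool.Agent.N398

open Pool.Agent.Helper745.FSub

/-- the affine map sending the standard triangle to `T` -/
noncomputable def aff (T : Fin 3 → Pt) (z : Pt) : Pt :=
  T 0 + z.1 • (T 1 - T 0) + z.2 • (T 2 - T 0)

theorem aff_ori (T : Fin 3 → Pt) (a b c : Pt) :
    ori (aff T a) (aff T b) (aff T c) = ori (T 0) (T 1) (T 2) * ori a b c := by
  simp only [ori, aff, Prod.fst_add, Prod.snd_add, Prod.smul_fst, Prod.smul_snd, Prod.fst_sub,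
    Prod.snd_sub, smul_eq_mul]
  ring

theorem aff_inj (T : Fin 3 → Pt) (h : ori (T 0) (T 1) (T 2) ≠ 0) : Function.Injective (aff T) := by
  intro a b hab
  have e1 := congrArg Prod.fst hab
  have e2 := congrArg Prod.snd hab
  simp only [aff, Prod.fst_add, Prod.snd_add, Prod.smul_fst, Prod.smul_snd, Prod.fst_sub,
    Prod.snd_sub, smul_eq_mul] at e1 e2
  unfold ori at h
  have k1 : ((T 1).1 - (T 0).1) * ((T 2).2 - (T 0).2) - ((T 1).2 - (T 0).2) * ((T 2).1 - (T 0).1) ≠ 0 := h
  apply Prod.ext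
  · have : (((T 1).1 - (T 0).1) * ((T 2).2 - (T 0).2) - ((T 1).2 - (T 0).2) * ((T 2).1 - (T 0).1)) *
        (a.1 - b.1) = 0 := by
      linear_combination ((T 2).2 - (T 0).2) * e1 - ((T 2).1 - (T 0).1) * e2
    rcases mul_eq_zero.1 this with h' | h'
    · exact absurd h' k1
    · linarith
  · have : (((T 1).1 - (T 0).1) * ((T 2).2 - (T 0).2) - ((T 1).2 - (T 0).2) * ((T 2).1 - (T 0).1)) *
        (a.2 - b.2) = 0 := by
      linear_combination ((T 1).1 - (T 0).1) * e2 - ((T 1).2 - (T 0).2) * e1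
    rcases mul_eq_zero.1 this with h' | h'
    · exact absurd h' k1
    · linarith

theorem aff_seg (T : Fin 3 → Pt) (a b p : Pt) (hp : p ∈ segment ℝ (aff T a) (aff T b)) :
    ∃ q ∈ segment ℝ a b, p = aff T q := by
  obtain ⟨α, β, hα, hβ, hab, rfl⟩ := hp
  refine ⟨α • a + β • b, ⟨α, β, hα, hβ, hab, rfl⟩, ?_⟩
  have hα' : α = 1 - β := by linarith
  subst hα'
  apply Prod.ext
  · simp only [aff, Prod.fst_add, Prod.smul_fst, Prod.fst_sub, Prod.snd_add, Prod.smul_snd,
      smul_eq_mul]
    ring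
  · simp only [aff, Prod.fst_add, Prod.smul_fst, Prod.snd_sub, Prod.snd_add, Prod.smul_snd,
      smul_eq_mul]
    ring

theorem aff_cor (T : Fin 3 → Pt) (i : Fin 3) : aff T (T0 i) = T i := by
  fin_cases i
  · simp [aff, T0]
  · simp [aff, T0]
  · simp [aff, T0]

theorem drw_aff {V : Type} {A : W V → W V → Prop} (h : Dr A) (T : Fin 3 → Pt)
    (hT : ori (T 0) (T 1) (T 2) ≠ 0) :
    ∃ f : W V → Pt, Drw A f ∧ (∀ i, f (Sum.inl i) = T i) ∧
      ∀ v, inT (T 0) (T 1) (T 2) (f (Sum.inr v)) := by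
  obtain ⟨f, hf, hc, hi⟩ := h
  refine ⟨fun x => aff T (f x), ⟨?_, ?_, ?_⟩, ?_, ?_⟩
  · intro a b hab
    exact hf.inj (aff_inj T hT hab)
  · intro u v w huv hwu hwv hw
    obtain ⟨q, hq, e⟩ := aff_seg T _ _ _ hw
    have := aff_inj T hT e
    rw [← this] at hq
    exact hf.d1 u v w huv hwu hwv hq
  · intro u v x y huv hxy h1 h2 h3 h4
    rw [Set.disjoint_left]
    intro p hp hp'
    obtain ⟨q, hq, e⟩ := aff_seg T _ _ _ hp
    obtain ⟨q', hq', e'⟩ := aff_seg T _ _ _ hp'
    have := aff_inj T hT (e.symm.trans e')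
    rw [← this] at hq'
    exact Set.disjoint_left.1 (hf.d2 u v x y huv hxy h1 h2 h3 h4) hq hq'
  · intro i
    show aff T (f (Sum.inl i)) = T i
    rw [hc, aff_cor]
  · intro v
    obtain ⟨g1, g2, g3⟩ := hi v
    have e1 := aff_ori T (T0 0) (T0 1) (f (Sum.inr v))
    have e2 := aff_ori T (T0 1) (T0 2) (f (Sum.inr v))
    have e3 := aff_ori T (T0 2) (T0 0) (f (Sum.inr v))
    rw [aff_cor, aff_cor] at e1 e2 e3
    unfold inT
    rw [e1, e2, e3]
    rcases lt_or_gt_of_ne hT with h' | h'
    · right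
      exact ⟨mul_neg_of_neg_of_pos h' g1, mul_neg_of_neg_of_pos h' g2,
        mul_neg_of_neg_of_pos h' g3⟩
    · left
      exact ⟨mul_pos h' g1, mul_pos h' g2, mul_pos h' g3⟩

theorem ori_comb (x y a b : Pt) {α β : ℝ} (h : α + β = 1) :
    ori x y (α • a + β • b) = α * ori x y a + β * ori x y b := by
  have hα : α = 1 - β := by linarith
  subst hα
  simp only [ori, Prod.fst_add, Prod.snd_add, Prod.smul_fst, Prod.smul_snd, smul_eq_mul]
  ring

/-- a point on the segment from a corner to an interior point is interior or the corner -/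
theorem seg_in {a b c q : Pt} (hq : inT a b c q) {x p : Pt} (hx : x = a ∨ x = b ∨ x = c)
    (hp : p ∈ segment ℝ x q) : inT a b c p ∨ p = x := by
  obtain ⟨α, β, hα, hβ, hab, rfl⟩ := hp
  rcases hβ.eq_or_lt with h0 | h0
  · right
    have h1 : α = 1 := by linarith
    rw [← h0, h1, one_smul, zero_smul, add_zero]
  · left
    have hs : ori a b q + ori b c q + ori c a q = ori a b c := tri_split_sum a b c q
    have e0 : ∀ x y : Pt, ori x y x = 0 := by intro x y; unfold ori; ring
    have e1 : ∀ x y : Pt, ori x y y = 0 := by intro x y; unfold ori; ring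
    have e2 : ori b c a = ori a b c := by unfold ori; ring
    have e3 : ori c a b = ori a b c := by unfold ori; ring
    unfold inT
    rw [ori_comb _ _ _ _ hab, ori_comb _ _ _ _ hab, ori_comb _ _ _ _ hab]
    rcases hq with ⟨h1, h2, h3⟩ | ⟨h1, h2, h3⟩
    · left
      have k1 := mul_pos h0 h1
      have k2 := mul_pos h0 h2
      have k3 := mul_pos h0 h3
      have ht : 0 < ori a b c := by linarith
      have k4 : 0 ≤ α * ori a b c := mul_nonneg hα ht.le
      rcases hx with rfl | rfl | rfl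
      · rw [e0, e1, e2]; exact ⟨by linarith, by linarith, by linarith⟩
      · rw [e0, e1, e3]; exact ⟨by linarith, by linarith, by linarith⟩
      · rw [e0, e1]; exact ⟨by linarith, by linarith, by linarith⟩
    · right
      have k1 := mul_neg_of_pos_of_neg h0 h1
      have k2 := mul_neg_of_pos_of_neg h0 h2
      have k3 := mul_neg_of_pos_of_neg h0 h3
      have ht : ori a b c < 0 := by linarith
      have k4 : α * ori a b c ≤ 0 := mul_nonpos_of_nonneg_of_nonpos hα ht.le
      rcases hx with rfl | rfl | rfl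
      · rw [e0, e1, e2]; exact ⟨by linarith, by linarith, by linarith⟩
      · rw [e0, e1, e3]; exact ⟨by linarith, by linarith, by linarith⟩
      · rw [e0, e1]; exact ⟨by linarith, by linarith, by linarith⟩

theorem seg_in2 {a b c q q' : Pt} (hq : inT a b c q) (hq' : inT a b c q') {p : Pt}
    (hp : p ∈ segment ℝ q q') : inT a b c p := by
  obtain ⟨α, β, hα, hβ, hab, rfl⟩ := hp
  have key : ∀ x y : ℝ, 0 < x → 0 < y → 0 < α * x + β * y := by
    intro x y hx hy
    rcases hα.eq_or_lt with h0 | h0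
    · have h1 : β = 1 := by linarith
      rw [← h0, h1]; linarith
    · have := mul_pos h0 hx
      have := mul_nonneg hβ hy.le
      linarith
  have key' : ∀ x y : ℝ, x < 0 → y < 0 → α * x + β * y < 0 := by
    intro x y hx hy
    have := key (-x) (-y) (by linarith) (by linarith)
    linarith
  have hs : ori a b q + ori b c q + ori c a q = ori a b c := tri_split_sum a b c q
  have hs' : ori a b q' + ori b c q' + ori c a q' = ori a b c := tri_split_sum a b c q'
  unfold inT
  rw [ori_comb _ _ _ _ hab, ori_comb _ _ _ _ hab, ori_comb _ _ _ _ hab]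
  rcases hq with ⟨h1, h2, h3⟩ | ⟨h1, h2, h3⟩ <;> rcases hq' with ⟨g1, g2, g3⟩ | ⟨g1, g2, g3⟩
  · exact Or.inl ⟨key _ _ h1 g1, key _ _ h2 g2, key _ _ h3 g3⟩
  · linarith
  · linarith
  · exact Or.inr ⟨key' _ _ h1 g1, key' _ _ h2 g2, key' _ _ h3 g3⟩

/-- the triangle of a marked face -/
def fT {I F : Type} (B : Bas I F) (b : W I → Pt) (m : F) (p : Pt) : Prop :=
  inT (b (B.face m 0)) (b (B.face m 1)) (b (B.face m 2)) p

theorem fT_cor {I F : Type} (B : Bas I F) (b : W I → Pt) (m : F) (c : Fin 3) :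
    b (B.face m c) = b (B.face m 0) ∨ b (B.face m c) = b (B.face m 1) ∨
      b (B.face m c) = b (B.face m 2) := by
  fin_cases c
  · exact Or.inl rfl
  · exact Or.inr (Or.inl rfl)
  · exact Or.inr (Or.inr rfl)

/-- the glued drawing -/
def gd {I F V : Type} (b : W I → Pt) (g : F → W V → Pt) : W (I ⊕ F × V) → Pt
  | Sum.inl c => b (Sum.inl c)
  | Sum.inr (Sum.inl k) => b (Sum.inr k)
  | Sum.inr (Sum.inr (m, v)) => g m (Sum.inr v)

theorem gd_bv {I F V : Type} (b : W I → Pt) (g : F → W V → Pt) (i : W I) :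
    gd b g (bv F V i) = b i := by
  rcases i with c | k <;> rfl

theorem gd_cv {I F V : Type} (B : Bas I F) (b : W I → Pt) (g : F → W V → Pt)
    (hg : ∀ m i, g m (Sum.inl i) = b (B.face m i)) (m : F) (x : W V) :
    gd b g (cv B m x) = g m x := by
  rcases x with c | v
  · simp only [cv, gd_bv, hg]
  · rfl

theorem gl_dr {I F V : Type} {B : Bas I F} {A : W V → W V → Prop} {b : W I → Pt} (hb : BT B b)
    (hB : BOK B) (hA : Dr A) (hirr : ∀ x, ¬ A x x) : Dr (gl B A) := by
  choose g hg1 hg2 hg3 using fun m => drw_aff hA (fun c => b (B.face m c)) (hb.ndg m)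
  have gcv := gd_cv (V := V) B b g hg2
  have gin : ∀ m v, fT B b m (g m (Sum.inr v)) := fun m v => hg3 m v
  -- every vertex is a base vertex or an inner vertex of a child
  have cas : ∀ x : W (I ⊕ F × V), (∃ i, x = bv F V i) ∨ ∃ m v, x = cv B m (Sum.inr v) := by
    rintro (c | k | ⟨m, v⟩)
    · exact Or.inl ⟨Sum.inl c, rfl⟩
    · exact Or.inl ⟨Sum.inr k, rfl⟩
    · exact Or.inr ⟨m, v, rfl⟩
  -- no base vertex in an open face
  have vf : ∀ m i, ¬ fT B b m (b i) := by
    intro m i hi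
    have key : ∃ j, B.adj i j := by
      rcases i with c | k
      · obtain ⟨k, hk⟩ := hB.att c
        exact ⟨_, hB.sy _ _ hk⟩
      · obtain ⟨h, hh⟩ := hB.hub
        by_cases e : k = h
        · subst e
          obtain ⟨k', hk'⟩ := hB.att 0
          by_cases e' : k' = k
          · subst e'
            exact ⟨_, hk'⟩
          · exact ⟨_, hh k' e'⟩
        · exact ⟨_, hB.sy _ _ (hh k e)⟩
    obtain ⟨j, hj⟩ := key
    exact hb.fe m i j hj (b i) (left_mem_segment ℝ _ _) hi
  -- edges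
  have edge : ∀ u v, gl B A u v → (∃ i j, B.adj i j ∧ u = bv F V i ∧ v = bv F V j) ∨
      ∃ m x y, A x y ∧ u = cv B m x ∧ v = cv B m y ∧
        ∀ p ∈ segment ℝ (gd b g u) (gd b g v), fT B b m p ∨
          (∃ c, x = Sum.inl c ∧ p = b (B.face m c)) ∨ (∃ c, y = Sum.inl c ∧ p = b (B.face m c)) := by
    rintro u v (⟨i, j, h, rfl, rfl⟩ | ⟨m, x, y, h, rfl, rfl⟩)
    · exact Or.inl ⟨i, j, h, rfl, rfl⟩
    · rcases x with c | x <;> rcases y with c' | y
      · left
        have hcc : c ≠ c' := by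
          rintro rfl
          exact hirr _ h
        exact ⟨_, _, hB.fa m c c' hcc, rfl, rfl⟩
      · right
        refine ⟨m, _, _, h, rfl, rfl, fun p hp => ?_⟩
        rw [gcv, gcv, hg2] at hp
        rcases seg_in (gin m y) (fT_cor B b m c) hp with h' | h'
        · exact Or.inl h'
        · exact Or.inr (Or.inl ⟨c, rfl, h'⟩)
      · right
        refine ⟨m, _, _, h, rfl, rfl, fun p hp => ?_⟩
        rw [gcv, gcv, hg2, segment_symm] at hp
        rcases seg_in (gin m x) (fT_cor B b m c') hp with h' | h'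
        · exact Or.inl h'
        · exact Or.inr (Or.inr ⟨c', rfl, h'⟩)
      · right
        refine ⟨m, _, _, h, rfl, rfl, fun p hp => ?_⟩
        rw [gcv, gcv] at hp
        exact Or.inl (seg_in2 (gin m x) (gin m y) hp)
  refine ⟨gd b g, ⟨?_, ?_, ?_⟩, ?_, ?_⟩
  · -- injective
    intro x y hxy
    rcases cas x with ⟨i, rfl⟩ | ⟨m, v, rfl⟩ <;> rcases cas y with ⟨j, rfl⟩ | ⟨m', v', rfl⟩
    · rw [gd_bv, gd_bv] at hxy
      rw [hb.drw.inj hxy]
    · rw [gd_bv, gcv] at hxy
      exact absurd (hxy ▸ gin m' v') (vf m' i)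
    · rw [gd_bv, gcv] at hxy
      exact absurd (hxy ▸ gin m v) (vf m j)
    · rw [gcv, gcv] at hxy
      by_cases e : m = m'
      · subst e
        rw [(hg1 m).inj hxy]
      · exact absurd (hxy ▸ gin m v) (fun h' => hb.ff m m' e _ h' (gin m' v'))
  · -- vertices on edges
    intro u v w huv hwu hwv hw
    rcases edge u v huv with ⟨i, j, hij, rfl, rfl⟩ | ⟨m, x, y, hxy, rfl, rfl, hseg⟩
    · rw [gd_bv, gd_bv] at hw
      rcases cas w with ⟨k, rfl⟩ | ⟨m', z, rfl⟩
      · rw [gd_bv] at hw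
        exact hb.drw.d1 i j k hij (fun h => hwu (by rw [h])) (fun h => hwv (by rw [h])) hw
      · rw [gcv] at hw
        exact hb.fe m' i j hij _ hw (gin m' z)
    · rcases cas w with ⟨k, rfl⟩ | ⟨m', z, rfl⟩
      · have hw' := hseg _ hw
        rw [gd_bv] at hw'
        rcases hw' with h | ⟨c, rfl, h⟩ | ⟨c, rfl, h⟩
        · exact vf m k h
        · exact hwu (by rw [hb.drw.inj h]; rfl)
        · exact hwv (by rw [hb.drw.inj h]; rfl)
      · by_cases e : m' = m
        · subst e
          rw [gcv, gcv, gcv] at hw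
          exact (hg1 m').d1 x y _ hxy (fun h => hwu (by rw [h])) (fun h => hwv (by rw [h])) hw
        · have hw' := hseg _ hw
          rw [gcv] at hw'
          rcases hw' with h | ⟨c, rfl, h⟩ | ⟨c, rfl, h⟩
          · exact hb.ff m m' (fun h' => e h'.symm) _ h (gin m' z)
          · exact vf m' _ (h ▸ gin m' z)
          · exact vf m' _ (h ▸ gin m' z)
  · -- crossing edges
    intro u v x y huv hxy h1 h2 h3 h4
    rw [Set.disjoint_left]
    intro p hp hp'
    -- a base edge against a child edge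
    have BC : ∀ u v x y, (∃ i j, B.adj i j ∧ u = bv F V i ∧ v = bv F V j) →
        (∃ m x' y', A x' y' ∧ x = cv B m x' ∧ y = cv B m y' ∧
        ∀ p ∈ segment ℝ (gd b g x) (gd b g y), fT B b m p ∨
          (∃ c, x' = Sum.inl c ∧ p = b (B.face m c)) ∨
          (∃ c, y' = Sum.inl c ∧ p = b (B.face m c))) →
        u ≠ x → u ≠ y → v ≠ x → v ≠ y → p ∈ segment ℝ (gd b g u) (gd b g v) →
        p ∈ segment ℝ (gd b g x) (gd b g y) → False := by
      rintro u v x y ⟨i, j, hij, rfl, rfl⟩ ⟨m, x', y', hxy', rfl, rfl, hseg⟩ h1 h2 h3 h4 hp hp'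
      rw [gd_bv, gd_bv] at hp
      rcases hseg p hp' with h | ⟨c, rfl, h⟩ | ⟨c, rfl, h⟩
      · exact hb.fe m i j hij p hp h
      · rw [h] at hp
        refine hb.drw.d1 i j _ hij (fun e => h1 ?_) (fun e => h3 ?_) hp
        · rw [← e]; rfl
        · rw [← e]; rfl
      · rw [h] at hp
        refine hb.drw.d1 i j _ hij (fun e => h2 ?_) (fun e => h4 ?_) hp
        · rw [← e]; rfl
        · rw [← e]; rfl
    rcases edge u v huv with hu | hu <;> rcases edge x y hxy with hx | hx
    · obtain ⟨i, j, hij, rfl, rfl⟩ := hu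
      obtain ⟨k, l, hkl, rfl, rfl⟩ := hx
      rw [gd_bv, gd_bv] at hp hp'
      exact Set.disjoint_left.1 (hb.drw.d2 i j k l hij hkl (fun h => h1 (by rw [h]))
        (fun h => h2 (by rw [h])) (fun h => h3 (by rw [h])) (fun h => h4 (by rw [h]))) hp hp'
    · exact BC u v x y hu hx h1 h2 h3 h4 hp hp'
    · exact BC x y u v hx hu h1.symm h3.symm h2.symm h4.symm hp' hp
    · obtain ⟨m, u', v', huv', rfl, rfl, hseg⟩ := hu
      obtain ⟨m', x', y', hxy', rfl, rfl, hseg'⟩ := hx
      by_cases e : m = m'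
      · subst e
        rw [gcv, gcv] at hp hp'
        exact Set.disjoint_left.1 ((hg1 m).d2 u' v' x' y' huv' hxy' (fun h => h1 (by rw [h]))
          (fun h => h2 (by rw [h])) (fun h => h3 (by rw [h])) (fun h => h4 (by rw [h]))) hp hp'
      · rcases hseg p hp with h | ⟨c, rfl, h⟩ | ⟨c, rfl, h⟩
        · rcases hseg' p hp' with h' | ⟨c', rfl, h'⟩ | ⟨c', rfl, h'⟩
          · exact hb.ff m m' e p h h'
          · exact vf m _ (h' ▸ h)
          · exact vf m _ (h' ▸ h)
        · rcases hseg' p hp' with h' | ⟨c', rfl, h'⟩ | ⟨c', rfl, h'⟩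
          · exact vf m' _ (h ▸ h')
          · apply h1
            have := hb.drw.inj (h.symm.trans h')
            simp only [cv, this]
          · apply h2
            have := hb.drw.inj (h.symm.trans h')
            simp only [cv, this]
        · rcases hseg' p hp' with h' | ⟨c', rfl, h'⟩ | ⟨c', rfl, h'⟩
          · exact vf m' _ (h ▸ h')
          · apply h3
            have := hb.drw.inj (h.symm.trans h')
            simp only [cv, this]
          · apply h4
            have := hb.drw.inj (h.symm.trans h')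
            simp only [cv, this]
  · intro i
    exact hb.cor i
  · rintro (k | ⟨m, v⟩)
    · exact hb.inn k
    · exact hb.fin m _ (gin m v)

/-- gluing good pieces into a good base -/
theorem gl_ok {I F V : Type} {B : Bas I F} {A : W V → W V → Prop} (hB : BOK B) (hA : POK A) :
    POK (gl B A) where
  sy := gl_sy hB.sy hA.sy
  irr := gl_irr hB.irr hB.finj hA.irr
  cc := fun i j hij => gl_b (A := A) (hB.cc i j hij)
  ne := by
    obtain ⟨h, _⟩ := hB.hub
    exact ⟨Sum.inl h⟩
  cn := gl_cn hB hA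
  att := by
    intro c
    obtain ⟨k, hk⟩ := hB.att c
    exact ⟨Sum.inl k, gl_b (A := A) hk⟩
  dr := by
    obtain ⟨b, hb⟩ := hB.bt
    exact gl_dr hb hB hA.dr hA.irr
  tw := gl_tw hB.tw hA.tw hA.irr hB.fa

end Pool.Agent.N398
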