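import Pool.Agent.N398.Dra

set_option autoImplicit false

namespace Pool.Agent.N398

open Pool.Agent.Helper745.FSub

/-- the base graph `K₄`; the face `m` is the one opposite to the corner `φ m` -/
def kB {F : Type} (φ : F → Fin 3) : Bas Unit F where
  adj := fun x y => x ≠ y
  face := fun m c => if c = φ m then Sum.inr () else Sum.inl c

/-- its drawing -/
noncomputable def kb : W Unit → Pt
  | Sum.inl c => T0 c
  | Sum.inr _ => (1 / 3, 1 / 3)

theorem seg_co {a b p : Pt} (h : p ∈ segment ℝ a b) : ∃ α β : ℝ, 0 ≤ α ∧ 0 ≤ β ∧ α + β = 1 ∧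
    p.1 = α * a.1 + β * b.1 ∧ p.2 = α * a.2 + β * b.2 := by
  obtain ⟨α, β, hα, hβ, hab, rfl⟩ := h
  exact ⟨α, β, hα, hβ, hab, by simp, by simp⟩

theorem kb0 : kb (Sum.inl 0) = (0, 0) := rfl
theorem kb1 : kb (Sum.inl 1) = (1, 0) := rfl
theorem kb2 : kb (Sum.inl 2) = (0, 1) := rfl
theorem kb3 : kb (Sum.inr ()) = (1 / 3, 1 / 3) := rfl

theorem kcas (x : W Unit) : x = Sum.inl 0 ∨ x = Sum.inl 1 ∨ x = Sum.inl 2 ∨ x = Sum.inr () := by
  rcases x with c | ⟨⟩
  · fin_cases c <;> simp
  · simp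

theorem kb_drw : Drw (fun x y : W Unit => x ≠ y) kb where
  inj := by
    intro a b hab
    have e1 := congrArg Prod.fst hab
    have e2 := congrArg Prod.snd hab
    rcases kcas a with rfl | rfl | rfl | rfl <;> rcases kcas b with rfl | rfl | rfl | rfl <;>
    first
    | rfl
    | (exfalso; simp only [kb0, kb1, kb2, kb3] at e1 e2; linarith)
  d1 := by
    intro u v w huv hwu hwv hw
    obtain ⟨α, β, hα, hβ, hab, e1, e2⟩ := seg_co hw
    rcases kcas u with rfl | rfl | rfl | rfl <;> rcases kcas v with rfl | rfl | rfl | rfl <;>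
    first
    | exact huv rfl
    | (rcases kcas w with rfl | rfl | rfl | rfl <;>
      first
      | exact hwu rfl
      | exact hwv rfl
      | (simp only [kb0, kb1, kb2, kb3] at e1 e2; linarith))
  d2 := by
    intro u v x y huv hxy h1 h2 h3 h4
    rw [Set.disjoint_left]
    intro p hp hp'
    obtain ⟨α, β, hα, hβ, hab, e1, e2⟩ := seg_co hp
    obtain ⟨α', β', hα', hβ', hab', e1', e2'⟩ := seg_co hp'
    rcases kcas u with rfl | rfl | rfl | rfl <;> rcases kcas v with rfl | rfl | rfl | rfl <;>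
    first
    | exact huv rfl
    | (rcases kcas x with rfl | rfl | rfl | rfl <;>
      first
      | exact h1 rfl
      | exact h3 rfl
      | (rcases kcas y with rfl | rfl | rfl | rfl <;>
        first
        | exact h2 rfl
        | exact h4 rfl
        | exact hxy rfl
        | (simp only [kb0, kb1, kb2, kb3] at e1 e2 e1' e2'; linarith)))

/-- the faces of `K₄` -/
theorem kface {F : Type} (φ : F → Fin 3) (m : F) (p : Pt) :
    inT (kb ((kB φ).face m 0)) (kb ((kB φ).face m 1)) (kb ((kB φ).face m 2)) p ↔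
    ((φ m = 0 ∧ p.1 + p.2 < 1 ∧ p.2 + p.2 + p.1 > 1 ∧ p.1 + p.1 + p.2 > 1) ∨
     (φ m = 1 ∧ 0 < p.1 ∧ p.1 < p.2 ∧ p.1 + p.1 + p.2 < 1) ∨
     (φ m = 2 ∧ 0 < p.2 ∧ p.2 < p.1 ∧ p.2 + p.2 + p.1 < 1)) := by
  have h3 : φ m = 0 ∨ φ m = 1 ∨ φ m = 2 := by
    generalize φ m = t
    fin_cases t <;> simp
  rcases h3 with h | h | h
  · simp only [kB, h, kb, T0, inT, ori]
    simp
    constructor
    · rintro (⟨h1, h2, h3⟩ | ⟨h1, h2, h3⟩)
      · exact ⟨by linarith, by linarith, by linarith⟩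
      · exfalso; linarith
    · rintro ⟨h1, h2, h3⟩
      left
      exact ⟨by linarith, by linarith, by linarith⟩
  · simp only [kB, h, kb, T0, inT, ori]
    simp
    constructor
    · rintro (⟨h1, h2, h3⟩ | ⟨h1, h2, h3⟩)
      · exact ⟨by linarith, by linarith, by linarith⟩
      · exfalso; linarith
    · rintro ⟨h1, h2, h3⟩
      left
      exact ⟨by linarith, by linarith, by linarith⟩
  · simp only [kB, h, kb, T0, inT, ori]
    simp
    constructor
    · rintro (⟨h1, h2, h3⟩ | ⟨h1, h2, h3⟩)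
      · exact ⟨by linarith, by linarith, by linarith⟩
      · exfalso; linarith
    · rintro ⟨h1, h2, h3⟩
      left
      exact ⟨by linarith, by linarith, by linarith⟩

theorem kb_bt {F : Type} (φ : F → Fin 3) (hφ : Function.Injective φ) : BT (kB φ) kb where
  drw := kb_drw
  cor := fun i => rfl
  inn := by
    intro k
    have h0 : T0 0 = (0, 0) := rfl
    have h1 : T0 1 = (1, 0) := rfl
    have h2 : T0 2 = (0, 1) := rfl
    simp only [inP, kb, h0, h1, h2, ori]
    norm_num
  ndg := by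
    intro m
    simp only [kB]
    generalize φ m = t
    fin_cases t <;> simp [kb, T0, ori] <;> norm_num
  fe := by
    intro m i j hij p hp h
    rw [kface] at h
    obtain ⟨α, β, hα, hβ, hab, e1, e2⟩ := seg_co hp
    have hij' : i ≠ j := hij
    rcases kcas i with rfl | rfl | rfl | rfl <;> rcases kcas j with rfl | rfl | rfl | rfl <;>
    first
    | exact hij' rfl
    | (simp only [kb0, kb1, kb2, kb3] at e1 e2
       rcases h with ⟨_, h1, h2, h3⟩ | ⟨_, h1, h2, h3⟩ | ⟨_, h1, h2, h3⟩ <;> linarith)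
  ff := by
    intro m m' hm p h h'
    rw [kface] at h h'
    have : φ m ≠ φ m' := fun e => hm (hφ e)
    rcases h with ⟨g, h1, h2, h3⟩ | ⟨g, h1, h2, h3⟩ | ⟨g, h1, h2, h3⟩ <;>
    rcases h' with ⟨g', h1', h2', h3'⟩ | ⟨g', h1', h2', h3'⟩ | ⟨g', h1', h2', h3'⟩ <;>
    first | exact this (g.trans g'.symm) | linarith
  fin := by
    intro m p h
    rw [kface] at h
    simp only [inP, T0, ori]
    simp
    rcases h with ⟨_, h1, h2, h3⟩ | ⟨_, h1, h2, h3⟩ | ⟨_, h1, h2, h3⟩
    · exact ⟨by linarith, by linarith, by linarith⟩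
    · exact ⟨by linarith, by linarith, by linarith⟩
    · exact ⟨by linarith, by linarith, by linarith⟩

theorem kb_tw {F : Type} (φ : F → Fin 3) : BTW (kB φ) := by
  refine ⟨fun _ => ![Sum.inl 0, Sum.inl 1, Sum.inl 2, Sum.inl 2], fun _ => none, fun _ => 0, 1,
    fun _ => (), fun _ => one_pos, ?_, ?_, ?_, ?_⟩
  · intro v u h
    exact absurd h (by simp)
  · intro v _ i
    fin_cases i
    · exact ⟨0, rfl⟩
    · exact ⟨1, rfl⟩
    · exact ⟨2, rfl⟩
    · exact ⟨2, rfl⟩
  · have key : ∀ c : Fin 3, ∃ i : Fin 4, (Sum.inl c : W Unit) =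
        (![Sum.inl 0, Sum.inl 1, Sum.inl 2, Sum.inl 2] : Fin 4 → W Unit) i := by
      intro c
      fin_cases c
      · exact ⟨0, rfl⟩
      · exact ⟨1, rfl⟩
      · exact ⟨2, rfl⟩
    intro x y hxy
    rcases x with c | ⟨⟩ <;> rcases y with c' | ⟨⟩
    · exact Or.inr (Or.inr ⟨c, c', rfl, rfl⟩)
    · obtain ⟨i, hi⟩ := key c
      exact Or.inl ⟨(), i, rfl, hi⟩
    · obtain ⟨i, hi⟩ := key c'
      exact Or.inr (Or.inl ⟨(), i, rfl, hi⟩)
    · exact absurd rfl hxy
  · intro m c
    simp only [kB]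
    by_cases h : c = φ m
    · left
      simp [h]
    · right
      rw [if_neg h]
      fin_cases c
      · exact ⟨0, rfl⟩
      · exact ⟨1, rfl⟩
      · exact ⟨2, rfl⟩

theorem kb_ok {F : Type} (φ : F → Fin 3) (hφ : Function.Injective φ) : BOK (kB φ) where
  sy := fun x y h => Ne.symm h
  irr := fun x h => h rfl
  cc := fun i j hij h => hij (Sum.inl.inj h)
  fa := by
    intro m i j hij h
    simp only [kB] at h
    split_ifs at h with h1 h2 h2
    · exact hij (h1.trans h2.symm)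
    · exact hij (Sum.inl.inj h)
  hub := ⟨(), fun k hk => absurd rfl hk⟩
  fin := fun m => ⟨φ m, (), by simp [kB]⟩
  att := fun c => ⟨(), by simp [kB]⟩
  bt := ⟨kb, kb_bt φ hφ⟩
  tw := kb_tw φ

end Pool.Agent.N398
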