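import Pool.Agent.N398.Tdc

set_option autoImplicit false

namespace Pool.Agent.N398

open Pool.Agent.Helper745.FSub

/-- pieces in which a line meets at most the fraction `1 / ρ` of the vertices -/
def SS (ρ : ℝ) : Prop := ∀ U0 : ℕ, ∃ (U : ℕ) (V : Type) (_ : Fintype V) (A : W V → W V → Prop),
  U0 ≤ U ∧ POK A ∧ UB A U ∧ ρ * U ≤ Fintype.card V

theorem SS_one : SS 1 := by
  intro U0
  obtain ⟨V, i, A, hA, hc⟩ := triv
  have hU : UB A 1 := fun f _ _ => (zc_le _).trans hc.le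
  obtain ⟨V', i', A', g1, g2, _, g4, _⟩ := chain U0 hA hU (le_refl 1)
  refine ⟨1 + U0, V', i', A', by omega, g1, g2, ?_⟩
  rw [g4, hc]
  push_cast
  linarith

theorem SS_mono {ρ ρ' : ℝ} (h : SS ρ) (hle : ρ' ≤ ρ) : SS ρ' := by
  intro U0
  obtain ⟨U, V, i, A, h1, h2, h3, h4⟩ := h U0
  exact ⟨U, V, i, A, h1, h2, h3, le_trans (mul_le_mul_of_nonneg_right hle (Nat.cast_nonneg _)) h4⟩

theorem SS_step {K ρ : ℝ} {r : ℕ} (hr : 0 < r) (h20 : 20 * (K + 1) ≤ 4 * r + 1) (hρ : 1 ≤ ρ)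
    (hK : ρ ≤ K) (h : SS ρ) : SS (ρ + 1 / (4 * (4 * r + 1))) := by
  intro U0
  obtain ⟨U, V, i, A, h1, h2, h3, h4⟩ := h (U0 + 2 * (4 * r + 1) * (⌈K⌉₊ + 2))
  set R : ℕ := 4 * r + 1 with hR
  have hRr : (4 * (r : ℝ) + 1) = (R : ℝ) := by rw [hR]; push_cast; ring
  rw [hRr] at h20 ⊢
  have hRpos : 0 < R := by omega
  have hRpos' : (0 : ℝ) < R := by exact_mod_cast hRpos
  have hR1 : (1 : ℝ) ≤ R := by exact_mod_cast hRpos
  have hUR : R ≤ U := by
    have : R * 1 ≤ R * (2 * (⌈K⌉₊ + 2)) := Nat.mul_le_mul_left _ (by omega)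
    have e : 2 * R * (⌈K⌉₊ + 2) = R * (2 * (⌈K⌉₊ + 2)) := by ring
    omega
  set m := U / R with hm
  have hm1 : 0 < m := Nat.div_pos hUR hRpos
  have hm2 : R * m ≤ U := Nat.mul_div_le U R
  have hm3 : U < R * (m + 1) := Nat.lt_mul_div_succ U hRpos
  obtain ⟨V', i', A', g1, g2, g3, g4, g5⟩ := chain m h2 h3 (by omega)
  have e4 : 2 * (2 * r) = 4 * r := by ring
  have hub := ub_bip (K := 2 * r + R * U + 5 * m) hr g1 (g5 hm1) g2 g3
    (by
      rw [e4]
      have h' : 4 * r * m ≤ U := by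
        refine le_trans (Nat.mul_le_mul_right m ?_) hm2
        omega
      have : 4 * r * (U + m) = 4 * r * U + 4 * r * m := by ring
      have : R * U = 4 * r * U + U := by rw [hR]; ring
      omega)
    (by rw [e4])
  refine ⟨2 * r + R * U + 5 * m, _, inferInstance, _, ?_, gl_ok (bB_ok hr) g1, hub, ?_⟩
  · have : 1 * U ≤ R * U := Nat.mul_le_mul_right _ hRpos
    omega
  · have hcard : Fintype.card (Option (In (2 * r)) ⊕ Option (Bool × Fin (2 * r)) × V') =
        2 * r + R * (Fintype.card V + m) := by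
      simp only [Fintype.card_sum, Fintype.card_option, Fintype.card_coe, Nat.card_Ioo,
        Fintype.card_prod, Fintype.card_bool, Fintype.card_fin, g4]
      have : 2 * r - 0 - 1 + 1 = 2 * r := by omega
      rw [this, e4, hR]
    rw [hcard]
    push_cast
    have k2 : (R : ℝ) * m ≤ U := by exact_mod_cast hm2
    have k3 : (U : ℝ) < R * (m + 1) := by exact_mod_cast hm3
    have kr : (2 * (r : ℝ)) ≤ R := by rw [← hRr]; linarith [(Nat.cast_nonneg r : (0 : ℝ) ≤ r)]
    have kU : 2 * (R : ℝ) * (K + 2) ≤ U := by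
      have c1 : (U0 + 2 * R * (⌈K⌉₊ + 2) : ℝ) ≤ U := by exact_mod_cast h1
      have c2 := Nat.le_ceil K
      have c3 : 2 * (R : ℝ) * (K + 2) ≤ 2 * R * (⌈K⌉₊ + 2) := by
        apply mul_le_mul_of_nonneg_left _ (by positivity)
        linarith
      have c4 : (0 : ℝ) ≤ U0 := Nat.cast_nonneg _
      linarith
    have mnn : (0 : ℝ) ≤ m := Nat.cast_nonneg _
    have Unn : (0 : ℝ) ≤ U := Nat.cast_nonneg _
    set ε : ℝ := 1 / (4 * (R : ℝ)) with hε
    have hε0 : 0 < ε := by positivity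
    have hεR : ε * R = 1 / 4 := by rw [hε]; field_simp
    have hε1 : ε ≤ 1 := by
      rw [hε, div_le_one (by positivity)]
      linarith
    have t1 : ε * (R * U) = U / 4 := by
      calc ε * (R * U) = (ε * R) * U := by ring
        _ = U / 4 := by rw [hεR]; ring
    have t2 : (ρ + ε) * (5 * m) ≤ U / 4 := by
      have a1 : (ρ + ε) * (5 * m) ≤ (K + 1) * (5 * m) :=
        mul_le_mul_of_nonneg_right (by linarith) (by positivity)
      have a2 : 20 * (K + 1) * m ≤ R * m := mul_le_mul_of_nonneg_right h20 mnn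
      linarith
    have t3 : (ρ + ε) * (2 * r) ≤ (K + 1) * R := by
      have a1 : (ρ + ε) * (2 * r) ≤ (K + 1) * (2 * r) :=
        mul_le_mul_of_nonneg_right (by linarith) (by positivity)
      have a2 : (K + 1) * (2 * r) ≤ (K + 1) * R :=
        mul_le_mul_of_nonneg_left kr (by linarith)
      linarith
    have t4 : R * (ρ * U) ≤ R * (Fintype.card V : ℝ) := mul_le_mul_of_nonneg_left h4 hRpos'.le
    have rnn : (0 : ℝ) ≤ r := Nat.cast_nonneg _
    have expand : (ρ + ε) * (2 * r + R * U + 5 * m) = (ρ + ε) * (2 * r) + R * (ρ * U) +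
        ε * (R * U) + (ρ + ε) * (5 * m) := by ring
    rw [expand, t1]
    have e5 : (R : ℝ) * ((Fintype.card V : ℝ) + m) = R * (Fintype.card V : ℝ) + R * m := by ring
    rw [e5]
    have e6 : 2 * (R : ℝ) * (K + 2) = 2 * ((K + 1) * R) + 2 * R := by ring
    rw [e6] at kU
    have e7 : (R : ℝ) * (m + 1) = R * m + R := by ring
    rw [e7] at k3
    linarith

theorem SS_all (K : ℝ) : SS K := by
  by_cases hK : K ≤ 1
  · exact SS_mono SS_one hK
  have hK : 1 < K := not_le.1 hK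
  obtain ⟨r, hr⟩ := exists_nat_ge (5 * (K + 1))
  have hr0 : 0 < r := by
    have : (0 : ℝ) < r := by linarith
    exact_mod_cast this
  set ε : ℝ := 1 / (4 * (4 * r + 1)) with hε
  have hr0' : (0 : ℝ) < r := by exact_mod_cast hr0
  have hε0 : 0 < ε := by positivity
  have main : ∀ t : ℕ, 1 + t * ε ≤ K + ε → SS (1 + t * ε) := by
    intro t
    induction t with
    | zero =>
      intro _
      simpa using SS_one
    | succ t ih =>
      intro ht
      have e : (1 : ℝ) + ((t + 1 : ℕ) : ℝ) * ε = (1 + t * ε) + ε := by push_cast; ring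
      rw [e] at ht ⊢
      exact SS_step (K := K) hr0 (by linarith) (by
        have : 0 ≤ (t : ℝ) * ε := by positivity
        linarith) (by linarith) (ih (by linarith))
  have h1 := main ⌈(K - 1) / ε⌉₊ (by
    have := (Nat.ceil_lt_add_one (div_nonneg (by linarith : 0 ≤ K - 1) hε0.le)).le
    have h2 := mul_le_mul_of_nonneg_right this hε0.le
    rw [add_mul, div_mul_cancel₀ _ hε0.ne', one_mul] at h2
    linarith)
  refine SS_mono h1 ?_
  have := Nat.le_ceil ((K - 1) / ε)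
  have h2 := mul_le_mul_of_nonneg_right this hε0.le
  rw [div_mul_cancel₀ _ hε0.ne'] at h2
  linarith

/-- iterated stacking -/
theorem stack (h : ℕ) : ∀ {V : Type} [Fintype V] {A : W V → W V → Prop} (_ : POK A) {U : ℕ}
    (_ : UB A U) (_ : U ≤ Fintype.card V), ∃ (V' : Type) (_ : Fintype V')
      (A' : W V' → W V' → Prop) (U' B' : ℕ), POK A' ∧ UB A' U' ∧ AB A' B' ∧ U' ≤ B' ∧
      2 * U' + 1 = 3 ^ h * (2 * U + 1) ∧
      2 * B' + (2 * U + 1) = 2 * Fintype.card V + 3 ^ h * (2 * U + 1) ∧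
      3 ^ h * Fintype.card V ≤ Fintype.card V' := by
  induction h with
  | zero =>
    intro V _ A hA U hU hle
    exact ⟨V, inferInstance, A, U, Fintype.card V, hA, hU, fun f _ => zc_le _, hle, by simp,
      by simp, by simp⟩
  | succ h ih =>
    intro V _ A hA U hU hle
    obtain ⟨V', i', A', U', B', g1, g2, g3, g4, g5, g6, g7⟩ := ih hA hU hle
    refine ⟨Unit ⊕ Fin 3 × V', inferInstance, gl sB A', 3 * U' + 1, 2 * U' + B' + 1,
      gl_ok sB_ok g1, ub_stk g1 g2, ab_stk g1 g2 g3 g4, by omega, ?_, ?_, ?_⟩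
    · rw [pow_succ, mul_comm (3 ^ h) 3, mul_assoc, ← g5]
      ring
    · rw [pow_succ, mul_comm (3 ^ h) 3, mul_assoc, ← g5]
      omega
    · simp only [Fintype.card_sum, Fintype.card_unit, Fintype.card_prod, Fintype.card_fin]
      rw [pow_succ, mul_comm (3 ^ h) 3, mul_assoc]
      omega

/-- for every `c` there is a piece in which every line meets less than the fraction `c` -/
theorem exists_piece (c : ℝ) (hc : 0 < c) : ∃ (V : Type) (_ : Fintype V)
    (A : W V → W V → Prop) (B : ℕ), POK A ∧ AB A B ∧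
      (3 + B : ℝ) < c * (3 + Fintype.card V) := by
  obtain ⟨U, V, i, A, h1, h2, h3, h4⟩ := SS_all (3 / c + 1) 1
  obtain ⟨h, hh⟩ := pow_unbounded_of_one_lt (8 / c) (by norm_num : (1 : ℝ) < 3)
  have hU1 : (1 : ℝ) ≤ U := by exact_mod_cast h1
  have hle : U ≤ Fintype.card V := by
    have : (U : ℝ) ≤ Fintype.card V := by
      have h5 : 1 * (U : ℝ) ≤ (3 / c + 1) * U := by
        apply mul_le_mul_of_nonneg_right _ (by linarith)
        have : 0 < 3 / c := by positivity
        linarith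
      linarith
    exact_mod_cast this
  obtain ⟨V', i', A', U', B', g1, g2, g3, g4, g5, g6, g7⟩ := stack h h2 h3 hle
  refine ⟨V', i', A', B', g1, g3, ?_⟩
  set N : ℝ := (Fintype.card V : ℝ) with hN
  have k6 : 2 * (B' : ℝ) + (2 * U + 1) = 2 * N + 3 ^ h * (2 * U + 1) := by
    rw [hN]; exact_mod_cast g6
  have k7 : (3 : ℝ) ^ h * N ≤ Fintype.card V' := by rw [hN]; exact_mod_cast g7
  have hN1 : 1 ≤ N := by
    have : (U : ℝ) ≤ N := by rw [hN]; exact_mod_cast hle
    linarith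
  have hp : (0 : ℝ) < 3 ^ h := by positivity
  -- `3 U ≤ c N`
  have a1 : 3 * (U : ℝ) ≤ c * N := by
    have : (3 / c + 1) * (U : ℝ) ≤ N := h4
    have h5 : 3 / c * U ≤ N := by linarith
    have h6 := mul_le_mul_of_nonneg_left h5 hc.le
    have h7 : c * (3 / c * U) = 3 * U := by field_simp
    linarith
  have a2 : 8 < c * 3 ^ h := by
    rw [div_lt_iff₀ hc] at hh
    linarith
  have a3 : 8 * N ≤ c * 3 ^ h * N := mul_le_mul_of_nonneg_right a2.le (by linarith)
  have a4 : 3 ^ h * (3 * (U : ℝ)) ≤ 3 ^ h * (c * N) := mul_le_mul_of_nonneg_left a1 hp.le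
  have a5 : 3 ^ h * (2 * (U : ℝ) + 1) ≤ 3 ^ h * (3 * (U : ℝ)) :=
    mul_le_mul_of_nonneg_left (by linarith) hp.le
  have a6 : c * ((3 : ℝ) ^ h * N) ≤ c * Fintype.card V' := mul_le_mul_of_nonneg_left k7 hc.le
  nlinarith

theorem share {a b c p : Pt} (h1 : p ∈ segment ℝ a b) (h2 : p ∈ segment ℝ a c)
    (hb : b ∉ segment ℝ a c) (hc : c ∉ segment ℝ a b) : p = a := by
  rw [segment_eq_image'] at h1 h2 hb hc
  obtain ⟨t, ⟨ht0, ht1⟩, ht⟩ := h1
  obtain ⟨r, ⟨hr0, hr1⟩, hr⟩ := h2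
  simp only at ht hr
  by_contra hne
  have ht' : 0 < t := by
    rcases lt_or_eq_of_le ht0 with h | h
    · exact h
    · exfalso
      apply hne
      rw [← ht, ← h, zero_smul, add_zero]
  have hr' : 0 < r := by
    rcases lt_or_eq_of_le hr0 with h | h
    · exact h
    · exfalso
      apply hne
      rw [← hr, ← h, zero_smul, add_zero]
  have heq : t • (b - a) = r • (c - a) := by
    have := ht.trans hr.symm
    exact add_left_cancel this
  rcases le_total t r with h | h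
  · apply hc
    refine ⟨t / r, ⟨by positivity, (div_le_one hr').2 h⟩, ?_⟩
    have : (t / r) • (b - a) = c - a := by
      rw [div_eq_inv_mul, mul_smul, heq, smul_smul, inv_mul_cancel₀ hr'.ne', one_smul]
    simp only
    rw [this]
    abel
  · apply hb
    refine ⟨r / t, ⟨by positivity, (div_le_one ht').2 h⟩, ?_⟩
    have : (r / t) • (c - a) = b - a := by
      rw [div_eq_inv_mul, mul_smul, ← heq, smul_smul, inv_mul_cancel₀ ht'.ne', one_smul]
    simp only
    rw [this]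
    abel

theorem meet {V : Type} {A : V → V → Prop} (hA : ∀ x y, A x y → A y x)
    (hne' : ∀ x y, A x y → x ≠ y) {f : V → Pt} (h : Drw A f) {u v x y : V}
    (huv : A u v) (hxy : A x y) (hne1 : ¬ (u = x ∧ v = y)) (hne2 : ¬ (u = y ∧ v = x)) {p : Pt}
    (h1 : p ∈ segment ℝ (f u) (f v)) (h2 : p ∈ segment ℝ (f x) (f y)) :
    ∃ w, (w = u ∨ w = v) ∧ (w = x ∨ w = y) ∧ p = f w := by
  have key : ∀ a b c : V, A a b → A a c → b ≠ c → p ∈ segment ℝ (f a) (f b) →
      p ∈ segment ℝ (f a) (f c) → p = f a := by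
    intro a b c hab hac hbc h3 h4
    exact share h3 h4 (h.d1 a c b hac (hne' _ _ hab).symm hbc)
      (h.d1 a b c hab (hne' _ _ hac).symm (Ne.symm hbc))
  by_cases e1 : u = x
  · subst e1
    have hvy : v ≠ y := by
      rintro rfl
      exact hne1 ⟨rfl, rfl⟩
    exact ⟨u, Or.inl rfl, Or.inl rfl, key u v y huv hxy hvy h1 h2⟩
  by_cases e2 : u = y
  · subst e2
    have hvx : v ≠ x := by
      rintro rfl
      exact hne2 ⟨rfl, rfl⟩
    refine ⟨u, Or.inl rfl, Or.inr rfl, key u v x huv (hA _ _ hxy) hvx h1 ?_⟩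
    rw [segment_symm]; exact h2
  by_cases e3 : v = x
  · subst e3
    refine ⟨v, Or.inr rfl, Or.inl rfl, key v u y (hA _ _ huv) hxy e2 ?_ h2⟩
    rw [segment_symm]; exact h1
  by_cases e4 : v = y
  · subst e4
    refine ⟨v, Or.inr rfl, Or.inr rfl, key v u x (hA _ _ huv) (hA _ _ hxy) e1 ?_ ?_⟩
    · rw [segment_symm]; exact h1
    · rw [segment_symm]; exact h2
  exact absurd h2 (Set.disjoint_left.1 (h.d2 u v x y huv hxy e1 e2 e3 e4) h1)

end Pool.Agent.N398
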