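import Pool.Agent.N398.Bie

set_option autoImplicit false

namespace Pool.Agent.N398

/-- from a parent function to a tree decomposition -/
theorem td {X : Type} [Fintype X] [DecidableEq X] (bg : X → Finset X) (par : X → X) (rk : X → ℕ)
    (root : X) (h1 : ∀ x, x ∈ bg x) (h2 : ∀ x, x ≠ root → ∀ y ∈ bg x, y ≠ x → y ∈ bg (par x))
    (h3 : ∀ y ∈ bg root, y = root) (h4 : ∀ x, x ≠ root → rk (par x) < rk x)
    (h6 : par root = root)
    (hcard : ∀ x, (bg x).card ≤ 5) (A : X → X → Prop)
    (h5 : ∀ u v, A u v → ∃ x, u ∈ bg x ∧ v ∈ bg x) :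
    ∃ (m : ℕ) (T : SimpleGraph (Fin m)) (bag : Fin m → Finset X),
      T.IsTree ∧ (∀ i, (bag i).card ≤ 5) ∧ (∀ v, ∃ i, v ∈ bag i) ∧
      (∀ u v, A u v → ∃ i, u ∈ bag i ∧ v ∈ bag i) ∧
      (∀ v, (T.induce {i | v ∈ bag i}).Connected) := by
  obtain ⟨e⟩ := Fintype.truncEquivFin X |>.nonempty
  set m := Fintype.card X with hm
  let T : SimpleGraph (Fin m) := SimpleGraph.fromRel (fun i j => e (par (e.symm i)) = j)
  let bag : Fin m → Finset X := fun i => bg (e.symm i)
  have hTp : ∀ x, x ≠ root → T.Adj (e x) (e (par x)) := by
    intro x hx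
    rw [SimpleGraph.fromRel_adj]
    refine ⟨?_, Or.inl (by simp)⟩
    intro h
    have h' := e.injective h
    have := h4 x hx
    rw [← h'] at this
    exact lt_irrefl _ this
  -- every vertex reaches the root
  have hconn : T.Connected := by
    have hreach : ∀ k x, rk x ≤ k → T.Reachable (e x) (e root) := by
      intro k
      induction k with
      | zero =>
        intro x hx
        by_cases hr : x = root
        · rw [hr]
        · have := h4 x hr
          omega
      | succ k ih =>
        intro x hx
        by_cases hr : x = root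
        · rw [hr]
        · exact (hTp x hr).reachable.trans (ih (par x) (by have := h4 x hr; omega))
    have : Nonempty (Fin m) := ⟨e root⟩
    refine SimpleGraph.Connected.mk ?_
    intro i j
    have hi := hreach _ (e.symm i) (le_refl _)
    have hj := hreach _ (e.symm j) (le_refl _)
    rw [e.apply_symm_apply] at hi hj
    exact hi.trans hj.symm
  refine ⟨m, T, bag, ?_, fun i => hcard _, fun v => ⟨e v, by simp only [bag]; simpa using h1 v⟩,
    ?_, ?_⟩
  · rw [SimpleGraph.isTree_iff_connected_and_card]
    refine ⟨hconn, ?_⟩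
    apply le_antisymm _ (hconn.card_vert_le_card_edgeSet_add_one)
    -- the edges are the images of the non-root vertices
    have hsub : T.edgeSet ⊆
        ((Finset.univ.erase root).image (fun x => s(e x, e (par x))) : Finset (Sym2 (Fin m))) := by
      intro ed hed
      induction ed with
      | h i j =>
        rw [SimpleGraph.mem_edgeSet, SimpleGraph.fromRel_adj] at hed
        obtain ⟨hij, hed⟩ := hed
        have hex : ∀ i j : Fin m, i ≠ j → e (par (e.symm i)) = j →
            s(i, j) ∈ ((Finset.univ.erase root).image (fun x => s(e x, e (par x))) :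
              Finset (Sym2 (Fin m))) := by
          intro i j hij hp
          rw [Finset.mem_image]
          refine ⟨e.symm i, ?_, ?_⟩
          · rw [Finset.mem_erase]
            refine ⟨?_, Finset.mem_univ _⟩
            intro h
            apply hij
            rw [h, h6, ← h, e.apply_symm_apply] at hp
            exact hp
          · rw [hp, e.apply_symm_apply]
        rcases hed with hed | hed
        · exact hex i j hij hed
        · rw [Sym2.eq_swap]
          exact hex j i hij.symm hed
    have hc1 : Nat.card T.edgeSet ≤ Fintype.card X - 1 := by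
      have hA := Nat.card_mono (Finset.finite_toSet _) hsub
      rw [Nat.card_coe_set_eq, Nat.card_coe_set_eq, Set.ncard_coe_finset] at hA
      rw [Nat.card_coe_set_eq]
      refine hA.trans (Finset.card_image_le.trans ?_)
      rw [Finset.card_erase_of_mem (Finset.mem_univ _), Finset.card_univ]
    have hpos : 0 < Fintype.card X := Fintype.card_pos_iff.2 ⟨root⟩
    have hcm : Nat.card (Fin m) = m := by simp
    rw [hcm]
    omega
  · intro u v huv
    obtain ⟨x, hu, hv⟩ := h5 u v huv
    exact ⟨e x, by simp only [bag]; simpa using hu, by simp only [bag]; simpa using hv⟩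
  · intro v
    have hv0 : v ∈ bag (e v) := by
      simp only [bag]; simpa using h1 v
    have hreach : ∀ k x, rk x ≤ k → ∀ hx : v ∈ bag (e x),
        (T.induce {i | v ∈ bag i}).Reachable ⟨e x, hx⟩ ⟨e v, hv0⟩ := by
      intro k
      have step : ∀ x, x ≠ v → ∀ hx : v ∈ bag (e x), x ≠ root ∧ ∃ hp : v ∈ bag (e (par x)),
          (T.induce {i | v ∈ bag i}).Adj ⟨e x, hx⟩ ⟨e (par x), hp⟩ := by
        intro x hxv hx
        have hx' : v ∈ bg x := by simpa [bag] using hx
        have hr : x ≠ root := by
          rintro rfl
          exact hxv (h3 v hx').symm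
        have hp : v ∈ bg (par x) := h2 x hr v hx' (Ne.symm hxv)
        exact ⟨hr, by simpa [bag] using hp, hTp x hr⟩
      induction k with
      | zero =>
        intro x hx hxv
        by_cases hv : x = v
        · subst hv
          exact SimpleGraph.Reachable.refl _
        · obtain ⟨hr, _⟩ := step x hv hxv
          have := h4 x hr
          omega
      | succ k ih =>
        intro x hx hxv
        by_cases hv : x = v
        · subst hv
          exact SimpleGraph.Reachable.refl _
        · obtain ⟨hr, hp, hadj⟩ := step x hv hxv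
          exact hadj.reachable.trans (ih (par x) (by have := h4 x hr; omega) hp)
    have : Nonempty {i | v ∈ bag i} := ⟨⟨e v, hv0⟩⟩
    refine SimpleGraph.Connected.mk ?_
    rintro ⟨i, hi⟩ ⟨j, hj⟩
    obtain ⟨x, rfl⟩ := e.surjective i
    obtain ⟨y, rfl⟩ := e.surjective j
    exact (hreach _ x (le_refl _) hi).trans (hreach _ y (le_refl _) hj).symm

/-- the tree decomposition of a piece -/
theorem tw_td {V : Type} [Fintype V] [DecidableEq (W V)] {A : W V → W V → Prop} (h : TW A) :
    ∃ (m : ℕ) (T : SimpleGraph (Fin m)) (bag : Fin m → Finset (W V)),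
      T.IsTree ∧ (∀ i, (bag i).card ≤ 5) ∧ (∀ v, ∃ i, v ∈ bag i) ∧
      (∀ u v, A u v → ∃ i, u ∈ bag i ∧ v ∈ bag i) ∧
      (∀ v, (T.induce {i | v ∈ bag i}).Connected) := by
  obtain ⟨P, par, rk, h1, h2, h3⟩ := h
  let pt : W V → Fin 4 → W V := fun x => match x with
    | Sum.inl c => if c = 0 then (fun _ => Sum.inl 0) else if c = 1 then (fun _ => Sum.inl 0) else
        ![Sum.inl 0, Sum.inl 1, Sum.inl 1, Sum.inl 1]
    | Sum.inr v => P v
  let bg : W V → Finset (W V) := fun x => insert x (Finset.univ.image (pt x))
  let pr : W V → W V := fun x => match x with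
    | Sum.inl c => if c = 0 then Sum.inl 0 else if c = 1 then Sum.inl 0 else Sum.inl 1
    | Sum.inr v => match par v with
      | none => Sum.inl 2
      | some u => Sum.inr u
  let rr : W V → ℕ := fun x => match x with
    | Sum.inl c => c.val
    | Sum.inr v => 3 + rk v
  have mem : ∀ x y, y ∈ bg x ↔ y = x ∨ ∃ i, y = pt x i := by
    intro x y
    simp only [bg, Finset.mem_insert, Finset.mem_image, Finset.mem_univ, true_and]
    constructor
    · rintro (h | ⟨i, h⟩)
      · exact Or.inl h
      · exact Or.inr ⟨i, h.symm⟩
    · rintro (h | ⟨i, h⟩)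
      · exact Or.inl h
      · exact Or.inr ⟨i, h.symm⟩
  have b2 : ∀ c : Fin 3, (Sum.inl c : W V) ∈ bg (Sum.inl 2) := by
    intro c
    rw [mem]
    fin_cases c
    · exact Or.inr ⟨0, rfl⟩
    · exact Or.inr ⟨1, rfl⟩
    · exact Or.inl rfl
  apply td bg pr rr (Sum.inl 0)
  · intro x
    exact Finset.mem_insert_self _ _
  · intro x hx y hy hyx
    rw [mem] at hy
    rcases hy with hy | ⟨i, hy⟩
    · exact absurd hy hyx
    rcases x with c | v
    · have hc : c = 0 ∨ c = 1 ∨ c = 2 := by fin_cases c <;> simp
      rcases hc with rfl | rfl | rfl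
      · exact absurd rfl hx
      · rw [mem]
        left
        exact hy
      · rw [mem]
        have hy' : y = (![Sum.inl 0, Sum.inl 1, Sum.inl 1, Sum.inl 1] : Fin 4 → W V) i := hy
        fin_cases i
        · exact Or.inr ⟨0, hy'⟩
        · exact Or.inl hy'
        · exact Or.inl hy'
        · exact Or.inl hy'
    · have hy' : y = P v i := hy
      cases hp : par v with
      | none =>
        have e : pr (Sum.inr v) = Sum.inl 2 := by simp only [pr, hp]
        rw [e, hy']
        obtain ⟨c, hc⟩ := h2 v hp i
        rw [hc]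
        exact b2 c
      | some u =>
        have e : pr (Sum.inr v) = Sum.inr u := by simp only [pr, hp]
        rw [e, mem, hy']
        rcases (h1 v u hp).2 i with g | ⟨j, g⟩
        · exact Or.inl g
        · exact Or.inr ⟨j, g⟩
  · intro y hy
    rw [mem] at hy
    rcases hy with hy | ⟨i, hy⟩
    · exact hy
    · exact hy
  · intro x hx
    rcases x with c | v
    · have hc : c = 0 ∨ c = 1 ∨ c = 2 := by fin_cases c <;> simp
      rcases hc with rfl | rfl | rfl
      · exact absurd rfl hx
      · show 0 < 1
        exact one_pos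
      · show 1 < 2
        exact one_lt_two
    · cases hp : par v with
      | none =>
        have e : pr (Sum.inr v) = Sum.inl 2 := by simp only [pr, hp]
        rw [e]
        show 2 < 3 + rk v
        omega
      | some u =>
        have e : pr (Sum.inr v) = Sum.inr u := by simp only [pr, hp]
        rw [e]
        have := (h1 v u hp).1
        show 3 + rk u < 3 + rk v
        omega
  · rfl
  · intro x
    refine (Finset.card_insert_le _ _).trans ?_
    have := (Finset.card_image_le (s := (Finset.univ : Finset (Fin 4))) (f := pt x))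
    simp only [Finset.card_univ, Fintype.card_fin] at this
    omega
  · intro x y hxy
    rcases h3 x y hxy with ⟨v, i, rfl, hx⟩ | ⟨v, i, rfl, hx⟩ | ⟨c, c', rfl, rfl⟩
    · refine ⟨Sum.inr v, ?_, ?_⟩
      · rw [mem]; exact Or.inr ⟨i, hx⟩
      · rw [mem]; exact Or.inl rfl
    · refine ⟨Sum.inr v, ?_, ?_⟩
      · rw [mem]; exact Or.inl rfl
      · rw [mem]; exact Or.inr ⟨i, hx⟩
    · exact ⟨Sum.inl 2, b2 c, b2 c'⟩

end Pool.Agent.N398
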