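import Pool.Agent.N398.Kb

set_option autoImplicit false

namespace Pool.Agent.N398

open Pool.Agent.Helper745.FSub

theorem line_avoid_aux (u v w p q r : ℝ) (hu : 0 < u) (hv : 0 < v) (hw : 0 < w) (hp : 0 ≤ p)
    (hq : 0 ≤ q) (hr : 0 ≤ r) (h : u * p + v * q + w * r = 0) : p = 0 ∧ q = 0 ∧ r = 0 := by
  have h1 : 0 ≤ u * p := mul_nonneg hu.le hp
  have h2 : 0 ≤ v * q := mul_nonneg hv.le hq
  have h3 : 0 ≤ w * r := mul_nonneg hw.le hr
  have h4 : u * p = 0 := by linarith
  have h5 : v * q = 0 := by linarith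
  have h6 : w * r = 0 := by linarith
  exact ⟨(mul_eq_zero.1 h4).resolve_left hu.ne', (mul_eq_zero.1 h5).resolve_left hv.ne',
    (mul_eq_zero.1 h6).resolve_left hw.ne'⟩

/-- inside a triangle with corners in the closed upper half plane the height is positive -/
theorem high {a b c x : Pt} (hx : inT a b c x) (ha : 0 ≤ a.2) (hb : 0 ≤ b.2) (hc : 0 ≤ c.2) :
    0 < x.2 := by
  have id1 : ori a b c * x.2 = ori b c x * a.2 + ori c a x * b.2 + ori a b x * c.2 := by
    unfold ori
    ring
  have id2 : ori a b c = ori b c x + ori c a x + ori a b x := by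
    unfold ori
    ring
  rcases hx with ⟨h1, h2, h3⟩ | ⟨h1, h2, h3⟩
  · have hz : 0 < ori a b c := by rw [id2]; linarith
    have k1 := mul_nonneg h2.le ha
    have k2 := mul_nonneg h3.le hb
    have k3 := mul_nonneg h1.le hc
    have k : 0 ≤ ori a b c * x.2 := by rw [id1]; linarith
    rcases k.eq_or_lt with k | k
    · exfalso
      have := line_avoid_aux _ _ _ _ _ _ h2 h3 h1 ha hb hc (id1.symm.trans k.symm)
      apply hz.ne'
      unfold ori
      rw [this.1, this.2.1, this.2.2]
      ring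
    · exact (mul_pos_iff_of_pos_left hz).1 k
  · have hz : ori a b c < 0 := by rw [id2]; linarith
    have k1 := mul_nonneg (neg_nonneg.2 h2.le) ha
    have k2 := mul_nonneg (neg_nonneg.2 h3.le) hb
    have k3 := mul_nonneg (neg_nonneg.2 h1.le) hc
    have k : 0 ≤ (-ori a b c) * x.2 := by
      have : (-ori a b c) * x.2 = -(ori a b c * x.2) := by ring
      rw [this, id1]; linarith
    rcases k.eq_or_lt with k | k
    · exfalso
      have := line_avoid_aux (-ori b c x) (-ori c a x) (-ori a b x) _ _ _ (by linarith)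
        (by linarith) (by linarith) ha hb hc (by
          have e : (-ori a b c) * x.2 = -(ori a b c * x.2) := by ring
          rw [e, id1] at k
          linarith)
      apply hz.ne
      unfold ori
      rw [this.1, this.2.1, this.2.2]
      ring
    · exact (mul_pos_iff_of_pos_left (by linarith)).1 k

/-- reflection at the horizontal axis -/
def rfl2 (a : Pt) : Pt := (a.1, -a.2)

theorem rfl2_ori (a b c : Pt) : ori (rfl2 a) (rfl2 b) (rfl2 c) = - ori a b c := by
  unfold ori rfl2
  ring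

theorem rfl2_inT {a b c x : Pt} (hx : inT a b c x) : inT (rfl2 a) (rfl2 b) (rfl2 c) (rfl2 x) := by
  unfold inT
  rw [rfl2_ori, rfl2_ori, rfl2_ori]
  rcases hx with ⟨h1, h2, h3⟩ | ⟨h1, h2, h3⟩
  · exact Or.inr ⟨by linarith, by linarith, by linarith⟩
  · exact Or.inl ⟨by linarith, by linarith, by linarith⟩

theorem low {a b c x : Pt} (hx : inT a b c x) (ha : a.2 ≤ 0) (hb : b.2 ≤ 0) (hc : c.2 ≤ 0) :
    x.2 < 0 := by
  have := high (rfl2_inT hx) (by simp only [rfl2]; linarith) (by simp only [rfl2]; linarith)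
    (by simp only [rfl2]; linarith)
  simp only [rfl2] at this
  linarith

theorem cyc {a b c p : Pt} (h : inT a b c p) : inT b c a p := by
  rcases h with ⟨h1, h2, h3⟩ | ⟨h1, h2, h3⟩
  · exact Or.inl ⟨h2, h3, h1⟩
  · exact Or.inr ⟨h2, h3, h1⟩

theorem swp {a b c p : Pt} (h : inT a b c p) : inT b a c p := by
  have e1 : ori b a p = - ori a b p := by unfold ori; ring
  have e2 : ori a c p = - ori c a p := by unfold ori; ring
  have e3 : ori c b p = - ori b c p := by unfold ori; ring
  unfold inT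
  rw [e1, e2, e3]
  rcases h with ⟨h1, h2, h3⟩ | ⟨h1, h2, h3⟩
  · exact Or.inr ⟨by linarith, by linarith, by linarith⟩
  · exact Or.inl ⟨by linarith, by linarith, by linarith⟩

theorem pm {a b c p : Pt} (h : inT a b c p) : inT a b c p ∧ inT b c a p ∧ inT c a b p ∧
    inT b a c p ∧ inT a c b p ∧ inT c b a p :=
  ⟨h, cyc h, cyc (cyc h), swp h, cyc (swp h), cyc (cyc (swp h))⟩

/-- number of points on the horizontal axis -/
noncomputable def zc {V : Type} [Fintype V] (g : V → Pt) : ℕ :=
  ∑ v, if (g v).2 = 0 then 1 else 0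

theorem zc_le {V : Type} [Fintype V] (g : V → Pt) : zc g ≤ Fintype.card V := by
  unfold zc
  exact (Finset.sum_le_card_nsmul _ _ 1 (fun v _ => by split_ifs <;> simp)).trans (by simp)

theorem zc_zero {V : Type} [Fintype V] (g : V → Pt) (h : ∀ v, (g v).2 ≠ 0) : zc g = 0 := by
  unfold zc
  exact Finset.sum_eq_zero (fun v _ => if_neg (h v))

theorem zc_gl {I F V : Type} [Fintype I] [Fintype F] [Fintype V] (f : W (I ⊕ F × V) → Pt) :
    zc (fun v => f (Sum.inr v)) = zc (fun k => f (Sum.inr (Sum.inl k))) +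
      ∑ m, zc (fun v => f (Sum.inr (Sum.inr (m, v)))) := by
  unfold zc
  rw [Fintype.sum_sum_type, Fintype.sum_prod_type]

/-- all inner vertices are inside the outer triangle -/
def Ins {V : Type} (f : W V → Pt) : Prop :=
  ∀ v, inT (f (Sum.inl 0)) (f (Sum.inl 1)) (f (Sum.inl 2)) (f (Sum.inr v))

def UB {V : Type} [Fintype V] (A : W V → W V → Prop) (U : ℕ) : Prop :=
  ∀ f : W V → Pt, Drw A f → Ins f → zc (fun v => f (Sum.inr v)) ≤ U

def UBp {V : Type} [Fintype V] (A : W V → W V → Prop) (U : ℕ) : Prop :=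
  ∀ f : W V → Pt, Drw A f → Ins f → 0 < (f (Sum.inl 1)).2 * (f (Sum.inl 2)).2 →
    zc (fun v => f (Sum.inr v)) ≤ U

def AB {V : Type} [Fintype V] (A : W V → W V → Prop) (U : ℕ) : Prop :=
  ∀ f : W V → Pt, Drw A f → zc (fun v => f (Sum.inr v)) ≤ U

theorem ins_zero {V : Type} [Fintype V] {f : W V → Pt} (hi : Ins f)
    (h : (0 ≤ (f (Sum.inl 0)).2 ∧ 0 ≤ (f (Sum.inl 1)).2 ∧ 0 ≤ (f (Sum.inl 2)).2) ∨
      ((f (Sum.inl 0)).2 ≤ 0 ∧ (f (Sum.inl 1)).2 ≤ 0 ∧ (f (Sum.inl 2)).2 ≤ 0)) :
    zc (fun v => f (Sum.inr v)) = 0 := by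
  apply zc_zero
  intro v
  rcases h with ⟨h1, h2, h3⟩ | ⟨h1, h2, h3⟩
  · exact (high (hi v) h1 h2 h3).ne'
  · exact (low (hi v) h1 h2 h3).ne

section K

variable {F V : Type} {φ : F → Fin 3} {A : W V → W V → Prop}
  {f : W (Unit ⊕ F × V) → Pt}

theorem k4_bv {x y z w : W Unit} (h1 : x ≠ y) (h2 : x ≠ z) (h3 : x ≠ w) (h4 : y ≠ z)
    (h5 : y ≠ w) (h6 : z ≠ w) :
    K4 (gl (kB φ) A) (bv F V x) (bv F V y) (bv F V z) (bv F V w) where
  ab := gl_b (A := A) h1
  ac := gl_b (A := A) h2
  ad := gl_b (A := A) h3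
  bc := gl_b (A := A) h4
  bd := gl_b (A := A) h5
  cd := gl_b (A := A) h6
  nab := fun h => h1 (bv_inj h)
  nac := fun h => h2 (bv_inj h)
  nad := fun h => h3 (bv_inj h)
  nbc := fun h => h4 (bv_inj h)
  nbd := fun h => h5 (bv_inj h)
  ncd := fun h => h6 (bv_inj h)

theorem at_bv (hA : POK A) (m : F) (u : W Unit) (hu : u ≠ Sum.inl (φ m)) :
    At (gl (kB φ) A) (blob (I := Unit) V m) (bv F V u) := by
  rcases u with c | ⟨⟩
  · have := blob_at (kB φ) m hA.att c
    have e : (kB φ).face m c = Sum.inl c := by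
      simp only [kB]
      rw [if_neg]
      intro h
      exact hu (by rw [h])
    rwa [e] at this
  · have := blob_at (kB φ) m hA.att (φ m)
    have e : (kB φ).face m (φ m) = Sum.inr () := by
      simp [kB]
    rwa [e] at this

theorem kin (hA : POK A) (hD : Drw (gl (kB φ) A) f) (m : F) (x y w : W Unit)
    (hxy : x ≠ y) (hxw : x ≠ w) (hyw : y ≠ w) (hx : x ≠ Sum.inl (φ m)) (hy : y ≠ Sum.inl (φ m))
    (hw : w ≠ Sum.inl (φ m))
    (h : inT (f (bv F V x)) (f (bv F V y)) (f (bv F V (Sum.inl (φ m)))) (f (bv F V w))) (v : V) :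
    inT (f (bv F V x)) (f (bv F V y)) (f (bv F V w)) (f (Sum.inr (Sum.inr (m, v)))) :=
  k4in hD (gl_sy (fun _ _ h => Ne.symm h) hA.sy) (k4_bv hxy hx hxw hy hyw hw.symm) h
    (blob_cn (kB φ) m hA.cn) (at_bv hA m x hx) (at_bv hA m y hy) (at_bv hA m w hw)
    (blob_nb m x) (blob_nb m y) (blob_nb m _) (blob_nb m w) _ ⟨v, rfl⟩

/-- the base vertex `s` is inside the triangle of the other three base vertices -/
def InK (F V : Type) (f : W (Unit ⊕ F × V) → Pt) : W Unit → Prop
  | Sum.inl 0 => inT (f (bv F V (Sum.inr ()))) (f (bv F V (Sum.inl 1))) (f (bv F V (Sum.inl 2)))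
      (f (bv F V (Sum.inl 0)))
  | Sum.inl 1 => inT (f (bv F V (Sum.inl 0))) (f (bv F V (Sum.inr ()))) (f (bv F V (Sum.inl 2)))
      (f (bv F V (Sum.inl 1)))
  | Sum.inl 2 => inT (f (bv F V (Sum.inl 0))) (f (bv F V (Sum.inl 1))) (f (bv F V (Sum.inr ())))
      (f (bv F V (Sum.inl 2)))
  | Sum.inr _ => inT (f (bv F V (Sum.inl 0))) (f (bv F V (Sum.inl 1))) (f (bv F V (Sum.inl 2)))
      (f (bv F V (Sum.inr ())))

theorem kIns (hA : POK A) (hD : Drw (gl (kB φ) A) f) (m : F) (s : W Unit) (hs : InK F V f s)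
    (hsm : s ≠ Sum.inl (φ m)) : Ins (fun x => f (cv (kB φ) m x)) := by
  intro v
  have K := kin hA hD m
  have h3 : φ m = 0 ∨ φ m = 1 ∨ φ m = 2 := by
    generalize φ m = t
    fin_cases t <;> simp
  simp only [cv, kB]
  rcases h3 with h | h | h <;> rw [h] at hsm K ⊢
  · simp only [Fin.isValue, reduceIte, Fin.reduceEq]
    rcases kcas s with rfl | rfl | rfl | rfl <;> obtain ⟨p1, p2, p3, p4, p5, p6⟩ := pm hs
    · exact absurd rfl hsm
    · have g := K (Sum.inl 2) (Sum.inr ()) (Sum.inl 1) (by simp) (by simp) (by simp) (by simp) (by simp)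
        (by simp) (by first | exact p1 | exact p2 | exact p3 | exact p4 | exact p5 | exact p6) v
      obtain ⟨g1, g2, g3, g4, g5, g6⟩ := pm g
      first | exact g1 | exact g2 | exact g3 | exact g4 | exact g5 | exact g6
    · have g := K (Sum.inl 1) (Sum.inr ()) (Sum.inl 2) (by simp) (by simp) (by simp) (by simp) (by simp)
        (by simp) (by first | exact p1 | exact p2 | exact p3 | exact p4 | exact p5 | exact p6) v
      obtain ⟨g1, g2, g3, g4, g5, g6⟩ := pm g
      first | exact g1 | exact g2 | exact g3 | exact g4 | exact g5 | exact g6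
    · have g := K (Sum.inl 1) (Sum.inl 2) (Sum.inr ()) (by simp) (by simp) (by simp) (by simp) (by simp)
        (by simp) (by first | exact p1 | exact p2 | exact p3 | exact p4 | exact p5 | exact p6) v
      obtain ⟨g1, g2, g3, g4, g5, g6⟩ := pm g
      first | exact g1 | exact g2 | exact g3 | exact g4 | exact g5 | exact g6
  · simp only [Fin.isValue, reduceIte, Fin.reduceEq]
    rcases kcas s with rfl | rfl | rfl | rfl <;> obtain ⟨p1, p2, p3, p4, p5, p6⟩ := pm hs
    · have g := K (Sum.inl 2) (Sum.inr ()) (Sum.inl 0) (by simp) (by simp) (by simp) (by simp) (by simp)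
        (by simp) (by first | exact p1 | exact p2 | exact p3 | exact p4 | exact p5 | exact p6) v
      obtain ⟨g1, g2, g3, g4, g5, g6⟩ := pm g
      first | exact g1 | exact g2 | exact g3 | exact g4 | exact g5 | exact g6
    · exact absurd rfl hsm
    · have g := K (Sum.inl 0) (Sum.inr ()) (Sum.inl 2) (by simp) (by simp) (by simp) (by simp) (by simp)
        (by simp) (by first | exact p1 | exact p2 | exact p3 | exact p4 | exact p5 | exact p6) v
      obtain ⟨g1, g2, g3, g4, g5, g6⟩ := pm g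
      first | exact g1 | exact g2 | exact g3 | exact g4 | exact g5 | exact g6
    · have g := K (Sum.inl 0) (Sum.inl 2) (Sum.inr ()) (by simp) (by simp) (by simp) (by simp) (by simp)
        (by simp) (by first | exact p1 | exact p2 | exact p3 | exact p4 | exact p5 | exact p6) v
      obtain ⟨g1, g2, g3, g4, g5, g6⟩ := pm g
      first | exact g1 | exact g2 | exact g3 | exact g4 | exact g5 | exact g6
  · simp only [Fin.isValue, reduceIte, Fin.reduceEq]
    rcases kcas s with rfl | rfl | rfl | rfl <;> obtain ⟨p1, p2, p3, p4, p5, p6⟩ := pm hs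
    · have g := K (Sum.inl 1) (Sum.inr ()) (Sum.inl 0) (by simp) (by simp) (by simp) (by simp) (by simp)
        (by simp) (by first | exact p1 | exact p2 | exact p3 | exact p4 | exact p5 | exact p6) v
      obtain ⟨g1, g2, g3, g4, g5, g6⟩ := pm g
      first | exact g1 | exact g2 | exact g3 | exact g4 | exact g5 | exact g6
    · have g := K (Sum.inl 0) (Sum.inr ()) (Sum.inl 1) (by simp) (by simp) (by simp) (by simp) (by simp)
        (by simp) (by first | exact p1 | exact p2 | exact p3 | exact p4 | exact p5 | exact p6) v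
      obtain ⟨g1, g2, g3, g4, g5, g6⟩ := pm g
      first | exact g1 | exact g2 | exact g3 | exact g4 | exact g5 | exact g6
    · exact absurd rfl hsm
    · have g := K (Sum.inl 0) (Sum.inl 1) (Sum.inr ()) (by simp) (by simp) (by simp) (by simp) (by simp)
        (by simp) (by first | exact p1 | exact p2 | exact p3 | exact p4 | exact p5 | exact p6) v
      obtain ⟨g1, g2, g3, g4, g5, g6⟩ := pm g
      first | exact g1 | exact g2 | exact g3 | exact g4 | exact g5 | exact g6

end K

theorem ch_drw {I F V : Type} {B : Bas I F} {A : W V → W V → Prop} (hB : BOK B)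
    {f : W (I ⊕ F × V) → Pt} (hD : Drw (gl B A) f) (m : F) : Drw A (fun x => f (cv B m x)) :=
  drw_comp hD (cv_inj B m (hB.finj m)) (fun _ _ h => gl_c h)

/-- the base of the nested construction -/
def nB : Bas Unit Unit := kB (fun _ => 0)

theorem nB_ok : BOK nB := kb_ok _ (fun _ _ _ => rfl)

/-- the base of the stacked construction -/
def sB : Bas Unit (Fin 3) := kB (fun m => m)

theorem sB_ok : BOK sB := kb_ok _ (fun _ _ h => h)

theorem ub_nst {V : Type} [Fintype V] {A : W V → W V → Prop} (hA : POK A) {U : ℕ} (h : UB A U) :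
    UB (gl nB A) (U + 1) := by
  intro f hD hi
  have h1 := kIns (φ := fun _ : Unit => (0 : Fin 3)) hA hD () (Sum.inr ()) (hi (Sum.inl ()))
    (by simp)
  have h2 := h _ (ch_drw nB_ok hD ()) h1
  rw [zc_gl]
  have h3 := zc_le (fun k : Unit => f (Sum.inr (Sum.inl k)))
  have h4 : ∑ m : Unit, zc (fun v => f (Sum.inr (Sum.inr (m, v)))) =
      zc (fun v => f (cv nB () (Sum.inr v))) := by
    rw [Fintype.sum_unique]
    rfl
  rw [h4]
  simp only [Fintype.card_unit] at h3
  omega

theorem ubp_nst {V : Type} [Fintype V] {A : W V → W V → Prop} (hA : POK A) {U : ℕ} (h : UBp A U)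
    (hU : 1 ≤ U) : UBp (gl nB A) U := by
  intro f hD hi hpos
  have h1 : Ins (fun x => f (cv nB () x)) :=
    kIns (φ := fun _ : Unit => (0 : Fin 3)) hA hD () (Sum.inr ()) (hi (Sum.inl ())) (by simp)
  rw [zc_gl]
  have h3 := zc_le (fun k : Unit => f (Sum.inr (Sum.inl k)))
  have h4 : ∑ m : Unit, zc (fun v => f (Sum.inr (Sum.inr (m, v)))) =
      zc (fun v => f (cv nB () (Sum.inr v))) := by
    rw [Fintype.sum_unique]
    rfl
  rw [h4]
  simp only [Fintype.card_unit] at h3
  by_cases hx : (f (Sum.inr (Sum.inl ()))).2 = 0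
  · have h5 : zc (fun v => f (cv nB () (Sum.inr v))) = 0 := by
      apply ins_zero h1
      have e0 : f (cv nB () (Sum.inl 0)) = f (Sum.inr (Sum.inl ())) := rfl
      have e1 : f (cv nB () (Sum.inl 1)) = f (Sum.inl 1) := rfl
      have e2 : f (cv nB () (Sum.inl 2)) = f (Sum.inl 2) := rfl
      simp only [e0, e1, e2, hx]
      rcases (mul_pos_iff.1 hpos) with ⟨g1, g2⟩ | ⟨g1, g2⟩
      · exact Or.inl ⟨le_refl _, g1.le, g2.le⟩
      · exact Or.inr ⟨le_refl _, g1.le, g2.le⟩
    omega
  · have h5 : zc (fun k : Unit => f (Sum.inr (Sum.inl k))) = 0 :=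
      zc_zero _ (fun k => hx)
    have h6 := h _ (ch_drw nB_ok hD ()) h1 hpos
    omega

theorem ub_stk {V : Type} [Fintype V] {A : W V → W V → Prop} (hA : POK A) {U : ℕ} (h : UB A U) :
    UB (gl sB A) (3 * U + 1) := by
  intro f hD hi
  have h1 := fun m : Fin 3 => kIns (φ := fun m : Fin 3 => m) hA hD m (Sum.inr ())
    (hi (Sum.inl ())) (by simp)
  have h2 := fun m : Fin 3 => h _ (ch_drw sB_ok hD m) (h1 m)
  rw [zc_gl, Fin.sum_univ_three]
  have h3 := zc_le (fun k : Unit => f (Sum.inr (Sum.inl k)))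
  simp only [Fintype.card_unit] at h3
  have k0 := h2 0
  have k1 := h2 1
  have k2 := h2 2
  simp only [cv] at k0 k1 k2
  omega

theorem ab_stk {V : Type} [Fintype V] {A : W V → W V → Prop} (hA : POK A) {U U' : ℕ} (h : UB A U)
    (h' : AB A U') (hU : U ≤ U') : AB (gl sB A) (2 * U + U' + 1) := by
  intro f hD
  have hK : ∃ s : W Unit, InK (Fin 3) V f s := by
    have hk := k4 hD (gl_sy sB_ok.sy hA.sy)
      (k4_bv (F := Fin 3) (V := V) (φ := fun m => m) (A := A) (x := Sum.inl 0) (y := Sum.inl 1)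
        (z := Sum.inl 2) (w := Sum.inr ()) (by simp) (by simp) (by simp) (by simp) (by simp)
        (by simp))
    rcases hk with hk | hk | hk | hk
    · exact ⟨Sum.inr (), hk⟩
    · exact ⟨Sum.inl 0, (pm hk).2.2.1⟩
    · exact ⟨Sum.inl 1, (pm hk).2.2.2.2.1⟩
    · exact ⟨Sum.inl 2, hk⟩
  obtain ⟨s, hs⟩ := hK
  have h1 := fun (m : Fin 3) (hm : s ≠ Sum.inl m) =>
    h _ (ch_drw sB_ok hD m) (kIns (φ := fun m : Fin 3 => m) hA hD m s hs hm)
  have h2 := fun (m : Fin 3) => h' _ (ch_drw sB_ok hD m)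
  rw [zc_gl, Fin.sum_univ_three]
  have h3 := zc_le (fun k : Unit => f (Sum.inr (Sum.inl k)))
  simp only [Fintype.card_unit] at h3
  have k0 := h2 0
  have k1 := h2 1
  have k2 := h2 2
  have l0 := h1 0
  have l1 := h1 1
  have l2 := h1 2
  simp only [cv] at k0 k1 k2 l0 l1 l2
  rcases kcas s with rfl | rfl | rfl | rfl
  · have := l1 (by simp)
    have := l2 (by simp)
    omega
  · have := l0 (by simp)
    have := l2 (by simp)
    omega
  · have := l0 (by simp)
    have := l1 (by simp)
    omega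
  · have := l0 (by simp)
    have := l1 (by simp)
    have := l2 (by simp)
    omega

/-- an inner vertex adjacent to all corners -/
def Ctr {V : Type} (A : W V → W V → Prop) : Prop := ∃ x : V, ∀ i, A (Sum.inr x) (Sum.inl i)

theorem ctr_nst {V : Type} {A : W V → W V → Prop} : Ctr (gl nB A) := by
  refine ⟨Sum.inl (), fun i => ?_⟩
  exact gl_b (B := nB) (A := A) (i := Sum.inr ()) (j := Sum.inl i) (by simp [nB, kB])

/-- chains -/
theorem chain (m : ℕ) : ∀ {V : Type} [Fintype V] {A : W V → W V → Prop} (_ : POK A) {U : ℕ}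
    (_ : UB A U) (_ : 1 ≤ U), ∃ (V' : Type) (_ : Fintype V') (A' : W V' → W V' → Prop),
      POK A' ∧ UB A' (U + m) ∧ UBp A' U ∧ Fintype.card V' = Fintype.card V + m ∧
      (0 < m → Ctr A') := by
  induction m with
  | zero =>
    intro V _ A hA U hU _
    exact ⟨V, inferInstance, A, hA, hU, fun f hD hi _ => hU f hD hi, rfl,
      fun h => absurd h (lt_irrefl 0)⟩
  | succ m ih =>
    intro V _ A hA U hU h1
    obtain ⟨V', i', A', g1, g2, g3, g4, _⟩ := ih hA hU h1
    refine ⟨Unit ⊕ Unit × V', inferInstance, gl nB A', gl_ok nB_ok g1, ub_nst g1 g2,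
      ubp_nst g1 g3 h1, ?_, fun _ => ctr_nst⟩
    simp only [Fintype.card_sum, Fintype.card_unit, Fintype.card_prod, g4]
    omega

/-- the trivial piece -/
theorem triv : ∃ (V : Type) (_ : Fintype V) (A : W V → W V → Prop), POK A ∧
    Fintype.card V = 1 := by
  -- glue nothing into `K₄`
  refine ⟨Unit ⊕ Empty × Empty, inferInstance,
    gl (kB (fun e : Empty => e.elim)) (fun _ _ : W Empty => False), ?_, by simp⟩
  have hB : BOK (kB (fun e : Empty => (e.elim : Fin 3))) := kb_ok _ (fun e => e.elim)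
  refine ⟨gl_sy hB.sy (fun _ _ h => h), gl_irr hB.irr hB.finj (fun _ h => h),
    fun i j hij => gl_b (hB.cc i j hij), ⟨Sum.inl ()⟩, ?_, ?_, ?_, ?_⟩
  · intro S hS hne hcl
    apply Set.Subset.antisymm hS
    rintro _ ⟨x, rfl⟩
    obtain ⟨y, hy⟩ := hne
    obtain ⟨z, rfl⟩ := hS hy
    rcases x with x | ⟨x, _⟩
    · rcases z with z | ⟨z, _⟩
      · exact hy
      · exact z.elim
    · exact x.elim
  · intro c
    obtain ⟨k, hk⟩ := hB.att c
    exact ⟨Sum.inl k, gl_b hk⟩
  · have hb := kb_bt (fun e : Empty => (e.elim : Fin 3)) (fun e => e.elim)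
    refine ⟨fun x => match x with
      | Sum.inl c => kb (Sum.inl c)
      | Sum.inr (Sum.inl k) => kb (Sum.inr k)
      | Sum.inr (Sum.inr (e, _)) => e.elim, ?_, fun i => rfl, ?_⟩
    · have := drw_comp (A' := gl (kB (fun e : Empty => (e.elim : Fin 3)))
        (fun _ _ : W Empty => False)) (e := fun x : W (Unit ⊕ Empty × Empty) => match x with
        | Sum.inl c => (Sum.inl c : W Unit)
        | Sum.inr (Sum.inl k) => Sum.inr k
        | Sum.inr (Sum.inr (e, _)) => e.elim) hb.drw ?_ ?_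
      · convert this using 1
        funext x
        rcases x with c | k | ⟨e, _⟩
        · rfl
        · rfl
        · exact e.elim
      · intro x y hxy
        rcases x with c | k | ⟨e, _⟩
        · rcases y with c' | k' | ⟨e, _⟩
          · simpa using hxy
          · simp at hxy
          · exact e.elim
        · rcases y with c' | k' | ⟨e, _⟩
          · simp at hxy
          · rfl
          · exact e.elim
        · exact e.elim
      · rintro u v (⟨i, j, h, rfl, rfl⟩ | ⟨m, _⟩)
        · rcases i with c | k <;> rcases j with c' | k' <;> exact h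
        · exact m.elim
    · rintro (k | ⟨e, _⟩)
      · exact hb.inn k
      · exact e.elim
  · exact gl_tw (kb_tw _) ⟨fun v => v.elim, fun v => v.elim, fun v => v.elim, fun v => v.elim,
      fun v => v.elim, fun _ _ h => h.elim⟩ (fun _ h => h) hB.fa

end Pool.Agent.N398
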