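import Pool.Agent.N894.WF.Defs

/-!
WF/B2: from words to the free product (helper398).
-/

set_option autoImplicit false

namespace Pool.Agent.N398.WF

open N894.WF

section

variable {V : Type} {Γ : V → Type} [∀ v, Group (Γ v)]

/-- the homomorphism of the free group on the letters -/
noncomputable def Ph {P : Type} [Group P] (φ : (v : V) → Γ v → P) : FreeGroup (Σ v, Γ v) →* P :=
  FreeGroup.lift fun x => φ x.1 x.2

/-- consequences of boundedly many errors -/
def Cons (r : FreeGroup (Σ v, Γ v)) : Prop :=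
  ∃ (F : Finset (Σ v, Γ v)) (n : ℕ), ∀ (P : Type) [Group P] (φ : (v : V) → Γ v → P),
    ∃ T : Finset P, T.card ≤ n ∧ IsErrV φ F T ∧ Ph φ r ∈ Subgroup.closure (T : Set P)

theorem err_mono {P : Type} [Group P] {φ : (v : V) → Γ v → P} {F F' : Finset (Σ v, Γ v)}
    (h : F ⊆ F') {T : Finset P} (hT : IsErrV φ F T) : IsErrV φ F' T := by
  intro t ht
  obtain ⟨x, v, a, b, ha, hb, e⟩ := hT t ht
  exact ⟨x, v, a, b, h ha, h hb, e⟩

open Classical in
theorem conj_closure {P : Type} [Group P] {φ : (v : V) → Γ v → P} {F : Finset (Σ v, Γ v)}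
    {T : Finset P} (hT : IsErrV φ F T) (y : P) {z : P}
    (hz : z ∈ Subgroup.closure (T : Set P)) :
    IsErrV φ F (T.image fun t => y * t * y⁻¹) ∧
      y * z * y⁻¹ ∈ Subgroup.closure ((T.image fun t => y * t * y⁻¹ : Finset P) : Set P) := by
  constructor
  · intro t ht
    obtain ⟨s, hs, rfl⟩ := Finset.mem_image.1 ht
    obtain ⟨x, v, a, b, ha, hb, e⟩ := hT s hs
    refine ⟨y * x, v, a, b, ha, hb, ?_⟩
    rw [e]
    group
  · have h1 : y * z * y⁻¹ ∈ (Subgroup.closure (T : Set P)).map (MulAut.conj y).toMonoidHom :=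
      ⟨z, hz, rfl⟩
    rw [MonoidHom.map_closure] at h1
    rw [Finset.coe_image]
    exact h1

/-- the subgroup of the consequences -/
def NN (V : Type) (Γ : V → Type) [∀ v, Group (Γ v)] : Subgroup (FreeGroup (Σ v, Γ v)) where
  carrier := {r | Cons r}
  one_mem' := ⟨∅, 0, fun P _ φ => ⟨∅, le_rfl, fun t ht => absurd ht (Finset.notMem_empty t), by
    rw [map_one]
    exact Subgroup.one_mem _⟩⟩
  mul_mem' := by
    classical
    rintro r s ⟨F, n, h⟩ ⟨F', n', h'⟩
    refine ⟨F ∪ F', n + n', fun P _ φ => ?_⟩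
    obtain ⟨T, hT1, hT2, hT3⟩ := h P φ
    obtain ⟨T', hT1', hT2', hT3'⟩ := h' P φ
    refine ⟨T ∪ T', (Finset.card_union_le _ _).trans (add_le_add hT1 hT1'), ?_, ?_⟩
    · intro t ht
      rcases Finset.mem_union.1 ht with ht | ht
      · exact (err_mono Finset.subset_union_left hT2) t ht
      · exact (err_mono Finset.subset_union_right hT2') t ht
    · rw [map_mul]
      refine Subgroup.mul_mem _ (Subgroup.closure_mono ?_ hT3) (Subgroup.closure_mono ?_ hT3')
      · exact_mod_cast Finset.subset_union_left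
      · exact_mod_cast Finset.subset_union_right
  inv_mem' := by
    rintro r ⟨F, n, h⟩
    refine ⟨F, n, fun P _ φ => ?_⟩
    obtain ⟨T, hT1, hT2, hT3⟩ := h P φ
    refine ⟨T, hT1, hT2, ?_⟩
    rw [map_inv]
    exact Subgroup.inv_mem _ hT3

theorem mem_NN {r : FreeGroup (Σ v, Γ v)} : r ∈ NN V Γ ↔ Cons r := Iff.rfl

instance : (NN V Γ).Normal where
  conj_mem := by
    classical
    rintro r ⟨F, n, h⟩ w
    refine ⟨F, n, fun P _ φ => ?_⟩
    obtain ⟨T, hT1, hT2, hT3⟩ := h P φ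
    obtain ⟨a, b⟩ := conj_closure hT2 (Ph φ w) hT3
    refine ⟨_, Finset.card_image_le.trans hT1, a, ?_⟩
    rw [map_mul, map_mul, map_inv]
    exact b

theorem rel_mem (v : V) (a b : Γ v) :
    FreeGroup.of (⟨v, a⟩ : Σ v, Γ v) * FreeGroup.of (⟨v, b⟩ : Σ v, Γ v) *
      (FreeGroup.of (⟨v, a * b⟩ : Σ v, Γ v))⁻¹ ∈ NN V Γ := by
  classical
  refine ⟨{⟨v, a⟩, ⟨v, b⟩}, 1, fun P _ φ => ?_⟩
  have e : Ph φ (FreeGroup.of (⟨v, a⟩ : Σ v, Γ v) * FreeGroup.of (⟨v, b⟩ : Σ v, Γ v) *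
      (FreeGroup.of (⟨v, a * b⟩ : Σ v, Γ v))⁻¹) = φ v a * φ v b * (φ v (a * b))⁻¹ := by
    unfold Ph
    rw [map_mul, map_mul, map_inv, FreeGroup.lift_apply_of, FreeGroup.lift_apply_of,
      FreeGroup.lift_apply_of]
  refine ⟨{φ v a * φ v b * (φ v (a * b))⁻¹}, by simp, ?_, ?_⟩
  · intro t ht
    refine ⟨1, v, a, b, by simp, by simp, ?_⟩
    rw [Finset.mem_singleton.1 ht]
    group
  · rw [e]
    exact Subgroup.subset_closure (by simp)

/-- the homomorphisms of the factors to the quotient -/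
noncomputable def fac (v : V) : Γ v →* FreeGroup (Σ v, Γ v) ⧸ NN V Γ :=
  MonoidHom.mk' (fun a => QuotientGroup.mk' (NN V Γ) (FreeGroup.of ⟨v, a⟩)) (by
    intro a b
    have h := (QuotientGroup.eq_one_iff (N := NN V Γ) _).2 (rel_mem v a b)
    have h2 : QuotientGroup.mk' (NN V Γ) (FreeGroup.of (⟨v, a⟩ : Σ v, Γ v) *
      FreeGroup.of (⟨v, b⟩ : Σ v, Γ v) * (FreeGroup.of (⟨v, a * b⟩ : Σ v, Γ v))⁻¹) = 1 := h
    rw [map_mul, map_mul, map_inv, mul_inv_eq_one] at h2
    exact h2.symm)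

/-- the product of a list of letters in the free group -/
def ll (l : List (Σ v, Γ v)) : FreeGroup (Σ v, Γ v) := (l.map FreeGroup.of).prod

omit [∀ v, Group (Γ v)] in
theorem Ph_ll {P : Type} [Group P] (φ : (v : V) → Γ v → P) (l : List (Σ v, Γ v)) :
    Ph φ (ll l) = ev φ l := by
  unfold ll ev Ph
  rw [map_list_prod, List.map_map]
  congr 1
  refine List.map_congr_left fun x _ => ?_
  exact FreeGroup.lift_apply_of

theorem mk_ll (l : List (Σ v, Γ v)) : QuotientGroup.mk' (NN V Γ) (ll l) =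
    Monoid.CoprodI.lift fac ((l.map fun x => Monoid.CoprodI.of (M := Γ) x.2).prod) := by
  unfold ll
  rw [map_list_prod, map_list_prod, List.map_map, List.map_map]
  congr 1

end

theorem t_B2 : LeafB2 := by
  classical
  intro V Γ _ hG F₀ K
  obtain ⟨w, hw⟩ : ∃ w : Monoid.CoprodI Γ → Monoid.CoprodI.Word Γ,
      ∀ g, (w g).prod = g :=
    ⟨Monoid.CoprodI.Word.equiv, Monoid.CoprodI.Word.equiv.symm_apply_apply⟩
  have hc : ∀ g h : Monoid.CoprodI Γ,
      Cons (ll (w g).toList * ll (w h).toList * (ll (w (g * h)).toList)⁻¹) := by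
    intro g h
    rw [← mem_NN, ← QuotientGroup.eq_one_iff]
    show QuotientGroup.mk' (NN V Γ) (ll (w g).toList * ll (w h).toList *
      (ll (w (g * h)).toList)⁻¹) = 1
    have e : ∀ g, QuotientGroup.mk' (NN V Γ) (ll (w g).toList) = Monoid.CoprodI.lift fac g := by
      intro g
      rw [mk_ll]
      congr 1
      exact hw g
    rw [map_mul, map_mul, map_inv, e, e, e, map_mul, mul_inv_cancel]
  choose F₁ n hn using hc
  obtain ⟨F, hF⟩ : ∃ F : Finset (Σ v, Γ v), F = (F₀ ×ˢ F₀).biUnion (fun p => F₁ p.1 p.2) ∪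
      F₀.biUnion fun g => (w g).toList.toFinset := ⟨_, rfl⟩
  obtain ⟨m, hm⟩ : ∃ m : ℕ, m = ∑ p ∈ F₀ ×ˢ F₀, n p.1 p.2 := ⟨_, rfl⟩
  obtain ⟨N, hN⟩ : ∃ N : ℕ, N = ∑ g ∈ F₀, (w g).toList.length := ⟨_, rfl⟩
  obtain ⟨P, hP, hfin, φ, hgood⟩ := hG F (K * m) N
  refine ⟨P, hP, hfin, fun g => ev φ (w g).toList, fun T hT hE g hg hg1 hmem => ?_⟩
  have hone : ∀ t : P, t ∈ T → ∃ T' : Finset P, T'.card ≤ m ∧ IsErrV φ F T' ∧
      t ∈ Subgroup.closure (T' : Set P) := by
    intro t ht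
    obtain ⟨x, g, hg, h, hh, e⟩ := hE t ht
    obtain ⟨T', h1, h2, h3⟩ := hn g h P φ
    obtain ⟨h4, h5⟩ := conj_closure h2 x h3
    refine ⟨_, Finset.card_image_le.trans (h1.trans ?_), err_mono ?_ h4, ?_⟩
    · rw [hm]
      exact Finset.single_le_sum (f := fun p : Monoid.CoprodI Γ × Monoid.CoprodI Γ => n p.1 p.2)
        (fun _ _ => Nat.zero_le _) (Finset.mk_mem_product hg hh)
    · rw [hF]
      refine Finset.Subset.trans ?_ Finset.subset_union_left
      exact Finset.subset_biUnion_of_mem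
        (fun p : Monoid.CoprodI Γ × Monoid.CoprodI Γ => F₁ p.1 p.2) (Finset.mk_mem_product hg hh)
    · rw [map_mul, map_mul, map_inv, Ph_ll, Ph_ll, Ph_ll, ← e] at h5
      exact h5
  choose T' h1 h2 h3 using hone
  refine hgood (w g).toList ?_ ?_ ?_ (w g).chain_ne
    (T.attach.biUnion fun t => T' t.1 t.2) ?_ ?_ ?_
  · intro h0
    apply hg1
    rw [← hw g]
    unfold Monoid.CoprodI.Word.prod
    rw [h0]
    rfl
  · rw [hN]
    exact Finset.single_le_sum (f := fun g => (w g).toList.length) (fun _ _ => Nat.zero_le _) hg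
  · intro x hx
    refine ⟨?_, (w g).ne_one x hx⟩
    rw [hF]
    exact Finset.mem_union_right _ (Finset.mem_biUnion.2 ⟨g, hg, List.mem_toFinset.2 hx⟩)
  · refine (Finset.card_biUnion_le_card_mul _ _ m fun t _ => h1 t.1 t.2).trans ?_
    rw [Finset.card_attach]
    exact Nat.mul_le_mul_right m hT
  · intro t ht
    obtain ⟨s, -, hs⟩ := Finset.mem_biUnion.1 ht
    exact h2 s.1 s.2 t hs
  · refine (Subgroup.closure_le _).2 (fun t ht => ?_) hmem
    refine Subgroup.closure_mono ?_ (h3 t ht)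
    intro s hs
    exact Finset.mem_coe.2 (Finset.mem_biUnion.2 ⟨⟨t, ht⟩, Finset.mem_attach _ _, hs⟩)

end Pool.Agent.N398.WF
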