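import Pool.Agent.N841.WS.Stm

/-!
WS/WU: the weight is at most the number of characters (helper398).
-/

set_option autoImplicit false

open Cardinal Topology TopologicalSpace Set Filter

namespace Pool.Agent.N398.WSWU

open Pool.Agent.N841.WS

theorem dist_mul_right' (z w : Circle) : dist z 1 = dist (z * w) w := by
  have h1 : dist z 1 = dist (z : ℂ) ((1 : Circle) : ℂ) := rfl
  have h2 : dist (z * w) w = dist ((z * w : Circle) : ℂ) (w : ℂ) := rfl
  rw [h1, h2, dist_eq_norm, dist_eq_norm, Circle.coe_mul, Circle.coe_one, ← sub_one_mul, norm_mul,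
    Circle.norm_coe, mul_one]

variable {G : Type} [AddCommGroup G] [TopologicalSpace G]

/-- the basic open set -/
def O (Y : Set (Ch G)) (P : Finset (Y × countableBasis Circle)) : Set G :=
  {x | ∀ p ∈ P, p.1.1.1 x ∈ p.2.1}

theorem isOpen_O (Y : Set (Ch G)) (P : Finset (Y × countableBasis Circle)) : IsOpen (O Y P) := by
  have h : O Y P = ⋂ p ∈ P, p.1.1.1 ⁻¹' p.2.1 := by
    ext x
    simp [O]
  rw [h]
  exact isOpen_biInter_finset fun p _ =>
    ((isBasis_countableBasis Circle).isOpen p.2.2).preimage p.1.1.2.1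

theorem t_WU : S_WU := by
  classical
  intro G _ _ _ Y hY
  have hbasis : IsTopologicalBasis (Set.range (O Y)) := by
    refine isTopologicalBasis_of_isOpen_of_nhds ?_ ?_
    · rintro _ ⟨P, rfl⟩
      exact isOpen_O Y P
    · intro a U ha hU
      have h0 : (fun x : G => a + x) ⁻¹' U ∈ 𝓝 (0 : G) := by
        apply (continuous_const.add continuous_id).continuousAt
        simpa using hU.mem_nhds ha
      obtain ⟨F, hF, ε, hε, h⟩ := hY _ h0
      have hb : ∀ χ : Ch G, ∃ b : countableBasis Circle, χ.1 a ∈ b.1 ∧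
          b.1 ⊆ Metric.ball (χ.1 a) ε := by
        intro χ
        obtain ⟨b, hb, h1, h2⟩ := (isBasis_countableBasis Circle).exists_subset_of_mem_open
          (Metric.mem_ball_self hε : χ.1 a ∈ Metric.ball (χ.1 a) ε) Metric.isOpen_ball
        exact ⟨⟨b, hb⟩, h1, h2⟩
      choose b hb1 hb2 using hb
      refine ⟨O Y (F.attach.image fun χ => (⟨χ.1, hF χ.1 χ.2⟩, b χ.1)), ⟨_, rfl⟩, ?_, ?_⟩
      · intro p hp
        obtain ⟨χ, -, rfl⟩ := Finset.mem_image.1 hp
        exact hb1 χ.1
      · intro x hx
        have h1 := h (x - a) fun χ hχ => ?_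
        · simpa using h1
        · have h2 : χ.1 x ∈ (b χ).1 :=
            hx (⟨χ, hF χ hχ⟩, b χ) (Finset.mem_image.2 ⟨⟨χ, hχ⟩, Finset.mem_attach _ _, rfl⟩)
          have h3 := hb2 χ h2
          have h4 : χ.1 (x - a) * χ.1 a = χ.1 x := by
            rw [← χ.2.2, sub_add_cancel]
          rw [dist_mul_right' _ (χ.1 a), h4]
          exact h3
  have h1 : weight G ≤ #(Set.range (O Y)) := csInf_le' ⟨_, hbasis, rfl⟩
  refine h1.trans (mk_range_le.trans ?_)
  rcases finite_or_infinite (Y × countableBasis Circle) with hfin | hinf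
  · exact (lt_aleph0_of_finite _).le.trans (le_max_right _ _)
  · rw [Cardinal.mk_finset_of_infinite, mk_prod, lift_id, lift_id]
    refine (mul_le_max _ _).trans ?_
    have h2 : #(countableBasis Circle) ≤ ℵ₀ := (countable_countableBasis Circle).le_aleph0
    exact max_le (max_le (le_max_left _ _) (h2.trans (le_max_right _ _))) (le_max_right _ _)

end Pool.Agent.N398.WSWU
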